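import Pool.Agent.H.MP_0447ec_lc.DY.RegS

/-!
# Rules given by tables that do not raise the weight, in register form, in polynomial time
-/

namespace Pool.Agent.H.MP_0447ec_lc.PS

open Fm

/-! ### Variables -/

theorem regT_vars {d : Nm} {regs : List (List Nm)} {cd : List (Nm × List Bool)} {X : Fm}
    (h1 : (cd.map Prod.fst).Nodup) (hX : ∀ z ∈ X.vars, z ∈ cd.map Prod.fst) {x : Nm}
    (hx : x ∈ (X.subst (tsub (regT d regs cd))).vars) : x = d ∨ x ∈ regs.flatten := by
  obtain ⟨z, hz, hx⟩ := vars_subst hx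
  rw [tsub_regT h1 (hX z hz), ← regG_nil_left (D := []) (m := [])] at hx
  exact regG_vars hx

theorem regT0_vars {d d0 : Nm} {regs : List (List Nm)} {cd : List (Nm × List Bool)} {X : Fm}
    (h1 : (cd.map Prod.fst).Nodup) (hd0 : d0 ∉ cd.map Prod.fst)
    (hX : ∀ z ∈ X.vars, z = d0 ∨ z ∈ cd.map Prod.fst) {x : Nm}
    (hx : x ∈ (X.subst (tsub (regT0 d d0 regs cd))).vars) : x = d ∨ x ∈ regs.flatten := by
  obtain ⟨z, hz, hx⟩ := vars_subst hx
  rcases hX z hz with h | h
  · subst h
    rw [tsub_regT0_self] at hx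
    exact Or.inl hx
  · rw [tsub_regT0 hd0 h, tsub_regT h1 h, ← regG_nil_left (D := []) (m := [])] at hx
    exact regG_vars hx

theorem msub_vars {d : Nm} {regs : List (List Nm)} {D : List Nm} {m : List (Nm × Nm)}
    (hm : ∀ p ∈ m, p.2 ∈ D) {w x : Nm} (hx : x ∈ (msub d regs D m w).vars) :
    x = d ∨ x ∈ D ∨ x = w := by
  unfold msub at hx
  cases hs : msrc D m w with
  | none =>
    rw [hs] at hx
    simp only [Option.map_none, Option.getD_none] at hx
    rw [vars_dj] at hx
    rcases hx with h | ⟨A, hA, h⟩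
    · exact Or.inl h
    · obtain ⟨ys, -, rfl⟩ := List.mem_map.1 hA
      exact Or.inl (vars_ct.1 h)
  | some y =>
    rw [hs] at hx
    simp only [Option.map_some, Option.getD_some, Fm.vars, Set.mem_singleton_iff] at hx
    subst hx
    unfold msrc at hs
    split_ifs at hs with hw
    · rw [Option.map_eq_some_iff] at hs
      obtain ⟨p, hp, rfl⟩ := hs
      exact Or.inr (Or.inl (hm p (List.mem_of_find?_eq_some hp)))
    · exact Or.inr (Or.inr (by simpa using hs.symm))

theorem tabL_vars {d : Nm} {cd : List (Nm × List Bool)} {W : List (List Bool)}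
    {t : List (Nm × Fm)} {C : Fm} {regs : List (List Nm)}
    (h1 : (cd.map Prod.fst).Nodup)
    (hsub : ∀ x ∈ tdom t, x ∈ cd.map Prod.fst) (hv : ∀ x ∈ C.vars, x ∈ cd.map Prod.fst)
    {X : Fm} (hX : X ∈ tabL d regs cd W t C) {x : Nm} (hx : x ∈ X.vars) :
    x = d ∨ x ∈ regs.flatten := by
  have hd0 := newN_not_mem cd
  unfold tabL at hX
  generalize newN cd = d0 at *
  have hB : ∀ z ∈ (C.subst (tsub t)).vars, z = d0 ∨ z ∈ cd.map Prod.fst := by
    intro z hz
    obtain ⟨w, hw, hz⟩ := vars_subst hz
    by_cases hwt : w ∈ tdom t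
    · exact Or.inr (hsub _ (vars_tsub_tdom hwt hz))
    · rw [tsub_not_tdom hwt] at hz
      simp only [Fm.vars, Set.mem_singleton_iff] at hz
      rw [hz]
      exact Or.inr (hv w hw)
  have hH : ∀ (y : List Bool), ∀ z ∈ (lw (ct d0 true) (tdom t) y).vars,
      z = d0 ∨ z ∈ cd.map Prod.fst := by
    intro y z hz
    rcases lw_vars hz with h | h
    · exact Or.inl (vars_ct.1 h)
    · exact Or.inr (hsub z h)
  rcases List.mem_append.1 hX with hX | hX
  · obtain ⟨y, -, hX⟩ := List.mem_flatMap.1 hX
    rcases List.mem_append.1 hX with hX | hX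
    · exact moveL_vars hX hx
    · obtain ⟨Y, hY, rfl⟩ := List.mem_map.1 hX
      refine regT0_vars h1 hd0 ?_ hx
      intro z hz
      rcases li0_vars hY hz with h | h | h | h
      · exact Or.inl h
      · exact hH y z h
      · obtain ⟨w, hw, h⟩ := vars_subst h
        have hm : ∀ p ∈ tmove t y, p.2 ∈ tdom t := fun p hp =>
          (mem_vl.1 (List.of_mem_zip hp).2).1
        rcases msub_vars hm h with h | h | h
        · exact Or.inl h
        · exact Or.inr (hsub z h)
        · rw [h]; exact Or.inr (hv w hw)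
      · exact hB z h
  · obtain ⟨Y, hY, rfl⟩ := List.mem_map.1 hX
    refine regT0_vars h1 hd0 ?_ hx
    intro z hz
    rcases List.mem_append.1 hY with hY | hY
    · rcases splitL_vars hY hz with h | h | h
      · exact Or.inl (vars_ct.1 h)
      · exact hB z h
      · exact Or.inr (hsub z h)
    · rw [List.mem_singleton] at hY
      subst hY
      exact hB z hz

theorem regS_vars {S : List (List (Nm × Fm))} {d : Nm} {cd : List (Nm × List Bool)}
    {W : List (List Bool)} {regs : List (List Nm)} (h1 : (cd.map Prod.fst).Nodup)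
    (hsub : ∀ t ∈ S, ∀ x ∈ tdom t, x ∈ cd.map Prod.fst)
    {ρ : List Fm} (hv : ∀ C ∈ ρ, ∀ x ∈ C.vars, x ∈ cd.map Prod.fst) {D : Fm}
    (hD : D ∈ regS S d regs cd W ρ) {x : Nm} (hx : x ∈ D.vars) :
    x = d ∨ x ∈ regs.flatten := by
  induction ρ using List.reverseRecOn with
  | nil => simp [regS, splits, sp] at hD
  | append_singleton ρ B ih =>
    rw [regS_snoc] at hD
    rcases List.mem_append.1 hD with hD | hD
    · exact ih (fun C hC => hv C (List.mem_append_left _ hC)) hD
    · rcases List.mem_append.1 hD with hD | hD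
      · obtain ⟨C, hC, hD⟩ := List.mem_flatMap.1 hD
        rcases List.mem_append.1 hD with hD | hD
        · split_ifs at hD with h
          · exact permL_vars hD hx
          · simp at hD
        · obtain ⟨t, ht, hD⟩ := List.mem_flatMap.1 hD
          exact tabL_vars h1 (hsub t ht) (hv C (List.mem_append_left _ hC)) hD hx
      · rw [List.mem_singleton] at hD
        subst hD
        exact regT_vars h1 (fun z hz => hv B (by simp) z hz) hx

/-! ### Computability in polynomial time -/

section

open Pool.Agent.H.MP_0447ec_lc.PT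

variable {α : Type} [Enc α]

theorem poly_gvalC (D : List Nm) (m : List (Nm × Nm)) {c : α → List (Nm × List Bool)}
    {w : α → List Bool} (hc : Poly c) (hw : Poly w) :
    Poly (fun a => gval (c a) D m (w a)) := by
  induction D with
  | nil => exact hw
  | cons y D ih =>
    have e : (fun a => gval (c a) (y :: D) m (w a)) = fun a =>
        if PS.code (c a) y = w a then
          ((m.find? (fun p => decide (p.2 = y))).map (fun p => PS.code (c a) p.1)).getD
            ((w a).map (fun _ => false)) else gval (c a) D m (w a) := rfl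
    rw [e]
    refine Poly.ite (Poly.decEq (Poly.code hc (PT.Poly.const y)) hw) ?_ ih
    cases m.find? (fun p => decide (p.2 = y)) with
    | none =>
      simp only [Option.map_none, Option.getD_none]
      fun_prop
    | some p =>
      simp only [Option.map_some, Option.getD_some]
      exact Poly.code hc (PT.Poly.const p.1)

theorem poly_msrcC (D : List Nm) (m : List (Nm × Nm)) {x : α → Nm} (hx : Poly x) :
    Poly (fun a => msrc D m (x a)) := by
  unfold msrc
  refine Poly.ite (Poly.decMem hx (PT.Poly.const D)) ?_ (PT.Poly.some hx)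
  induction m with
  | nil => exact PT.Poly.const _
  | cons p m ih =>
    have e : (fun a => (List.find? (fun q : Nm × Nm => decide (q.1 = x a)) (p :: m)).map
        Prod.snd) = fun a => if p.1 = x a then some p.2 else
          (List.find? (fun q : Nm × Nm => decide (q.1 = x a)) m).map Prod.snd := by
      funext a
      rw [List.find?_cons]
      by_cases h : p.1 = x a
      · simp [h]
      · simp [h]
    rw [e]
    exact Poly.ite (Poly.decEq (PT.Poly.const p.1) hx) (PT.Poly.const _) ih

theorem poly_moF {d : α → Nm} {c : α → List (Nm × List Bool)} {o : α → Option Nm}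
    {ys : α → List Nm} (hd : Poly d) (hc : Poly c) (ho : Poly o) (hy : Poly ys) :
    Poly (fun a => moF (d a) (c a) (o a) (ys a)) := by
  unfold PS.moF
  refine Poly.ogetD (PT.Poly.omap ?_ ho) (by fun_prop)
  fun_prop

theorem poly_regGs (D : List Nm) (m : List (Nm × Nm)) {d : α → Nm}
    {c : α → List (Nm × List Bool)} {C : α → Fm}
    {R1 R2 : α → List (List Nm)} (hd : Poly d) (hc : Poly c) (hC : Poly C)
    (h1 : Poly R1) (h2 : Poly R2) :
    Poly (fun a => (C a).subst (regG (d a) (c a) D m (R1 a) (R2 a))) := by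
  refine Poly.substOf (s := fun a x => regG (d a) (c a) D m (R1 a) (R2 a) x) hC ?_
  unfold PS.regG
  have e1 : Poly (fun p : (α × Nm) × List Nm => PS.moF (d p.1.1) (c p.1.1)
      (msrc D m p.1.2) p.2) :=
    poly_moF (by fun_prop) (by fun_prop) (poly_msrcC D m (by fun_prop)) (by fun_prop)
  have e2 : Poly (fun p : α × Nm => (R1 p.1).map (PS.moF (d p.1) (c p.1) (msrc D m p.2))) :=
    PT.Poly.map (f := fun (p : α × Nm) (ys : List Nm) => PS.moF (d p.1) (c p.1)
      (msrc D m p.2) ys) e1 (by fun_prop)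
  have e3 : Poly (fun p : α × Nm => (R2 p.1).map (fun ys => eqr (d p.1) ys
      (PS.code (c p.1) p.2))) := by fun_prop
  exact Poly.dj (by fun_prop) (Poly.append e2 e3)

theorem poly_stepG (D : List Nm) (m : List (Nm × Nm)) {d : α → Nm}
    {c : α → List (Nm × List Bool)} {W : α → List (List Bool)}
    {C : α → Fm} {R1 R2 : α → List (List Nm)} {ys : α → List Nm} (hd : Poly d) (hc : Poly c)
    (hW : Poly W) (hC : Poly C) (h1 : Poly R1) (hy : Poly ys) (h2 : Poly R2) :
    Poly (fun a => stepG (d a) (c a) (W a) D m (C a) (R1 a) (ys a) (R2 a)) := by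
  have e1 : Poly (fun a => (C a).subst (regG (d a) (c a) D m (R1 a) (ys a :: R2 a))) :=
    poly_regGs D m hd hc hC h1 (by fun_prop)
  have e2 : Poly (fun a => (C a).subst (regG (d a) (c a) D m (R1 a ++ [ys a]) (R2 a))) :=
    poly_regGs D m hd hc hC (by fun_prop) h2
  unfold PS.stepG
  have ed : Poly (fun a => PS.ct (d a) true) := by fun_prop
  refine Poly.append (PT.Poly.flatMap ?_ hW) (Poly.append (Poly.splitL ed e2 hy hW)
    (Poly.lcons e2 (PT.Poly.const [])))
  have e1' : Poly (fun p : α × List Bool => (C p.1).subst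
      (regG (d p.1) (c p.1) D m (R1 p.1) (ys p.1 :: R2 p.1))) :=
    Poly.comp (f := fun a => (C a).subst (regG (d a) (c a) D m (R1 a) (ys a :: R2 a)))
      (g := fun p : α × List Bool => p.1) e1 (by fun_prop)
  have e2' : Poly (fun p : α × List Bool => (C p.1).subst
      (regG (d p.1) (c p.1) D m (R1 p.1 ++ [ys p.1]) (R2 p.1))) :=
    Poly.comp (f := fun a => (C a).subst (regG (d a) (c a) D m (R1 a ++ [ys a]) (R2 a)))
      (g := fun p : α × List Bool => p.1) e2 (by fun_prop)
  have e0 : Poly (fun p : α × List Bool => gval (c p.1) D m p.2) :=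
    poly_gvalC D m (by fun_prop) (by fun_prop)
  have e3 : Poly (fun p : α × List Bool => (ys p.1).zip (gval (c p.1) D m p.2)) :=
    Poly.zip (by fun_prop) e0
  have e4 : Poly (fun p : α × List Bool => PS.lw (PS.ct (d p.1) true) (ys p.1) p.2) := by
    fun_prop
  exact Poly.append (Poly.chn e1' e3) (Poly.li0 (by fun_prop) e4
    (Poly.substT (Poly.cT e3) e1') e2')

theorem poly_moveL (D : List Nm) (m : List (Nm × Nm)) {d : α → Nm} {R : α → List (List Nm)}
    {c : α → List (Nm × List Bool)} {W : α → List (List Bool)} {C : α → Fm} (hd : Poly d)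
    (hR : Poly R) (hc : Poly c) (hW : Poly W) (hC : Poly C) :
    Poly (fun a => moveL (d a) (R a) (c a) (W a) D m (C a)) := by
  unfold PS.moveL
  refine PT.Poly.flatMap ?_ (by fun_prop)
  exact poly_stepG D m (by fun_prop) (by fun_prop) (by fun_prop) (by fun_prop) (by fun_prop)
    (by fun_prop) (by fun_prop)

theorem poly_msubS (D : List Nm) (m : List (Nm × Nm)) {d : α → Nm} {R : α → List (List Nm)}
    {C : α → Fm} (hd : Poly d) (hR : Poly R) (hC : Poly C) :
    Poly (fun a => (C a).subst (msub (d a) (R a) D m)) := by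
  refine Poly.substOf (s := fun a x => msub (d a) (R a) D m x) hC ?_
  unfold PS.msub
  have e1 : Poly (fun p : α × Nm => msrc D m p.2) := poly_msrcC D m (by fun_prop)
  refine Poly.ogetD (PT.Poly.omap (f := fun (_ : α × Nm) (y : Nm) => Fm.var y) ?_ e1) ?_
  · fun_prop
  · fun_prop

theorem poly_newN {c : α → List (Nm × List Bool)} (hc : Poly c) :
    Poly (fun a => newN (c a)) := by
  unfold PS.newN
  fun_prop

theorem poly_tabL (t : List (Nm × Fm)) {d : α → Nm} {R : α → List (List Nm)}
    {c : α → List (Nm × List Bool)} {W : α → List (List Bool)} {C : α → Fm} (hd : Poly d)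
    (hR : Poly R) (hc : Poly c) (hW : Poly W) (hC : Poly C) :
    Poly (fun a => tabL (d a) (R a) (c a) (W a) t (C a)) := by
  unfold PS.tabL
  have hN : Poly (fun a => newN (c a)) := poly_newN hc
  have hN' : Poly (fun p : α × Fm => newN (c p.1)) := poly_newN (by fun_prop)
  have eB : Poly (fun a => (C a).subst (tsub t)) := Poly.substT (PT.Poly.const t) hC
  have eT : Poly (fun p : α × Fm =>
      p.2.subst (tsub (regT0 (d p.1) (newN (c p.1)) (R p.1) (c p.1)))) := by
    unfold PS.regT0
    exact Poly.substT (Poly.lcons (Poly.pair hN' (by fun_prop)) (by fun_prop)) (by fun_prop)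
  refine Poly.append (Poly.flatMapConst _ (fun y => ?_)) ?_
  · refine Poly.append (poly_moveL _ _ hd hR hc hW hC) ?_
    have e1 : Poly (fun a => lw (ct (newN (c a)) true) (tdom t) y) := by fun_prop
    exact PT.Poly.map (f := fun (a : α) (X : Fm) =>
      X.subst (tsub (regT0 (d a) (newN (c a)) (R a) (c a))))
      eT (Poly.li0 hN e1 (poly_msubS _ _ hN hR hC) eB)
  · have e1 : Poly (fun a => ct (newN (c a)) true) := by fun_prop
    exact PT.Poly.map (f := fun (a : α) (X : Fm) =>
      X.subst (tsub (regT0 (d a) (newN (c a)) (R a) (c a))))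
      eT (Poly.append (Poly.splitL e1 eB (PT.Poly.const _) (PT.Poly.const _))
        (Poly.lcons eB (PT.Poly.const [])))

theorem poly_regS (S : List (List (Nm × Fm))) {d : α → Nm} {R : α → List (List Nm)}
    {c : α → List (Nm × List Bool)} {W : α → List (List Bool)} {ρ : α → List Fm} (hd : Poly d)
    (hR : Poly R) (hc : Poly c) (hW : Poly W) (hρ : Poly ρ) :
    Poly (fun a => regS S (d a) (R a) (c a) (W a) (ρ a)) := by
  unfold PS.regS
  refine PT.Poly.flatMap ?_ (by fun_prop)
  refine Poly.append (PT.Poly.flatMap ?_ (by fun_prop)) (by fun_prop)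
  refine Poly.append (Poly.ifb (by fun_prop) ?_ (by fun_prop)) ?_
  · exact Poly.permL (by fun_prop) (by fun_prop) (by fun_prop) (by fun_prop) (by fun_prop)
      (by fun_prop)
  · refine Poly.flatMapConst _ (fun t => ?_)
    exact poly_tabL t (by fun_prop) (by fun_prop) (by fun_prop) (by fun_prop) (by fun_prop)

end

theorem regS_main (F : List Rule) {S : List (List (Nm × Fm))} (hS : ∀ t ∈ S, ¬ Raises t) :
    ∃ T : Nm × List (List Nm) × List (Nm × List Bool) × List (List Bool) × List Fm → List Fm,
    PT.Poly T ∧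
    ∀ (d : Nm) (regs : List (List Nm)) (cd : List (Nm × List Bool)) (W : List (List Bool))
      (r : ℕ) (ρ : List Fm),
      (∀ w, w ∈ W ↔ w.length = r) → (∀ ys ∈ regs, ys.length = r) → regs.flatten.Nodup →
      d ∉ regs.flatten → (cd.map Prod.fst).Nodup → (cd.map Prod.snd).Nodup →
      (∀ p ∈ cd, p.2.length = r ∧ true ∈ p.2) → Deriv (FPT F S) ρ →
      (∀ C ∈ ρ, ∀ x ∈ C.vars, x ∈ cd.map Prod.fst) →
      (∀ t ∈ S, ∀ x ∈ tdom t, x ∈ cd.map Prod.fst) →
      ∀ π : List Fm, Just (GC (GG F)) π (T (d, regs, cd, W, ρ)) ∧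
        (∀ B ∈ ρ, B.subst (tsub (regT d regs cd)) ∈ T (d, regs, cd, W, ρ)) ∧
        ∀ C ∈ T (d, regs, cd, W, ρ), ∀ x ∈ C.vars, x = d ∨ x ∈ regs.flatten := by
  refine ⟨fun t => regS S t.1 t.2.1 t.2.2.1 t.2.2.2.1 t.2.2.2.2, ?_, ?_⟩
  · exact poly_regS S (by fun_prop) (by fun_prop) (by fun_prop) (by fun_prop) (by fun_prop)
  · intro d regs cd W r ρ hW hys hnd hd h1 h2 hr hρ hv hsub π
    obtain ⟨a, b⟩ := regS_just hS hW hys hnd hd h1 h2 (fun p hp => (hr p hp).1)
      (fun p hp => (hr p hp).2) hsub hρ hv π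
    exact ⟨a, b, fun C hC x hx => regS_vars h1 hsub hv hC hx⟩

end Pool.Agent.H.MP_0447ec_lc.PS
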