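import Pool.Agent.H.MP_0447ec_lc.DY.AsmS0
import Pool.Agent.H.MP_0447ec_lc.DY.RegM

/-!
# Rules that never raise the number of true variables
-/

namespace Pool.Agent.H.MP_0447ec_lc.PS

open Fm Pool.Agent.H.MP_0447ec_lc.PT

/-- If the permutation rule and rules given by tables that never raise the number of true
variables simulate `R` then substitution Frege with linearly many variables simulates `R`. -/
theorem asmS {F : List Rule} (hF : IsFrege F) {S : List (List (Nm × Fm))}
    (hS : ∀ t ∈ S, ¬ Raises t) {R : Fm → List Fm → Prop}
    (hR : ClosedUnderSubstitution R) (h : PSimulates (TableProof F S) R) :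
    LinearSimulates F R :=
  asmS_of_reg hF hR h (regS_main F hS)

end Pool.Agent.H.MP_0447ec_lc.PS
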