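import Pool.Agent.H.MP_0447ec_lc.DY.Defs
import Pool.Agent.H.MP_0447ec_lc.LV.Count
import Pool.Agent.H.MP_0447ec_lc.LV.Fresh

/-!
# Basic facts on the rules given by tables
-/

namespace Pool.Agent.H.MP_0447ec_lc.PS

open Fm Pool.Agent.H.MP_0447ec_lc.PT

/-! ### Steps -/

/-- The permutation rule or a rule given by `S`. -/
def PT2 (S : List (List (Nm × Fm))) (σ : List Fm) (B : Fm) : Prop :=
  PermStep σ B ∨ TableStep S σ B

/-- A rule of `F`, the permutation rule or a rule given by `S`. -/
def FPT (F : List Rule) (S : List (List (Nm × Fm))) (σ : List Fm) (B : Fm) : Prop :=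
  RuleStep F σ B ∨ PT2 S σ B

theorem mono_tableStep (S : List (List (Nm × Fm))) : Mono (TableStep S) := by
  rintro π π' B h ⟨C, hC, t, ht, hB⟩
  exact ⟨C, h C hC, t, ht, hB⟩

theorem mono_PT2 (S : List (List (Nm × Fm))) : Mono (PT2 S) := by
  rintro π π' B h (h1 | h1)
  · exact Or.inl (mono_permStep π π' B h h1)
  · exact Or.inr (mono_tableStep S π π' B h h1)

theorem mono_FPT (F : List Rule) (S : List (List (Nm × Fm))) : Mono (FPT F S) := by
  rintro π π' B h (h1 | h1)
  · exact Or.inl (mono_ruleStep F π π' B h h1)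
  · exact Or.inr (mono_PT2 S π π' B h h1)

theorem toFPT {G : List Rule} {S : List (List (Nm × Fm))} {π σ : List Fm}
    (h : Just (RuleStep G) π σ) : Just (FPT G S) π σ :=
  h.imp_step (fun _ _ h => Or.inl h)

theorem fpToFPT {G : List Rule} {S : List (List (Nm × Fm))} {π σ : List Fm}
    (h : Just (FP G) π σ) : Just (FPT G S) π σ :=
  h.imp_step (fun _ _ h => h.imp id Or.inl)

theorem tableProof_just {F : List Rule} {S : List (List (Nm × Fm))} {A : Fm} {τ : List Fm}
    (h : TableProof F S A τ) (π : List Fm) : Just (FPT (GG F) S) π τ ∧ A ∈ τ := by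
  refine ⟨?_, List.mem_of_getLast? h.2⟩
  have h1 : Deriv (FPT (GG F) S) τ := h.1.imp_step (by
    rintro σ B (h | h)
    · exact Or.inl (ruleStep_GG h)
    · exact Or.inr h)
  exact h1.just (mono_FPT _ _) π

/-- From lines that are justified with the rules `GG F` to a proof. -/
theorem exists_finT {F : List Rule} (hF : IsFrege F) (S : List (List (Nm × Fm))) :
    ∃ h : List Fm → List Fm, Poly h ∧ ∀ (B : Fm) (σ : List Fm), Just (FPT (GG F) S) [] σ →
      B ∈ σ → TableProof F S B (fin1 h B σ) := by
  obtain ⟨h, hp, hh⟩ := robust hF (GG_sound hF)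
  refine ⟨h, hp, ?_⟩
  intro B σ hσ hB
  have hD := deriv_app (mono_FPT (GG F) S) Deriv.nil hσ
  obtain ⟨d1, d2⟩ := deriv_cutAt hD (mem_app.2 (Or.inr hB))
  obtain ⟨h1, h2, -⟩ := hh (PT2 S) (mono_PT2 S) _ _ d1 d2
  exact ⟨h1, h2⟩

/-! ### Soundness -/

theorem table_sound {F : List Rule} (hF : IsFrege F) {S : List (List (Nm × Fm))} {π : List Fm}
    (h : Deriv (FPT F S) π) : ∀ C ∈ π, ∀ v : Nm → Prop, C.Eval v := by
  induction h with
  | nil => simp
  | snoc _ h2 ih =>
    intro C hC v
    rcases List.mem_append.1 hC with hC | hC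
    · exact ih C hC v
    · rw [List.mem_singleton] at hC
      subst hC
      rcases h2 with ⟨r, hr, s, h3, rfl⟩ | ⟨D, hD, ρ, -, rfl⟩ | ⟨D, hD, t, -, rfl⟩
      · rw [Fm.eval_subst]
        refine hF.sound r hr _ ?_
        intro P hP
        rw [← Fm.eval_subst]
        exact ih _ (h3 P hP) v
      · rw [Fm.eval_subst]
        exact ih D hD _
      · rw [substTable_eq, Fm.eval_subst]
        exact ih D hD _

/-! ### The variables of a table and their values -/

/-- The variables of a table, without repetitions. -/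
def tdom (t : List (Nm × Fm)) : List Nm := dd (t.map Prod.fst ++ t.flatMap (fun p => nms p.2))

theorem tdom_nodup (t : List (Nm × Fm)) : (tdom t).Nodup := nodup_dd _

theorem mem_tdom {t : List (Nm × Fm)} {x : Nm} :
    x ∈ tdom t ↔ x ∈ t.map Prod.fst ∨ ∃ p ∈ t, x ∈ p.2.vars := by
  unfold tdom
  rw [mem_dd, List.mem_append, List.mem_flatMap]
  simp only [mem_nms]

theorem tsub_not_tdom {t : List (Nm × Fm)} {x : Nm} (h : x ∉ tdom t) : tsub t x = var x :=
  tsub_of_not_mem (fun hx => h (mem_tdom.2 (Or.inl hx)))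

theorem vars_tsub_tdom {t : List (Nm × Fm)} {x y : Nm} (hx : x ∈ tdom t)
    (hy : y ∈ (tsub t x).vars) : y ∈ tdom t := by
  rcases tsub_cases t x with h | ⟨p, hp, h2⟩
  · rw [h] at hy
    simp only [Fm.vars, Set.mem_singleton_iff] at hy
    rw [hy]; exact hx
  · rw [h2] at hy
    exact mem_tdom.2 (Or.inr ⟨p, hp, hy⟩)

/-- The value of a formula. -/
def evb (v : Nm → Bool) : Fm → Bool
  | .var w => v w
  | .neg A => !evb v A
  | .and A B => evb v A && evb v B
  | .or A B => evb v A || evb v B
  | .imp A B => !evb v A || evb v B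

theorem evb_iff (v : Nm → Bool) (A : Fm) : A.Eval (fun x => v x = true) ↔ evb v A = true := by
  induction A with
  | var w => rfl
  | neg A ih => simp [Fm.Eval, evb, ih]
  | and A B ihA ihB => simp [Fm.Eval, evb, ihA, ihB]
  | or A B ihA ihB => simp [Fm.Eval, evb, ihA, ihB]
  | imp A B ihA ihB =>
    simp only [Fm.Eval, evb, ihA, ihB]
    cases evb v A <;> cases evb v B <;> simp

/-- The assignment after the substitution. -/
def aft (t : List (Nm × Fm)) (v : Nm → Bool) (x : Nm) : Bool := evb v (tsub t x)

/-- The variables of the table that have the value `b`. -/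
def vl (b : Bool) (t : List (Nm × Fm)) (v : Nm → Bool) : List Nm :=
  (tdom t).filter (fun x => v x == b)

theorem mem_vl {b : Bool} {t : List (Nm × Fm)} {v : Nm → Bool} {x : Nm} :
    x ∈ vl b t v ↔ x ∈ tdom t ∧ v x = b := by
  simp [vl]

theorem vl_nodup (b : Bool) (t : List (Nm × Fm)) (v : Nm → Bool) : (vl b t v).Nodup :=
  (tdom_nodup t).filter _

theorem vl_add (t : List (Nm × Fm)) (v : Nm → Bool) :
    (vl true t v).length + (vl false t v).length = (tdom t).length := by
  unfold vl
  generalize tdom t = l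
  induction l with
  | nil => rfl
  | cons a l ih =>
    rw [List.filter_cons, List.filter_cons]
    cases v a <;> simp only [beq_self_eq_true, if_true, List.length_cons, Bool.true_eq_false,
      Bool.false_eq_true, if_false, beq_iff_eq] <;> omega

/-- The substitution gives more variables the value `b`, for some assignment. -/
def Moves (b : Bool) (t : List (Nm × Fm)) : Prop :=
  ∃ v : Nm → Bool, (vl b t v).length < (vl b t (aft t v)).length

theorem weight_eq (t : List (Nm × Fm)) (v : Nm → Bool) :
    weight t (fun x => v x = true) = (vl true t v).length := by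
  unfold weight
  have h : {x : List Bool | (x ∈ t.map Prod.fst ∨ ∃ p ∈ t, x ∈ p.2.vars) ∧ v x = true} =
      ((vl true t v).toFinset : Set Nm) := by
    ext x
    rw [Set.mem_ofPred_eq, ← mem_tdom, List.coe_toFinset, Set.mem_ofPred_eq, mem_vl]
  rw [h, Set.ncard_coe_finset, List.toFinset_card_of_nodup (vl_nodup _ _ _)]

theorem after_eq (t : List (Nm × Fm)) (v : Nm → Bool) :
    after t (fun x => v x = true) = fun x => aft t v x = true := by
  funext x
  unfold after aft
  rw [substTable_eq]
  exact propext (evb_iff v _)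

theorem exists_bool (v : Nm → Prop) : ∃ w : Nm → Bool, v = fun x => w x = true := by
  classical
  exact ⟨fun x => decide (v x), by funext x; simp⟩

theorem raises_iff (t : List (Nm × Fm)) : Raises t ↔ Moves true t := by
  constructor
  · rintro ⟨v, hv⟩
    obtain ⟨w, rfl⟩ := exists_bool v
    rw [after_eq, weight_eq, weight_eq] at hv
    exact ⟨w, hv⟩
  · rintro ⟨w, hw⟩
    refine ⟨fun x => w x = true, ?_⟩
    rw [after_eq, weight_eq, weight_eq]
    exact hw

theorem lowers_iff (t : List (Nm × Fm)) : Lowers t ↔ Moves false t := by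
  have key : ∀ w : Nm → Bool, (vl true t (aft t w)).length < (vl true t w).length ↔
      (vl false t w).length < (vl false t (aft t w)).length := by
    intro w
    have h1 := vl_add t w
    have h2 := vl_add t (aft t w)
    omega
  constructor
  · rintro ⟨v, hv⟩
    obtain ⟨w, rfl⟩ := exists_bool v
    rw [after_eq, weight_eq, weight_eq] at hv
    exact ⟨w, (key w).1 hv⟩
  · rintro ⟨w, hw⟩
    refine ⟨fun x => w x = true, ?_⟩
    rw [after_eq, weight_eq, weight_eq]
    exact (key w).2 hw

theorem le_of_not_raises {t : List (Nm × Fm)} (h : ¬ Raises t) (v : Nm → Bool) :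
    (vl true t (aft t v)).length ≤ (vl true t v).length := by
  by_contra hc
  exact h ((raises_iff t).2 ⟨v, by omega⟩)

end Pool.Agent.H.MP_0447ec_lc.PS
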