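import Pool.Agent.H.MP_0447ec_lc.LV.Defs

/-!
# Frege systems with the permutation rule and finitely many substitution rules
-/

namespace Pool.Agent.H.MP_0447ec_lc.PS

open Fm

/-- The rules given by a list `S` of substitutions (tables): from a line `C` derive the result of
one of these substitutions in `C`. -/
def TableStep (S : List (List (List Bool × Fm))) (π : List Fm) (B : Fm) : Prop :=
  ∃ C ∈ π, ∃ t ∈ S, B = C.substTable t

/-- `π` is a proof of `A` in `F` with the permutation rule and the rules given by `S`. -/
def TableProof (F : List Rule) (S : List (List (List Bool × Fm))) (A : Fm) (π : List Fm) : Prop :=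
  Deriv (fun σ B => RuleStep F σ B ∨ PermStep σ B ∨ TableStep S σ B) π ∧ π.getLast? = some A

/-- The number of variables occurring in the table `t` that are true under `v`. -/
noncomputable def weight (t : List (List Bool × Fm)) (v : List Bool → Prop) : ℕ :=
  {x : List Bool | (x ∈ t.map Prod.fst ∨ ∃ p ∈ t, x ∈ p.2.vars) ∧ v x}.ncard

/-- The assignment that gives every variable the value, under `v`, of the formula that the
substitution `t` puts in its place. -/
def after (t : List (List Bool × Fm)) (v : List Bool → Prop) : List Bool → Prop :=
  fun x => ((var x).substTable t).Eval v

/-- The substitution raises the number of true variables of some assignment. -/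
def Raises (t : List (List Bool × Fm)) : Prop :=
  ∃ v : List Bool → Prop, weight t v < weight t (after t v)

/-- The substitution lowers the number of true variables of some assignment. -/
def Lowers (t : List (List Bool × Fm)) : Prop :=
  ∃ v : List Bool → Prop, weight t (after t v) < weight t v

end Pool.Agent.H.MP_0447ec_lc.PS
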