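import Pool.Agent.H.MP_0447ec_lc.DY.Base

/-!
# The dual of the rules given by tables
-/

namespace Pool.Agent.H.MP_0447ec_lc.PS

open Fm Pool.Agent.H.MP_0447ec_lc.PT

/-- The dual substitution: all variables are negated before and after. -/
def dualT (t : List (Nm × Fm)) : List (Nm × Fm) := t.map (fun p => (p.1, neg (p.2.subst flp)))

theorem dualT_cons (p : Nm × Fm) (t : List (Nm × Fm)) :
    dualT (p :: t) = (p.1, neg (p.2.subst flp)) :: dualT t := rfl

theorem mem_tdom_dualT {t : List (Nm × Fm)} {x : Nm} : x ∈ tdom (dualT t) ↔ x ∈ tdom t := by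
  rw [mem_tdom, mem_tdom]
  have h1 : (dualT t).map Prod.fst = t.map Prod.fst := by
    unfold dualT
    rw [List.map_map]
    rfl
  rw [h1]
  refine or_congr_right ?_
  unfold dualT
  constructor
  · rintro ⟨p, hp, hx⟩
    obtain ⟨q, hq, rfl⟩ := List.mem_map.1 hp
    exact ⟨q, hq, vars_flp.1 hx⟩
  · rintro ⟨q, hq, hx⟩
    exact ⟨_, List.mem_map_of_mem (f := fun p : Nm × Fm => (p.1, neg (p.2.subst flp))) hq,
      vars_flp.2 hx⟩

theorem tsub_dualT (t : List (Nm × Fm)) (x : Nm) :
    tsub (dualT t) x = neg ((tsub t x).subst flp) ∨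
      (tsub (dualT t) x = var x ∧ tsub t x = var x) := by
  induction t with
  | nil => exact Or.inr ⟨rfl, rfl⟩
  | cons p t ih =>
    rw [dualT_cons, tsub_cons, tsub_cons]
    by_cases h : p.1 = x
    · left
      rw [if_pos h, if_pos h]
    · rw [if_neg h, if_neg h]
      exact ih

theorem evb_flp (v : Nm → Bool) (A : Fm) : evb v (A.subst flp) = evb (fun x => !v x) A := by
  induction A with
  | var w => rfl
  | neg A ih => simp only [Fm.subst, evb, ih]
  | and A B ihA ihB => simp only [Fm.subst, evb, ihA, ihB]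
  | or A B ihA ihB => simp only [Fm.subst, evb, ihA, ihB]
  | imp A B ihA ihB => simp only [Fm.subst, evb, ihA, ihB]

theorem aft_dualT (t : List (Nm × Fm)) (v : Nm → Bool) (x : Nm) :
    aft (dualT t) v x = !aft t (fun y => !v y) x := by
  unfold aft
  rcases tsub_dualT t x with h | ⟨h1, h2⟩
  · rw [h]
    simp only [evb, evb_flp]
  · rw [h1, h2]
    simp [evb]

theorem length_vl_dualT {t : List (Nm × Fm)} {v w : Nm → Bool} (h : ∀ x, v x = !w x) :
    (vl true (dualT t) v).length = (vl false t w).length := by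
  refine ((List.perm_ext_iff_of_nodup (vl_nodup _ _ _) (vl_nodup _ _ _)).2 ?_).length_eq
  intro x
  rw [mem_vl, mem_vl, mem_tdom_dualT, h x]
  refine and_congr_right (fun _ => ?_)
  cases w x <;> simp

theorem lowers_dualT {t : List (Nm × Fm)} (h : ¬ Lowers t) : ¬ Raises (dualT t) := by
  rw [raises_iff]
  rw [lowers_iff] at h
  rintro ⟨v, hv⟩
  apply h
  refine ⟨fun y => !v y, ?_⟩
  rwa [length_vl_dualT (w := fun y => !v y) (by simp),
    length_vl_dualT (w := aft t (fun y => !v y)) (aft_dualT t v)] at hv

/-! ### Translation of the steps -/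

/-- The hypothesis that is used. -/
def dlH : Fm := ct [] true

/-- The equivalences for one variable. -/
def dlE (Y : Fm) : List Fm :=
  [imp dlH (Fm.iff Y Y), imp dlH (Fm.iff (neg Y) (neg Y)), imp dlH (Fm.iff (neg (neg Y)) Y)]

/-- The result of the dual rule. -/
def dlX (t : List (Nm × Fm)) (C : Fm) : Fm := (C.subst flp).subst (tsub (dualT t))

theorem dlX_eq (t : List (Nm × Fm)) (C : Fm) :
    dlX t C = C.subst (fun x => neg (tsub (dualT t) x)) := by
  unfold dlX
  rw [Fm.subst_subst]
  rfl

/-- The lines for one step. -/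
def dlOne (t : List (Nm × Fm)) (C B : Fm) : List Fm :=
  if B = C.subst (tsub t) then
    [dlX t C] ++ ((nms C).flatMap (fun x => dlE ((tsub t x).subst flp)) ++
      (replL dlH C (fun x => neg (tsub (dualT t) x)) (fun x => (tsub t x).subst flp) ++
        [imp dlH (dlX t C), imp dlH (B.subst flp)]))
  else []

theorem dlE_just {G : List Rule} (hG : Rich G) (Y : Fm) (π : List Fm) :
    Just (RuleStep G) π (dlE Y) :=
  ⟨Or.inr hG.iffRefl, Or.inr hG.iffRefl, Or.inr (hG.iffNeg' (by simp)), trivial⟩

theorem dlEs_just {G : List Rule} (hG : Rich G) (g : Nm → Fm) (l : List Nm) :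
    ∀ π : List Fm, Just (RuleStep G) π (l.flatMap (fun x => dlE (g x))) := by
  induction l with
  | nil => intro _; trivial
  | cons x l ih =>
    intro π
    rw [List.flatMap_cons]
    exact Just.append (dlE_just hG _ _) (ih _)

theorem dlOne_just {G : List Rule} (hG : Rich G) {S : List (List (Nm × Fm))}
    {t : List (Nm × Fm)} (ht : t ∈ S) {C B : Fm} {π : List Fm} (hC : C.subst flp ∈ π) :
    Just (FPT G (S.map dualT)) π (dlOne t C B) ∧
      (B = C.subst (tsub t) → imp dlH (B.subst flp) ∈ dlOne t C B) := by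
  unfold dlOne
  by_cases h : B = C.subst (tsub t)
  · rw [if_pos h]
    refine ⟨?_, fun _ => by simp⟩
    refine Just.append ?_ ?_
    · refine ⟨Or.inr (Or.inr (Or.inr ⟨_, hC, dualT t, List.mem_map_of_mem ht, ?_⟩)), trivial⟩
      rw [substTable_eq]
      rfl
    · apply toFPT
      refine Just.append (dlEs_just hG _ _ _) ?_
      obtain ⟨j, m⟩ := replL_just hG dlH (fun x => neg (tsub (dualT t) x))
        (fun x => (tsub t x).subst flp) C
        (π ++ [dlX t C] ++ (nms C).flatMap (fun x => dlE ((tsub t x).subst flp))) (by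
          intro x hx
          refine List.mem_append_right _ (List.mem_flatMap.2 ⟨x, mem_nms.2 hx, ?_⟩)
          show imp dlH (Fm.iff (neg (tsub (dualT t) x)) ((tsub t x).subst flp)) ∈ _
          rcases tsub_dualT t x with h1 | ⟨h1, h2⟩
          · rw [h1]
            simp [dlE]
          · rw [h1, h2]
            simp [dlE, Fm.subst, flp])
      rw [← dlX_eq, ← Fm.subst_subst, ← h] at m
      refine Just.append j ⟨Or.inr (hG.weaken ?_), Or.inr (hG.iffMp (A := dlX t C) ?_ ?_),
        trivial⟩
      · simp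
      · simp
      · exact List.mem_append_left _ (List.mem_append_right _ m)
  · rw [if_neg h]
    exact ⟨trivial, fun hc => absurd hc h⟩

/-- The lines for all steps. -/
def dlB (S : List (List (Nm × Fm))) (π : List Fm) : List Fm :=
  (splits π).flatMap (fun p =>
    S.flatMap (fun t => p.1.flatMap (fun C => dlOne t C p.2)) ++ [p.2.subst flp])

theorem dlB_snoc (S : List (List (Nm × Fm))) (π : List Fm) (B : Fm) :
    dlB S (π ++ [B]) =
      dlB S π ++ (S.flatMap (fun t => π.flatMap (fun C => dlOne t C B)) ++ [B.subst flp]) := by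
  unfold dlB
  rw [splits_snoc, List.flatMap_append]
  simp

theorem just_flatMap' {β : Type} {Step : List Fm → Fm → Prop} (f : β → List Fm) :
    ∀ (l : List β) (π : List Fm),
      (∀ x ∈ l, ∀ σ : List Fm, (∀ D ∈ π, D ∈ σ) → Just Step σ (f x)) →
      Just Step π (l.flatMap f) := by
  intro l
  induction l with
  | nil => intro _ _; trivial
  | cons x l ih =>
    intro π h
    rw [List.flatMap_cons]
    refine Just.append (h x (by simp) π (fun _ hD => hD)) (ih _ ?_)
    intro y hy σ hσ
    exact h y (List.mem_cons_of_mem _ hy) σ (fun D hD => hσ D (List.mem_append_left _ hD))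

theorem dlB_just {G : List Rule} (hG : Rich G) {S : List (List (Nm × Fm))} {π : List Fm}
    (h : Deriv (FPT G S) π) :
    Just (FPT G (S.map dualT)) [] (dlB S π) ∧ ∀ B ∈ π, B.subst flp ∈ dlB S π := by
  induction h with
  | nil => exact ⟨trivial, by simp⟩
  | @snoc σ B _ h2 ih =>
    obtain ⟨i1, i2⟩ := ih
    rw [dlB_snoc]
    refine ⟨Just.append i1 (Just.append ?_ ⟨?_, trivial⟩), ?_⟩
    · apply just_flatMap'
      intro t ht ρ hρ
      apply just_flatMap'
      intro C hC ρ' hρ'
      exact (dlOne_just hG ht (hρ' _ (hρ _ (List.mem_append_right _ (i2 C hC))))).1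
    · rcases h2 with h2 | h2 | ⟨C, hC, t, ht, h2⟩
      · right; left
        refine mono_ruleStep _ _ _ _ ?_ (ruleStep_subst h2 flp)
        intro D hD
        obtain ⟨D', hD', rfl⟩ := List.mem_map.1 hD
        exact List.mem_append_left _ (List.mem_append_right _ (i2 D' hD'))
      · right; right; left
        refine mono_permStep _ _ _ ?_ (permStep_flp h2)
        intro D hD
        obtain ⟨D', hD', rfl⟩ := List.mem_map.1 hD
        exact List.mem_append_left _ (List.mem_append_right _ (i2 D' hD'))
      · right; left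
        rw [substTable_eq] at h2
        refine hG.strip (H := var []) ?_
        have h3 := (dlOne_just hG ht (B := B) (π := dlB S σ) (i2 C hC)).2 h2
        refine List.mem_append_right _ (List.mem_flatMap.2 ⟨t, ht, List.mem_flatMap.2
          ⟨C, hC, h3⟩⟩)
    · intro D hD
      rcases List.mem_append.1 hD with hD | hD
      · exact List.mem_append_left _ (i2 D hD)
      · rw [List.mem_singleton] at hD
        subst hD
        exact List.mem_append_right _ (List.mem_append_right _ (by simp))

/-! ### Computability -/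

section

variable {α : Type} [Enc α]

theorem Poly.dlE {Y : α → Fm} (hY : Poly Y) : Poly (fun a => dlE (Y a)) := by
  unfold PS.dlE
  have h : Poly (fun _ : α => dlH) := PT.Poly.const _
  fun_prop

theorem Poly.dlX (t : List (Nm × Fm)) {C : α → Fm} (hC : Poly C) :
    Poly (fun a => dlX t (C a)) := by
  unfold PS.dlX
  exact Poly.substT (PT.Poly.const _) (Poly.flpSubst hC)

theorem Poly.dlOne (t : List (Nm × Fm)) {C B : α → Fm} (hC : Poly C) (hB : Poly B) :
    Poly (fun a => dlOne t (C a) (B a)) := by
  unfold PS.dlOne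
  have hH : Poly (fun _ : α => dlH) := PT.Poly.const _
  have hX := Poly.dlX t hC
  have hc : Poly (fun a => decide (B a = (C a).subst (PS.tsub t))) :=
    Poly.decEq hB (Poly.substT (PT.Poly.const _) hC)
  have h1 : Poly (fun p : α × Nm => (PS.tsub t p.2).subst flp) :=
    Poly.flpSubst (Poly.tsub (PT.Poly.const _) Poly.snd)
  have h2 : Poly (fun p : α × Nm => neg (PS.tsub (dualT t) p.2)) :=
    Poly.fmNeg (Poly.tsub (PT.Poly.const _) Poly.snd)
  have h3 : Poly (fun a => (PS.nms (C a)).flatMap
      (fun x => PS.dlE ((PS.tsub t x).subst flp))) :=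
    PT.Poly.flatMap (f := fun (_ : α) (x : Nm) => PS.dlE ((PS.tsub t x).subst flp))
      (Poly.dlE h1) (by fun_prop)
  have h4 : Poly (fun a => PS.replL dlH (C a) (fun x => neg (PS.tsub (dualT t) x))
      (fun x => (PS.tsub t x).subst flp)) :=
    Poly.replL (H := fun _ => dlH) (s := fun _ x => neg (PS.tsub (dualT t) x))
      (t := fun _ x => (PS.tsub t x).subst flp) hH hC h2 h1
  have h5 : Poly (fun a => [imp dlH (PS.dlX t (C a)), imp dlH ((B a).subst flp)]) := by
    fun_prop
  exact Poly.ite hc (Poly.append (Poly.lcons hX (PT.Poly.const [])) (Poly.append h3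
    (Poly.append h4 h5))) (PT.Poly.const [])

theorem Poly.dlB (S : List (List (Nm × Fm))) {π : α → List Fm} (hp : Poly π) :
    Poly (fun a => dlB S (π a)) := by
  unfold PS.dlB
  refine Poly.flatMap ?_ (by fun_prop)
  refine Poly.append (Poly.flatMapConst _ ?_) (by fun_prop)
  intro t
  refine Poly.flatMap ?_ (by fun_prop)
  exact Poly.dlOne t (by fun_prop) (by fun_prop)

end

theorem simulates_dual {F : List Rule} (hF : IsFrege F) {S : List (List (Nm × Fm))}
    (h : PSimulates (TableProof F S) (ExtProof F)) :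
    PSimulates (TableProof F (S.map dualT)) (ExtProof F) := by
  rw [psim_iff] at h ⊢
  obtain ⟨f, hf, hf'⟩ := h
  obtain ⟨h, hp, hh⟩ := exists_finT hF (S.map dualT)
  refine ⟨fun π => fin1 h (lastF π) (dlB S (f (frE π)) ++
    (li0 [] dlH (((lastF π).subst flp).subst flp) (lastF π) ++ [lastF π])), ?_, ?_⟩
  · have e1 : Poly (fun π : List Fm => f (frE π)) := Poly.comp hf poly_frE
    have e2 : Poly (fun π : List Fm => dlB S (f (frE π))) := Poly.dlB S e1
    have e3 : Poly (fun π : List Fm =>
        li0 [] dlH (((lastF π).subst flp).subst flp) (lastF π)) :=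
      Poly.li0 (PT.Poly.const _) (PT.Poly.const _) (by fun_prop) (by fun_prop)
    exact poly_fin1 hp (by fun_prop) (Poly.append e2 (Poly.append e3
      (Poly.lcons (by fun_prop) (PT.Poly.const []))))
  · intro A π hπ
    have hl : lastF π = A := lastF_eq hπ.2
    simp only [hl]
    have h1 := hf' _ _ (frE_spec hπ)
    have h2 : Deriv (FPT (GG F) S) (f (frE π)) := h1.1.imp_step (by
      rintro σ B (h | h)
      · exact Or.inl (ruleStep_GG h)
      · exact Or.inr h)
    obtain ⟨j1, m1⟩ := dlB_just (GG_rich F) h2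
    have m2 := m1 _ (List.mem_of_getLast? h1.2)
    obtain ⟨j3, m3⟩ := li0_just (GG_rich F) (d := []) (H := dlH)
      (A := (A.subst flp).subst flp) (B := A) (List.mem_append_right [] m2) (sm_flp_flp _ A)
    apply hh
    · refine Just.append j1 (Just.append (toFPT j3) ⟨Or.inr (Or.inl ?_), trivial⟩)
      exact (GG_rich F).strip (H := var []) (List.mem_append_right _ m3)
    · simp

end Pool.Agent.H.MP_0447ec_lc.PS
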