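import Pool.Agent.H.MP_0447ec_lc.DY.Ren
import Pool.Agent.H.MP_0447ec_lc.LV.Reg0

/-!
# The substitution rule under a hypothesis that makes enough variables equal to `b`
-/

namespace Pool.Agent.H.MP_0447ec_lc.PS

open Fm Pool.Agent.H.MP_0447ec_lc.PT

/-! ### Renaming of the names that occur -/

/-- Renaming of those names of the list that occur in the formula. -/
def renF (l : List (Nm × Nm)) (C : Fm) : List Fm :=
  renB (l.filter (fun p => decide (p.1 ∈ nms C)), C)

theorem poly_renF {α : Type} [Enc α] {l : α → List (Nm × Nm)} {C : α → Fm} (hl : Poly l)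
    (hC : Poly C) : Poly (fun a => renF (l a) (C a)) := by
  have h1 : Poly (fun a => (l a).filter (fun p => decide (p.1 ∈ nms (C a)))) :=
    PT.Poly.filter (f := fun (a : α) (p : Nm × Nm) => decide (p.1 ∈ nms (C a)))
      (by fun_prop) hl
  exact Poly.comp poly_renB (Poly.pair h1 hC)

theorem tsub_rnT_filter {l : List (Nm × Nm)} {f : Nm × Nm → Bool} {x : Nm}
    (h : ∀ p ∈ l, p.1 = x → f p = true) : tsub (rnT (l.filter f)) x = tsub (rnT l) x := by
  induction l with
  | nil => rfl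
  | cons p l ih =>
    have ih' := ih (fun q hq => h q (List.mem_cons_of_mem _ hq))
    rw [List.filter_cons, rnT_cons, tsub_cons]
    by_cases hp : p.1 = x
    · rw [if_pos (h p (by simp) hp), rnT_cons, tsub_cons, if_pos hp, if_pos hp]
    · rw [if_neg hp]
      split_ifs with h2
      · rw [rnT_cons, tsub_cons, if_neg hp, ih']
      · exact ih'

theorem renF_just {G : List Rule} (hG : Rich G) {C : Fm} {l : List (Nm × Nm)} {π : List Fm}
    (h1 : (l.map Prod.fst).Nodup) (h2 : (l.map Prod.snd).Nodup)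
    (h3 : ∀ y ∈ l.map Prod.snd, y ∉ C.vars ∧ y ∉ l.map Prod.fst) (hC : C ∈ π) :
    Just (FP G) π (renF l C) ∧ C.subst (tsub (rnT l)) ∈ renF l C := by
  have hs : (l.filter (fun p => decide (p.1 ∈ nms C))).Sublist l := List.filter_sublist
  obtain ⟨j, m⟩ := renB_just hG (C := C) (l := l.filter (fun p => decide (p.1 ∈ nms C)))
    (π := π) (h1.sublist (hs.map _)) (h2.sublist (hs.map _)) (by
      intro y hy
      have hy' := (hs.map Prod.snd).subset hy
      exact ⟨(h3 y hy').1, fun h => (h3 y hy').2 ((hs.map Prod.fst).subset h)⟩) (by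
      intro x hx
      obtain ⟨p, hp, rfl⟩ := List.mem_map.1 hx
      rw [List.mem_filter, decide_eq_true_iff] at hp
      exact mem_nms.1 hp.2) hC
  refine ⟨j, ?_⟩
  have e : C.subst (tsub ((l.filter (fun p => decide (p.1 ∈ nms C))).map
      (fun p => (p.1, var p.2)))) = C.subst (tsub (rnT l)) := by
    apply Fm.subst_congr
    intro x hx
    apply tsub_rnT_filter
    intro p _ hp
    rw [decide_eq_true_iff, hp]
    exact mem_nms.2 hx
  rw [← e]
  exact m

theorem lf_eval_congr {A : Fm} {v v' : Nm → Prop} (h : ∀ x ∈ A.vars, (v x ↔ v' x)) :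
    A.Eval v ↔ A.Eval v' := by
  induction A with
  | var w => exact h w rfl
  | neg A ih => simp only [Fm.Eval]; rw [ih h]
  | and A B ih1 ih2 =>
    simp only [Fm.Eval]
    rw [ih1 (fun x hx => h x (Or.inl hx)), ih2 (fun x hx => h x (Or.inr hx))]
  | or A B ih1 ih2 =>
    simp only [Fm.Eval]
    rw [ih1 (fun x hx => h x (Or.inl hx)), ih2 (fun x hx => h x (Or.inr hx))]
  | imp A B ih1 ih2 =>
    simp only [Fm.Eval]
    rw [ih1 (fun x hx => h x (Or.inl hx)), ih2 (fun x hx => h x (Or.inr hx))]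

theorem lf_litsOf (H : Fm) (ys : List Nm) (a : List Bool) :
    litsOf (lw H ys a) = ys.zip a ++ litsOf H := by
  unfold lw
  induction ys.zip a with
  | nil => rfl
  | cons p l ih =>
    rw [List.foldr_cons]
    have e : litsOf (Fm.and (lit p.1 p.2) (l.foldr (fun p X => Fm.and (lit p.1 p.2) X) H)) =
        litsOf (lit p.1 p.2) ++ litsOf (l.foldr (fun p X => Fm.and (lit p.1 p.2) X) H) := by
      simp [litsOf, ands, litOf]
    rw [e, ih]
    obtain ⟨y, b⟩ := p
    cases b <;> rfl

theorem lk_append_right {K K' : List (Nm × Bool)} {x : Nm} (h : ∀ p ∈ K, p.1 ≠ x) :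
    lk (K ++ K') x = lk K' x := by
  unfold lk
  rw [List.filter_append]
  have : K.filter (fun p => decide (p.1 = x)) = [] := by
    rw [List.filter_eq_nil_iff]
    intro p hp
    simpa using h p hp
  rw [this, List.nil_append]

theorem lk_append_left {K K' : List (Nm × Bool)} {x : Nm} {c : Bool} (h : lk K x = some c) :
    lk (K ++ K') x = some c := by
  unfold lk at h ⊢
  rw [List.filter_append, List.head?_append]
  rw [Option.map_eq_some_iff] at h ⊢
  obtain ⟨p, hp, rfl⟩ := h
  exact ⟨p, by rw [hp]; rfl, rfl⟩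

theorem sm_lit {K : List (Nm × Bool)} {x : Nm} {b c : Bool} (h : lk K x = some c) :
    sm K (lit x b) = (some (c == b), var []) := by
  cases b
  · show smN (smV K x) = _
    unfold smV
    rw [h]
    cases c <;> rfl
  · show smV K x = _
    unfold smV
    rw [h]
    cases c <;> rfl

section

variable (t : List (Nm × Fm)) (b : Bool) (v0 : Nm → Bool)

/-- The variables with the value `b` before the substitution. -/
def lfO : List Nm := vl b t v0

/-- The first variables with the value `b` after the substitution, one more than before. -/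
def lfI : List Nm := (vl b t (aft t v0)).take ((lfO t b v0).length + 1)

/-- The variables that do not have the value `b` before the substitution. -/
def lfE : List Nm := vl (!b) t v0

/-- A bound for the lengths of the names. -/
def lfN (u : Nm) (B : Fm) : ℕ := lenB [imp (lit u b) B] + (tdom t).flatten.length

/-- The first renaming. -/
def lfR1 (N : ℕ) (u : Nm) (B : Fm) : List (Nm × Nm) := (u :: dd (nms B)).map (fun x => (x, fn N 0 x))

/-- The second renaming. -/
def lfR2 (N : ℕ) (u : Nm) (as : List Nm) : List (Nm × Nm) :=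
  ((as ++ [u]).zip (lfI t b v0)).map (fun p => (fn N 0 p.1, p.2))

/-- The third renaming. -/
def lfR4 (N : ℕ) (as : List Nm) : List (Nm × Nm) :=
  ((lfO t b v0).zip as).map (fun p => (p.1, fn N 0 p.2)) ++
    (lfE t b v0).map (fun q => (q, fn N 1 q))

/-- The last renaming. -/
def lfR5 (N : ℕ) (B : Fm) : List (Nm × Nm) := (dd (nms B)).map (fun x => (fn N 0 x, x))

/-- The lines after the steps. -/
def lfL0 (u : Nm) (B : Fm) : Fm := imp (lit u b) B
/-- The line after the first renaming. -/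
def lfL1 (N : ℕ) (u : Nm) (B : Fm) : Fm := (lfL0 b u B).subst (tsub (rnT (lfR1 N u B)))
/-- The line after the second renaming. -/
def lfL2 (N : ℕ) (u : Nm) (B : Fm) (as : List Nm) : Fm :=
  (lfL1 b N u B).subst (tsub (rnT (lfR2 t b v0 N u as)))
/-- The line after the substitution. -/
def lfL3 (N : ℕ) (u : Nm) (B : Fm) (as : List Nm) : Fm :=
  (lfL2 t b v0 N u B as).subst (tsub t)
/-- The line after the third renaming. -/
def lfL4 (N : ℕ) (u : Nm) (B : Fm) (as : List Nm) : Fm :=
  (lfL3 t b v0 N u B as).subst (tsub (rnT (lfR4 t b v0 N as)))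
/-- The line after the last renaming. -/
def lfL5 (N : ℕ) (u : Nm) (B : Fm) (as : List Nm) : Fm :=
  (lfL4 t b v0 N u B as).subst (tsub (rnT (lfR5 N B)))

/-- The hypothesis on the new variables. -/
def lfH (N : ℕ) (H : Fm) (c : List Bool) : Fm := lw H ((lfE t b v0).map (fn N 1)) c

/-- The lines for one word. -/
def lfW (N : ℕ) (u : Nm) (B H : Fm) (as : List Nm) (c : List Bool) : List Fm :=
  li0 [] (lfH t b v0 N H c)
    (match ((lfE t b v0).zip c).find? (fun p => p.2 == b) with
      | none => lfL5 t b v0 N u B as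
      | some p => imp (lit (fn N 1 p.1) b) B) B

/-- All lines. -/
def lfAll (N : ℕ) (u : Nm) (B H : Fm) (as : List Nm) : List Fm :=
  renF (lfR1 N u B) (lfL0 b u B) ++ (renF (lfR2 t b v0 N u as) (lfL1 b N u B) ++
  ([lfL3 t b v0 N u B as] ++ (renF (lfR4 t b v0 N as) (lfL3 t b v0 N u B as) ++
  (renF (lfR5 N B) (lfL4 t b v0 N u B as) ++
  ((lfE t b v0).flatMap (fun q => renF [(u, fn N 1 q)] (lfL0 b u B)) ++
  ((words (lfE t b v0).length).flatMap (lfW t b v0 N u B H as) ++
  (splitL H B ((lfE t b v0).map (fn N 1)) (words (lfE t b v0).length) ++ [imp H B])))))))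

/-- What is assumed. -/
structure LfOk (N : ℕ) (u : Nm) (B : Fm) (as : List Nm) : Prop where
  hu : u ∉ B.vars
  hlen : as.length = (lfO t b v0).length
  hnd : as.Nodup
  has : ∀ a ∈ as, a ∈ B.vars
  hI : (lfI t b v0).length = (lfO t b v0).length + 1
  hNu : u.length < N
  hNB : ∀ x ∈ B.vars, x.length < N
  hNt : ∀ x ∈ tdom t, x.length < N

variable {t b v0}
variable {N : ℕ} {u : Nm} {B : Fm} {as : List Nm}

theorem lf_len {N k : ℕ} {x y : Nm} (h : y.length < N) : fn N k x ≠ y := by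
  rintro rfl
  have := fn_length N k x
  omega

theorem lf_inj {N k : ℕ} {x y : Nm} (h : fn N k x = fn N k y) : x = y := (fn_inj h).2

theorem lf_ne {N : ℕ} {x y : Nm} : fn N 0 x ≠ fn N 1 y := fun h => by
  have := (fn_inj h).1
  omega

theorem lfO_sub {x : Nm} (h : x ∈ lfO t b v0) : x ∈ tdom t := (mem_vl.1 h).1
theorem lfE_sub {x : Nm} (h : x ∈ lfE t b v0) : x ∈ tdom t := (mem_vl.1 h).1
theorem lfI_sub {x : Nm} (h : x ∈ lfI t b v0) : x ∈ tdom t ∧ aft t v0 x = b :=
  mem_vl.1 (List.mem_of_mem_take h)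

theorem lfI_nodup : (lfI t b v0).Nodup := (vl_nodup b t _).sublist (List.take_sublist _ _)

theorem lfOE {x : Nm} (h : x ∈ tdom t) : x ∈ lfO t b v0 ∨ x ∈ lfE t b v0 := by
  unfold lfO lfE
  rw [mem_vl, mem_vl]
  by_cases hx : v0 x = b
  · exact Or.inl ⟨h, hx⟩
  · exact Or.inr ⟨h, by cases b <;> simpa using hx⟩

namespace LfOk

variable (h : LfOk t b v0 N u B as)

include h

theorem fst2 : (lfR2 t b v0 N u as).map Prod.fst = (as ++ [u]).map (fn N 0) := by
  unfold lfR2
  rw [List.map_map]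
  have : (Prod.fst ∘ fun p : Nm × Nm => (fn N 0 p.1, p.2)) = (fn N 0) ∘ Prod.fst := rfl
  rw [this, ← List.map_map, List.map_fst_zip]
  rw [h.hI, List.length_append, h.hlen]
  simp

theorem snd2 : (lfR2 t b v0 N u as).map Prod.snd = lfI t b v0 := by
  unfold lfR2
  rw [List.map_map]
  have : (Prod.snd ∘ fun p : Nm × Nm => (fn N 0 p.1, p.2)) = Prod.snd := rfl
  rw [this, List.map_snd_zip]
  rw [h.hI, List.length_append, h.hlen]
  simp

theorem fst4 : (lfR4 t b v0 N as).map Prod.fst = lfO t b v0 ++ lfE t b v0 := by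
  unfold lfR4
  rw [List.map_append, List.map_map, List.map_map]
  have e1 : (Prod.fst ∘ fun p : Nm × Nm => (p.1, fn N 0 p.2)) = Prod.fst := rfl
  have e2 : (Prod.fst ∘ fun q : Nm => (q, fn N 1 q)) = id := rfl
  rw [e1, e2, List.map_id, List.map_fst_zip]
  exact h.hlen.ge

theorem snd4 : (lfR4 t b v0 N as).map Prod.snd = as.map (fn N 0) ++ (lfE t b v0).map (fn N 1) := by
  unfold lfR4
  rw [List.map_append, List.map_map, List.map_map]
  have e1 : (Prod.snd ∘ fun p : Nm × Nm => (p.1, fn N 0 p.2)) = (fn N 0) ∘ Prod.snd := rfl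
  have e2 : (Prod.snd ∘ fun q : Nm => (q, fn N 1 q)) = fn N 1 := rfl
  rw [e1, e2, ← List.map_map, List.map_snd_zip]
  exact h.hlen.le

end LfOk

theorem lf_fst1 : (lfR1 N u B).map Prod.fst = u :: dd (nms B) := by
  unfold lfR1
  rw [List.map_map]
  exact List.map_id _

theorem lf_snd1 : (lfR1 N u B).map Prod.snd = (u :: dd (nms B)).map (fn N 0) := by
  unfold lfR1
  rw [List.map_map]
  rfl

theorem lf_fst5 : (lfR5 N B).map Prod.fst = (dd (nms B)).map (fn N 0) := by
  unfold lfR5
  rw [List.map_map]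
  rfl

theorem lf_snd5 : (lfR5 N B).map Prod.snd = dd (nms B) := by
  unfold lfR5
  rw [List.map_map]
  exact List.map_id _

theorem mem_ddB {x : Nm} : x ∈ dd (nms B) ↔ x ∈ B.vars := by rw [mem_dd, mem_nms]

theorem vars_L0 {x : Nm} : x ∈ (lfL0 b u B).vars ↔ x = u ∨ x ∈ B.vars := by
  unfold lfL0
  cases b <;> simp [lit, Fm.vars]

namespace LfOk

variable (h : LfOk t b v0 N u B as)

include h

theorem nd1 : (u :: dd (nms B)).Nodup := by
  rw [List.nodup_cons]
  exact ⟨fun hc => h.hu (mem_ddB.1 hc), nodup_dd _⟩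

theorem len1 {x : Nm} (hx : x ∈ u :: dd (nms B)) : x.length < N := by
  rcases List.mem_cons.1 hx with rfl | hx
  · exact h.hNu
  · exact h.hNB _ (mem_ddB.1 hx)

theorem sub1 {x : Nm} (hx : x ∈ u :: dd (nms B)) :
    tsub (rnT (lfR1 N u B)) x = var (fn N 0 x) := by
  have h1 : (x, fn N 0 x) ∈ lfR1 N u B := List.mem_map_of_mem (f := fun x => (x, fn N 0 x)) hx
  exact tsub_rnT_mem (by rw [lf_fst1]; exact h.nd1) h1

theorem vars1 {x : Nm} (hx : x ∈ (lfL1 b N u B).vars) :
    ∃ y, (y = u ∨ y ∈ B.vars) ∧ x = fn N 0 y := by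
  unfold lfL1 at hx
  obtain ⟨w, hw, hx⟩ := vars_subst hx
  have hw' := vars_L0.1 hw
  rw [h.sub1 (by rw [List.mem_cons, mem_ddB]; exact hw')] at hx
  simp only [Fm.vars, Set.mem_singleton_iff] at hx
  exact ⟨w, hw', hx⟩

theorem nd2 : (as ++ [u]).Nodup := by
  rw [List.nodup_append]
  refine ⟨h.hnd, by simp, ?_⟩
  intro a ha c hc
  rw [List.mem_singleton] at hc
  subst hc
  rintro rfl
  exact h.hu (h.has _ ha)

theorem sub2 {p : Nm × Nm} (hp : p ∈ (as ++ [u]).zip (lfI t b v0)) :
    tsub (rnT (lfR2 t b v0 N u as)) (fn N 0 p.1) = var p.2 := by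
  have h1 : (fn N 0 p.1, p.2) ∈ lfR2 t b v0 N u as :=
    List.mem_map_of_mem (f := fun p : Nm × Nm => (fn N 0 p.1, p.2)) hp
  refine tsub_rnT_mem ?_ h1
  rw [h.fst2]
  exact h.nd2.map (fun _ _ e => lf_inj e)

theorem sub2' {x : Nm} (hx : x ∉ as ++ [u]) :
    tsub (rnT (lfR2 t b v0 N u as)) (fn N 0 x) = var (fn N 0 x) := by
  apply tsub_rnT_not
  rw [h.fst2]
  intro hc
  obtain ⟨y, hy, e⟩ := List.mem_map.1 hc
  rw [lf_inj e] at hy
  exact hx hy

theorem vars2 {x : Nm} (hx : x ∈ (lfL2 t b v0 N u B as).vars) :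
    x ∈ tdom t ∨ ∃ y ∈ B.vars, y ∉ as ∧ x = fn N 0 y := by
  unfold lfL2 at hx
  obtain ⟨w, hw, hx⟩ := vars_subst hx
  obtain ⟨y, hy, rfl⟩ := h.vars1 hw
  by_cases hy2 : y ∈ as ++ [u]
  · left
    obtain ⟨i, hi, rfl⟩ := List.getElem_of_mem hy2
    have hl : ((as ++ [u]).zip (lfI t b v0)).length = (as ++ [u]).length := by
      rw [List.length_zip, h.hI, List.length_append, h.hlen]
      simp
    have hp : ((as ++ [u])[i], (lfI t b v0)[i]'(by
        rw [h.hI]; rw [List.length_append, h.hlen] at hi; simpa using hi)) ∈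
        (as ++ [u]).zip (lfI t b v0) := by
      rw [List.mem_iff_getElem]
      exact ⟨i, by rw [hl]; exact hi, by simp⟩
    rw [h.sub2 hp] at hx
    simp only [Fm.vars, Set.mem_singleton_iff] at hx
    rw [hx]
    exact (lfI_sub (List.getElem_mem _)).1
  · right
    rw [h.sub2' hy2] at hx
    simp only [Fm.vars, Set.mem_singleton_iff] at hx
    rw [List.mem_append, List.mem_singleton, not_or] at hy2
    exact ⟨y, hy.resolve_left hy2.2, hy2.1, hx⟩

theorem sub3 {x : Nm} {k : ℕ} : tsub t (fn N k x) = var (fn N k x) := by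
  apply tsub_not_tdom
  intro hc
  exact lf_len (h.hNt _ hc) rfl

theorem vars3 {x : Nm} (hx : x ∈ (lfL3 t b v0 N u B as).vars) :
    x ∈ tdom t ∨ ∃ y ∈ B.vars, y ∉ as ∧ x = fn N 0 y := by
  unfold lfL3 at hx
  obtain ⟨w, hw, hx⟩ := vars_subst hx
  rcases h.vars2 hw with hw | ⟨y, hy, hy2, rfl⟩
  · exact Or.inl (vars_tsub_tdom hw hx)
  · rw [h.sub3] at hx
    simp only [Fm.vars, Set.mem_singleton_iff] at hx
    exact Or.inr ⟨y, hy, hy2, hx⟩

theorem nd4 : (lfO t b v0 ++ lfE t b v0).Nodup := by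
  rw [List.nodup_append]
  refine ⟨vl_nodup _ _ _, vl_nodup _ _ _, ?_⟩
  intro x hx y hy
  rintro rfl
  have h1 := (mem_vl.1 hx).2
  have h2 := (mem_vl.1 hy).2
  rw [h1] at h2
  cases b <;> simp at h2

theorem sub4 {p : Nm × Nm} (hp : p ∈ (lfO t b v0).zip as) :
    tsub (rnT (lfR4 t b v0 N as)) p.1 = var (fn N 0 p.2) := by
  have h1 : (p.1, fn N 0 p.2) ∈ lfR4 t b v0 N as := List.mem_append_left _
    (List.mem_map_of_mem (f := fun p : Nm × Nm => (p.1, fn N 0 p.2)) hp)
  refine tsub_rnT_mem ?_ h1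
  rw [h.fst4]
  exact h.nd4

theorem sub4E {q : Nm} (hq : q ∈ lfE t b v0) :
    tsub (rnT (lfR4 t b v0 N as)) q = var (fn N 1 q) := by
  have h1 : (q, fn N 1 q) ∈ lfR4 t b v0 N as := List.mem_append_right _
    (List.mem_map_of_mem (f := fun q : Nm => (q, fn N 1 q)) hq)
  refine tsub_rnT_mem ?_ h1
  rw [h.fst4]
  exact h.nd4

theorem sub4' {x : Nm} {k : ℕ} : tsub (rnT (lfR4 t b v0 N as)) (fn N k x) = var (fn N k x) := by
  apply tsub_rnT_not
  rw [h.fst4]
  intro hc
  rcases List.mem_append.1 hc with hc | hc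
  · exact lf_len (h.hNt _ (lfO_sub hc)) rfl
  · exact lf_len (h.hNt _ (lfE_sub hc)) rfl

theorem zipO {o : Nm} (ho : o ∈ lfO t b v0) : ∃ a ∈ as, (o, a) ∈ (lfO t b v0).zip as := by
  obtain ⟨i, hi, rfl⟩ := List.getElem_of_mem ho
  have hi' : i < as.length := by rw [h.hlen]; exact hi
  refine ⟨as[i], List.getElem_mem _, ?_⟩
  rw [List.mem_iff_getElem]
  exact ⟨i, by rw [List.length_zip]; omega, by simp⟩

theorem vars4 {x : Nm} (hx : x ∈ (lfL4 t b v0 N u B as).vars) :
    (∃ y ∈ B.vars, x = fn N 0 y) ∨ ∃ q, x = fn N 1 q := by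
  unfold lfL4 at hx
  obtain ⟨w, hw, hx⟩ := vars_subst hx
  rcases h.vars3 hw with hw | ⟨y, hy, hy2, rfl⟩
  · rcases lfOE (b := b) (v0 := v0) hw with ho | he
    · obtain ⟨a, ha, hp⟩ := h.zipO ho
      rw [h.sub4 hp] at hx
      simp only [Fm.vars, Set.mem_singleton_iff] at hx
      exact Or.inl ⟨a, h.has a ha, hx⟩
    · rw [h.sub4E he] at hx
      simp only [Fm.vars, Set.mem_singleton_iff] at hx
      exact Or.inr ⟨w, hx⟩
  · rw [h.sub4'] at hx
    simp only [Fm.vars, Set.mem_singleton_iff] at hx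
    exact Or.inl ⟨y, hy, hx⟩

omit h in
theorem sub5 {x : Nm} (hx : x ∈ B.vars) : tsub (rnT (lfR5 N B)) (fn N 0 x) = var x := by
  have h1 : (fn N 0 x, x) ∈ lfR5 N B :=
    List.mem_map_of_mem (f := fun x => (fn N 0 x, x)) (mem_ddB.2 hx)
  refine tsub_rnT_mem ?_ h1
  rw [lf_fst5]
  exact (nodup_dd _).map (fun _ _ e => lf_inj e)

omit h in
theorem sub5' {x : Nm} : tsub (rnT (lfR5 N B)) (fn N 1 x) = var (fn N 1 x) := by
  apply tsub_rnT_not
  rw [lf_fst5]
  intro hc
  obtain ⟨y, -, e⟩ := List.mem_map.1 hc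
  exact lf_ne e

/-! ### The steps -/

theorem just1 {G : List Rule} (hG : Rich G) {π : List Fm} (hm : lfL0 b u B ∈ π) :
    Just (FP G) π (renF (lfR1 N u B) (lfL0 b u B)) ∧
      lfL1 b N u B ∈ renF (lfR1 N u B) (lfL0 b u B) := by
  refine renF_just hG ?_ ?_ ?_ hm
  · rw [lf_fst1]; exact h.nd1
  · rw [lf_snd1]; exact h.nd1.map (fun _ _ e => lf_inj e)
  · rw [lf_snd1, lf_fst1]
    intro y hy
    obtain ⟨x, hx, rfl⟩ := List.mem_map.1 hy
    constructor
    · intro hc
      have := h.len1 (x := fn N 0 x) (by rw [List.mem_cons, mem_ddB]; exact vars_L0.1 hc)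
      exact lf_len this rfl
    · intro hc
      exact lf_len (h.len1 hc) rfl

theorem just2 {G : List Rule} (hG : Rich G) {π : List Fm} (hm : lfL1 b N u B ∈ π) :
    Just (FP G) π (renF (lfR2 t b v0 N u as) (lfL1 b N u B)) ∧
      lfL2 t b v0 N u B as ∈ renF (lfR2 t b v0 N u as) (lfL1 b N u B) := by
  refine renF_just hG ?_ ?_ ?_ hm
  · rw [h.fst2]; exact h.nd2.map (fun _ _ e => lf_inj e)
  · rw [h.snd2]; exact lfI_nodup
  · rw [h.snd2, h.fst2]
    intro y hy
    have hl := h.hNt _ (lfI_sub hy).1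
    constructor
    · intro hc
      obtain ⟨x, -, rfl⟩ := h.vars1 hc
      exact lf_len hl rfl
    · intro hc
      obtain ⟨x, -, rfl⟩ := List.mem_map.1 hc
      exact lf_len hl rfl

theorem just4 {G : List Rule} (hG : Rich G) {π : List Fm} (hm : lfL3 t b v0 N u B as ∈ π) :
    Just (FP G) π (renF (lfR4 t b v0 N as) (lfL3 t b v0 N u B as)) ∧
      lfL4 t b v0 N u B as ∈ renF (lfR4 t b v0 N as) (lfL3 t b v0 N u B as) := by
  refine renF_just hG ?_ ?_ ?_ hm
  · rw [h.fst4]; exact h.nd4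
  · rw [h.snd4, List.nodup_append]
    refine ⟨h.hnd.map (fun _ _ e => lf_inj e), (vl_nodup _ _ _).map (fun _ _ e => lf_inj e), ?_⟩
    intro x hx y hy
    obtain ⟨a, -, rfl⟩ := List.mem_map.1 hx
    obtain ⟨c, -, rfl⟩ := List.mem_map.1 hy
    exact lf_ne
  · rw [h.snd4, h.fst4]
    intro y hy
    have hlong : ∀ z : Nm, z.length < N → y ≠ z := by
      intro z hz
      rcases List.mem_append.1 hy with hy | hy
      · obtain ⟨a, -, rfl⟩ := List.mem_map.1 hy
        exact lf_len hz
      · obtain ⟨a, -, rfl⟩ := List.mem_map.1 hy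
        exact lf_len hz
    constructor
    · intro hc
      rcases h.vars3 hc with hc | ⟨x, hx, hx2, rfl⟩
      · exact hlong _ (h.hNt _ hc) rfl
      · rcases List.mem_append.1 hy with hy | hy
        · obtain ⟨a, ha, e⟩ := List.mem_map.1 hy
          rw [lf_inj e] at ha
          exact hx2 ha
        · obtain ⟨a, -, e⟩ := List.mem_map.1 hy
          exact lf_ne e.symm
    · intro hc
      rcases List.mem_append.1 hc with hc | hc
      · exact hlong _ (h.hNt _ (lfO_sub hc)) rfl
      · exact hlong _ (h.hNt _ (lfE_sub hc)) rfl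

theorem just5 {G : List Rule} (hG : Rich G) {π : List Fm} (hm : lfL4 t b v0 N u B as ∈ π) :
    Just (FP G) π (renF (lfR5 N B) (lfL4 t b v0 N u B as)) ∧
      lfL5 t b v0 N u B as ∈ renF (lfR5 N B) (lfL4 t b v0 N u B as) := by
  refine renF_just hG ?_ ?_ ?_ hm
  · rw [lf_fst5]; exact (nodup_dd _).map (fun _ _ e => lf_inj e)
  · rw [lf_snd5]; exact nodup_dd _
  · rw [lf_snd5, lf_fst5]
    intro y hy
    have hl := h.hNB _ (mem_ddB.1 hy)
    constructor
    · intro hc
      rcases h.vars4 hc with ⟨x, -, rfl⟩ | ⟨q, rfl⟩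
      · exact lf_len hl rfl
      · exact lf_len hl rfl
    · intro hc
      obtain ⟨x, -, rfl⟩ := List.mem_map.1 hc
      exact lf_len hl rfl

theorem just6 {G : List Rule} (hG : Rich G) {π : List Fm} (hm : lfL0 b u B ∈ π) (q : Nm) :
    Just (FP G) π (renF [(u, fn N 1 q)] (lfL0 b u B)) ∧
      imp (lit (fn N 1 q) b) B ∈ renF [(u, fn N 1 q)] (lfL0 b u B) := by
  obtain ⟨j, m⟩ := renF_just hG (C := lfL0 b u B) (l := [(u, fn N 1 q)]) (by simp) (by simp) (by
    intro y hy
    rw [List.map_singleton, List.mem_singleton] at hy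
    rw [List.map_singleton, List.mem_singleton]
    subst hy
    constructor
    · intro hc
      rcases vars_L0.1 hc with hc | hc
      · exact lf_len h.hNu hc
      · exact lf_len (h.hNB _ hc) rfl
    · exact lf_len h.hNu) hm
  refine ⟨j, ?_⟩
  have e1 : B.subst (tsub (rnT [(u, fn N 1 q)])) = B := by
    apply Fm.subst_eq_self
    intro x hx
    apply tsub_rnT_not
    rw [List.map_singleton, List.mem_singleton]
    rintro rfl
    exact h.hu hx
  have e2 : (lit u b).subst (tsub (rnT [(u, fn N 1 q)])) = lit (fn N 1 q) b := by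
    have e3 : tsub (rnT [(u, fn N 1 q)]) u = var (fn N 1 q) := by
      rw [rnT_cons, tsub_cons, if_pos rfl]
    cases b
    · show neg (tsub (rnT [(u, fn N 1 q)]) u) = _
      rw [e3]; rfl
    · show tsub (rnT [(u, fn N 1 q)]) u = _
      rw [e3]; rfl
  have e : (lfL0 b u B).subst (tsub (rnT [(u, fn N 1 q)])) = imp (lit (fn N 1 q) b) B := by
    show imp _ _ = _
    rw [e1, e2]
  rw [← e]
  exact m

/-! ### The simplification of the last line -/

/-- The last substitutions on the names of the table. -/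
theorem th3 {K : List (Nm × Bool)} (hK1 : ∀ a ∈ as, lk K a = some b)
    (hK2 : ∀ q ∈ lfE t b v0, lk K (fn N 1 q) = some (!b)) {y : Nm} (hy : y ∈ tdom t) :
    ∃ z, (tsub (rnT (lfR4 t b v0 N as)) y).subst (tsub (rnT (lfR5 N B))) = var z ∧
      lk K z = some (v0 y) := by
  rcases lfOE (b := b) (v0 := v0) hy with ho | he
  · obtain ⟨a, ha, hp⟩ := h.zipO ho
    refine ⟨a, ?_, ?_⟩
    · rw [h.sub4 hp]
      exact sub5 (h.has a ha)
    · rw [hK1 a ha, (mem_vl.1 ho).2]
  · refine ⟨fn N 1 y, ?_, ?_⟩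
    · rw [h.sub4E he]
      exact sub5'
    · rw [hK2 y he, (mem_vl.1 he).2]

theorem smI {K : List (Nm × Bool)} (hK1 : ∀ a ∈ as, lk K a = some b)
    (hK2 : ∀ q ∈ lfE t b v0, lk K (fn N 1 q) = some (!b)) {i : Nm} (hi : i ∈ lfI t b v0) :
    sm K ((tsub t i).subst (fun y => (tsub (rnT (lfR4 t b v0 N as)) y).subst
      (tsub (rnT (lfR5 N B))))) = (some b, var []) := by
  obtain ⟨h1, h2⟩ := lfI_sub hi
  have hd : ∀ y ∈ (tsub t i).vars, y ∈ tdom t := fun y hy => vars_tsub_tdom h1 hy
  apply sm_eval (v := fun x => (lk K x).getD false)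
  · intro x hx
    obtain ⟨y, hy, hx⟩ := vars_subst hx
    obtain ⟨z, hz, hz2⟩ := h.th3 hK1 hK2 (hd y hy)
    rw [hz] at hx
    simp only [Fm.vars, Set.mem_singleton_iff] at hx
    rw [hx, hz2]
    rfl
  · rw [Fm.eval_subst]
    have e : (tsub t i).Eval (fun n => ((tsub (rnT (lfR4 t b v0 N as)) n).subst
        (tsub (rnT (lfR5 N B)))).Eval (fun x => (lk K x).getD false = true)) ↔
        (tsub t i).Eval (fun n => v0 n = true) := by
      apply lf_eval_congr
      intro y hy
      obtain ⟨z, hz, hz2⟩ := h.th3 hK1 hK2 (hd y hy)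
      rw [hz]
      show ((lk K z).getD false = true) ↔ _
      rw [hz2]
      rfl
    rw [e, evb_iff]
    have : evb v0 (tsub t i) = b := h2
    rw [this]

theorem sub_u {K : List (Nm × Bool)} (hK1 : ∀ a ∈ as, lk K a = some b)
    (hK2 : ∀ q ∈ lfE t b v0, lk K (fn N 1 q) = some (!b)) :
    sm K (lfL5 t b v0 N u B as) = sm K B := by
  have e5 : lfL5 t b v0 N u B as = (lfL0 b u B).subst (fun x => (tsub (rnT (lfR1 N u B)) x).subst
      (fun y => (tsub (rnT (lfR2 t b v0 N u as)) y).subst (fun z => (tsub t z).subst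
      (fun w => (tsub (rnT (lfR4 t b v0 N as)) w).subst (tsub (rnT (lfR5 N B))))))) := by
    unfold lfL5 lfL4 lfL3 lfL2 lfL1
    rw [Fm.subst_subst, Fm.subst_subst, Fm.subst_subst, Fm.subst_subst]
  rw [e5]
  have key1 : ∀ x ∈ as ++ [u], ∃ i ∈ lfI t b v0, (tsub (rnT (lfR1 N u B)) x).subst
      (fun y => (tsub (rnT (lfR2 t b v0 N u as)) y).subst (fun z => (tsub t z).subst
      (fun w => (tsub (rnT (lfR4 t b v0 N as)) w).subst (tsub (rnT (lfR5 N B)))))) =
      (tsub t i).subst (fun y => (tsub (rnT (lfR4 t b v0 N as)) y).subst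
      (tsub (rnT (lfR5 N B)))) := by
    intro x hx
    have hx1 : x ∈ u :: dd (nms B) := by
      rcases List.mem_append.1 hx with hx | hx
      · exact List.mem_cons_of_mem _ (mem_ddB.2 (h.has x hx))
      · rw [List.mem_singleton] at hx
        rw [hx]
        exact List.mem_cons_self
    obtain ⟨i, hi, rfl⟩ := List.getElem_of_mem hx
    have hi' : i < (lfI t b v0).length := by
      rw [h.hI]
      rw [List.length_append, h.hlen, List.length_singleton] at hi
      exact hi
    have hp : ((as ++ [u])[i], (lfI t b v0)[i]) ∈ (as ++ [u]).zip (lfI t b v0) := by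
      rw [List.mem_iff_getElem]
      exact ⟨i, by rw [List.length_zip]; omega, List.getElem_zip⟩
    refine ⟨(lfI t b v0)[i], List.getElem_mem _, ?_⟩
    rw [h.sub1 hx1]
    show (tsub (rnT (lfR2 t b v0 N u as)) (fn N 0 (as ++ [u])[i])).subst _ = _
    rw [h.sub2 hp]
    rfl
  have key2 : ∀ x ∈ as ++ [u], sm K ((tsub (rnT (lfR1 N u B)) x).subst
      (fun y => (tsub (rnT (lfR2 t b v0 N u as)) y).subst (fun z => (tsub t z).subst
      (fun w => (tsub (rnT (lfR4 t b v0 N as)) w).subst (tsub (rnT (lfR5 N B))))))) =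
      (some b, var []) := by
    intro x hx
    obtain ⟨i, hi, e⟩ := key1 x hx
    rw [e]
    exact h.smI hK1 hK2 hi
  have key3 : ∀ x ∈ B.vars, x ∉ as → (tsub (rnT (lfR1 N u B)) x).subst
      (fun y => (tsub (rnT (lfR2 t b v0 N u as)) y).subst (fun z => (tsub t z).subst
      (fun w => (tsub (rnT (lfR4 t b v0 N as)) w).subst (tsub (rnT (lfR5 N B)))))) = var x := by
    intro x hx hxa
    rw [h.sub1 (List.mem_cons_of_mem _ (mem_ddB.2 hx))]
    show (tsub (rnT (lfR2 t b v0 N u as)) (fn N 0 x)).subst _ = _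
    rw [h.sub2' (by
      rw [List.mem_append, List.mem_singleton]
      rintro (hc | rfl)
      · exact hxa hc
      · exact h.hu hx)]
    show (tsub t (fn N 0 x)).subst _ = _
    rw [h.sub3]
    show (tsub (rnT (lfR4 t b v0 N as)) (fn N 0 x)).subst _ = _
    rw [h.sub4']
    exact sub5 hx
  show sm K (imp ((lit u b).subst _) (B.subst _)) = _
  rw [sm_imp]
  have e1 : sm K ((lit u b).subst (fun x => (tsub (rnT (lfR1 N u B)) x).subst
      (fun y => (tsub (rnT (lfR2 t b v0 N u as)) y).subst (fun z => (tsub t z).subst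
      (fun w => (tsub (rnT (lfR4 t b v0 N as)) w).subst (tsub (rnT (lfR5 N B)))))))) =
      (some true, var []) := by
    have hu := key2 u (by simp)
    cases b
    · exact congrArg smN hu
    · exact hu
  rw [e1]
  have e2 : sm K (B.subst (fun x => (tsub (rnT (lfR1 N u B)) x).subst
      (fun y => (tsub (rnT (lfR2 t b v0 N u as)) y).subst (fun z => (tsub t z).subst
      (fun w => (tsub (rnT (lfR4 t b v0 N as)) w).subst (tsub (rnT (lfR5 N B)))))))) =
      sm K (B.subst var) := by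
    apply sm_subst
    intro x hx
    by_cases hxa : x ∈ as
    · rw [key2 x (List.mem_append_left _ hxa)]
      show _ = smV K x
      unfold smV
      rw [hK1 x hxa]
    · rw [key3 x hx hxa]
  rw [e2, Fm.subst_var]
  rfl

end LfOk

end

/-! ### Computability -/

section

variable {α : Type} [Enc α]

theorem poly_rnT {l : α → List (Nm × Nm)} (hl : Poly l) : Poly (fun a => rnT (l a)) := by
  unfold rnT
  exact PT.Poly.map (f := fun (_ : α) (p : Nm × Nm) => (p.1, var p.2)) (by fun_prop) hl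

theorem poly_rnSub {l : α → List (Nm × Nm)} {C : α → Fm} (hl : Poly l) (hC : Poly C) :
    Poly (fun a => (C a).subst (tsub (rnT (l a)))) := Poly.tsubst (poly_rnT hl) hC

variable {N : α → ℕ} {u : α → Nm} {B H : α → Fm} {as : α → List Nm}

theorem poly_lfN (t : List (Nm × Fm)) (b : Bool) (hu : Poly u) (hB : Poly B) :
    Poly (fun a => lfN t b (u a) (B a)) := by
  unfold lfN
  have h1 : Poly (fun a => imp (lit (u a) b) (B a)) :=
    Poly.fmImp (Poly.lit hu (PT.Poly.const b)) hB
  exact PT.Poly.add (Poly.lenB (Poly.lcons h1 (PT.Poly.const []))) (PT.Poly.const _)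

theorem poly_mapfn {l : α → List Nm} (k : ℕ) (hN : Poly N) (hl : Poly l) :
    Poly (fun a => (l a).map (fn (N a) k)) := by
  have h0 : Poly (fun p : α × Nm => N p.1) := Poly.comp hN PT.Poly.fst
  exact PT.Poly.map (f := fun (a : α) (x : Nm) => fn (N a) k x)
    (Poly.fn h0 (PT.Poly.const k) PT.Poly.snd) hl

theorem poly_lfR1 (hN : Poly N) (hu : Poly u) (hB : Poly B) :
    Poly (fun a => lfR1 (N a) (u a) (B a)) := by
  unfold lfR1
  have h0 : Poly (fun p : α × Nm => N p.1) := Poly.comp hN PT.Poly.fst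
  exact PT.Poly.map (f := fun (a : α) (x : Nm) => (x, fn (N a) 0 x))
    (PT.Poly.pair PT.Poly.snd (Poly.fn h0 (PT.Poly.const 0) PT.Poly.snd)) (by fun_prop)

theorem poly_lfR2 (t : List (Nm × Fm)) (b : Bool) (v0 : Nm → Bool) (hN : Poly N) (hu : Poly u)
    (ha : Poly as) : Poly (fun a => lfR2 t b v0 (N a) (u a) (as a)) := by
  unfold lfR2
  have h0 : Poly (fun p : α × (Nm × Nm) => N p.1) := Poly.comp hN PT.Poly.fst
  have h1 : Poly (fun a => as a ++ [u a]) := by fun_prop
  have h2 : Poly (fun _ : α => lfI t b v0) := PT.Poly.const _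
  exact PT.Poly.map (f := fun (a : α) (p : Nm × Nm) => (fn (N a) 0 p.1, p.2))
    (PT.Poly.pair (Poly.fn h0 (PT.Poly.const 0) (by fun_prop)) (by fun_prop)) (Poly.zip h1 h2)

theorem poly_lfR4 (t : List (Nm × Fm)) (b : Bool) (v0 : Nm → Bool) (hN : Poly N)
    (ha : Poly as) : Poly (fun a => lfR4 t b v0 (N a) (as a)) := by
  unfold lfR4
  have h0 : Poly (fun p : α × (Nm × Nm) => N p.1) := Poly.comp hN PT.Poly.fst
  have h0' : Poly (fun p : α × Nm => N p.1) := Poly.comp hN PT.Poly.fst
  have h2 : Poly (fun _ : α => lfO t b v0) := PT.Poly.const _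
  have h3 : Poly (fun _ : α => lfE t b v0) := PT.Poly.const _
  refine Poly.append ?_ ?_
  · exact PT.Poly.map (f := fun (a : α) (p : Nm × Nm) => (p.1, fn (N a) 0 p.2))
      (PT.Poly.pair (by fun_prop) (Poly.fn h0 (PT.Poly.const 0) (by fun_prop))) (Poly.zip h2 ha)
  · exact PT.Poly.map (f := fun (a : α) (q : Nm) => (q, fn (N a) 1 q))
      (PT.Poly.pair PT.Poly.snd (Poly.fn h0' (PT.Poly.const 1) PT.Poly.snd)) h3

theorem poly_lfR5 (hN : Poly N) (hB : Poly B) : Poly (fun a => lfR5 (N a) (B a)) := by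
  unfold lfR5
  have h0 : Poly (fun p : α × Nm => N p.1) := Poly.comp hN PT.Poly.fst
  exact PT.Poly.map (f := fun (a : α) (x : Nm) => (fn (N a) 0 x, x))
    (PT.Poly.pair (Poly.fn h0 (PT.Poly.const 0) PT.Poly.snd) PT.Poly.snd) (by fun_prop)

theorem poly_lfL0 (b : Bool) (hu : Poly u) (hB : Poly B) :
    Poly (fun a => lfL0 b (u a) (B a)) := by
  unfold lfL0
  exact Poly.fmImp (Poly.lit hu (PT.Poly.const b)) hB

theorem poly_lfL1 (b : Bool) (hN : Poly N) (hu : Poly u) (hB : Poly B) :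
    Poly (fun a => lfL1 b (N a) (u a) (B a)) := by
  unfold lfL1
  exact poly_rnSub (poly_lfR1 hN hu hB) (poly_lfL0 b hu hB)

theorem poly_lfL2 (t : List (Nm × Fm)) (b : Bool) (v0 : Nm → Bool) (hN : Poly N) (hu : Poly u)
    (hB : Poly B) (ha : Poly as) : Poly (fun a => lfL2 t b v0 (N a) (u a) (B a) (as a)) := by
  unfold lfL2
  exact poly_rnSub (poly_lfR2 t b v0 hN hu ha) (poly_lfL1 b hN hu hB)

theorem poly_lfL3 (t : List (Nm × Fm)) (b : Bool) (v0 : Nm → Bool) (hN : Poly N) (hu : Poly u)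
    (hB : Poly B) (ha : Poly as) : Poly (fun a => lfL3 t b v0 (N a) (u a) (B a) (as a)) := by
  unfold lfL3
  exact Poly.tsubst (PT.Poly.const t) (poly_lfL2 t b v0 hN hu hB ha)

theorem poly_lfL4 (t : List (Nm × Fm)) (b : Bool) (v0 : Nm → Bool) (hN : Poly N) (hu : Poly u)
    (hB : Poly B) (ha : Poly as) : Poly (fun a => lfL4 t b v0 (N a) (u a) (B a) (as a)) := by
  unfold lfL4
  exact poly_rnSub (poly_lfR4 t b v0 hN ha) (poly_lfL3 t b v0 hN hu hB ha)

theorem poly_lfL5 (t : List (Nm × Fm)) (b : Bool) (v0 : Nm → Bool) (hN : Poly N) (hu : Poly u)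
    (hB : Poly B) (ha : Poly as) : Poly (fun a => lfL5 t b v0 (N a) (u a) (B a) (as a)) := by
  unfold lfL5
  exact poly_rnSub (poly_lfR5 hN hB) (poly_lfL4 t b v0 hN hu hB ha)

theorem poly_lfH (t : List (Nm × Fm)) (b : Bool) (v0 : Nm → Bool) (c : List Bool) (hN : Poly N)
    (hH : Poly H) : Poly (fun a => lfH t b v0 (N a) (H a) c) := by
  unfold lfH
  have h3 : Poly (fun _ : α => lfE t b v0) := PT.Poly.const _
  exact Poly.lw hH (poly_mapfn 1 hN h3) (PT.Poly.const c)

theorem poly_lfW (t : List (Nm × Fm)) (b : Bool) (v0 : Nm → Bool) (c : List Bool) (hN : Poly N)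
    (hu : Poly u) (hB : Poly B) (hH : Poly H) (ha : Poly as) :
    Poly (fun a => lfW t b v0 (N a) (u a) (B a) (H a) (as a) c) := by
  unfold lfW
  cases ((lfE t b v0).zip c).find? (fun p => p.2 == b) with
  | none =>
    exact Poly.li0 (PT.Poly.const []) (poly_lfH t b v0 c hN hH) (poly_lfL5 t b v0 hN hu hB ha) hB
  | some p =>
    exact Poly.li0 (PT.Poly.const []) (poly_lfH t b v0 c hN hH)
      (Poly.fmImp (Poly.lit (Poly.fn hN (PT.Poly.const 1) (PT.Poly.const p.1))
        (PT.Poly.const b)) hB) hB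

theorem poly_lfAll (t : List (Nm × Fm)) (b : Bool) (v0 : Nm → Bool) (hN : Poly N)
    (hu : Poly u) (hB : Poly B) (hH : Poly H) (ha : Poly as) :
    Poly (fun a => lfAll t b v0 (N a) (u a) (B a) (H a) (as a)) := by
  unfold lfAll
  refine Poly.append (poly_renF (poly_lfR1 hN hu hB) (poly_lfL0 b hu hB)) ?_
  refine Poly.append (poly_renF (poly_lfR2 t b v0 hN hu ha) (poly_lfL1 b hN hu hB)) ?_
  refine Poly.append (Poly.lcons (poly_lfL3 t b v0 hN hu hB ha) (PT.Poly.const [])) ?_
  refine Poly.append (poly_renF (poly_lfR4 t b v0 hN ha) (poly_lfL3 t b v0 hN hu hB ha)) ?_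
  refine Poly.append (poly_renF (poly_lfR5 hN hB) (poly_lfL4 t b v0 hN hu hB ha)) ?_
  refine Poly.append (Poly.flatMapConst _ (fun q => poly_renF (Poly.lcons (PT.Poly.pair hu
    (Poly.fn hN (PT.Poly.const 1) (PT.Poly.const q))) (PT.Poly.const [])) (poly_lfL0 b hu hB))) ?_
  refine Poly.append (Poly.flatMapConst _ (fun c => poly_lfW t b v0 c hN hu hB hH ha)) ?_
  have h3 : Poly (fun _ : α => lfE t b v0) := PT.Poly.const _
  exact Poly.append (Poly.splitL hH hB (poly_mapfn 1 hN h3) (PT.Poly.const _))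
    (Poly.lcons (Poly.fmImp hH hB) (PT.Poly.const []))

end

theorem leaf_main {S : List (List (Nm × Fm))} {t : List (Nm × Fm)} (ht : t ∈ S) {b : Bool}
    (hm : Moves b t) : ∃ (w : ℕ) (e : (Nm × Fm) × Fm × List Nm → List Fm), Poly e ∧
    ∀ (G : List Rule), Rich G → ∀ (u : Nm) (B H : Fm) (as : List Nm) (π : List Fm),
      u ∉ B.vars → as.length = w → as.Nodup → (∀ a ∈ as, a ∈ B.vars ∧ (a, b) ∈ litsOf H) →
      (∀ p ∈ litsOf H, p.1 ∈ B.vars ∧ lk (litsOf H) p.1 = some p.2) →
      imp (lit u b) B ∈ π →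
      Just (FPT G S) π (e ((u, B), H, as)) ∧ imp H B ∈ e ((u, B), H, as) := by
  obtain ⟨v0, hv0⟩ := hm
  refine ⟨(lfO t b v0).length, fun x => lfAll t b v0 (lfN t b x.1.1 x.1.2) x.1.1 x.1.2 x.2.1 x.2.2,
    ?_, ?_⟩
  · exact poly_lfAll t b v0 (poly_lfN t b (by fun_prop) (by fun_prop)) (by fun_prop)
      (by fun_prop) (by fun_prop) (by fun_prop)
  · intro G hG u B H as π hu hlen hnd has hH hπ
    have hok : LfOk t b v0 (lfN t b u B) u B as := by
      refine ⟨hu, hlen, hnd, fun a ha => (has a ha).1, ?_, ?_, ?_, ?_⟩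
      · unfold lfI
        rw [List.length_take]
        unfold lfO at *
        omega
      · unfold lfN
        have := lenB_spec (π := [imp (lit u b) B]) (B := imp (lit u b) B) (by simp)
          (x := u) (vars_L0.2 (Or.inl rfl))
        omega
      · intro x hx
        unfold lfN
        have := lenB_spec (π := [imp (lit u b) B]) (B := imp (lit u b) B) (by simp)
          (x := x) (vars_L0.2 (Or.inr hx))
        omega
      · intro x hx
        have h2 : x.length ≤ (tdom t).flatten.length := by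
          rw [List.length_flatten]
          exact List.single_le_sum (by simp) _ (List.mem_map_of_mem hx)
        unfold lfN
        have : 0 < lenB [imp (lit u b) B] := by unfold lenB; omega
        omega
    set N := lfN t b u B with hN
    show Just (FPT G S) π (lfAll t b v0 N u B H as) ∧ imp H B ∈ lfAll t b v0 N u B H as
    have hlong : ∀ q : Nm, fn N 1 q ∉ B.vars := fun q hc => lf_len (hok.hNB _ hc) rfl
    -- the values of the literals
    have hk1 : ∀ (c : List Bool), ∀ a ∈ as, lk (litsOf (lfH t b v0 N H c)) a = some b := by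
      intro c a ha
      unfold lfH
      rw [lf_litsOf, lk_append_right]
      · exact (hH _ (has a ha).2).2
      · intro p hp hc
        obtain ⟨q, -, hq⟩ := List.mem_map.1 (List.of_mem_zip hp).1
        have h3 : fn N 1 q = a := hq.trans hc
        exact hlong q (by rw [h3]; exact (has a ha).1)
    have hk2 : ∀ (c : List Bool) (p : Nm × Bool), p ∈ (lfE t b v0).zip c →
        lk (litsOf (lfH t b v0 N H c)) (fn N 1 p.1) = some p.2 := by
      intro c p hp
      unfold lfH
      rw [lf_litsOf]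
      apply lk_append_left
      have hp' : (fn N 1 p.1, p.2) ∈ ((lfE t b v0).map (fn N 1)).zip c := by
        rw [List.zip_map_left]
        exact List.mem_map_of_mem (f := Prod.map (fn N 1) id) hp
      exact lk_zip ((vl_nodup _ _ _).map (fun _ _ e => lf_inj e)) hp'
    refine ⟨?_, by simp [lfAll]⟩
    unfold lfAll
    have hG' : Mono (FPT G S) := mono_FPT G S
    obtain ⟨j1, m1⟩ := hok.just1 hG hπ
    refine Just.append (fpToFPT j1) ?_
    obtain ⟨j2, m2⟩ := hok.just2 hG (List.mem_append_right π m1)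
    refine Just.append (fpToFPT j2) ?_
    refine Just.append ⟨Or.inr (Or.inr (Or.inr ⟨_, List.mem_append_right _ m2, t, ht, ?_⟩)),
      trivial⟩ ?_
    · rw [substTable_eq]
      rfl
    obtain ⟨j4, m4⟩ := hok.just4 hG (List.mem_append_right (π ++ renF (lfR1 N u B) (lfL0 b u B) ++
      renF (lfR2 t b v0 N u as) (lfL1 b N u B)) (List.mem_singleton.2 rfl))
    refine Just.append (fpToFPT j4) ?_
    obtain ⟨j5, m5⟩ := hok.just5 hG (List.mem_append_right (π ++ renF (lfR1 N u B) (lfL0 b u B) ++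
      renF (lfR2 t b v0 N u as) (lfL1 b N u B) ++ [lfL3 t b v0 N u B as]) m4)
    refine Just.append (fpToFPT j5) ?_
    have hL5 := List.mem_append_right (π ++ renF (lfR1 N u B) (lfL0 b u B) ++
      renF (lfR2 t b v0 N u as) (lfL1 b N u B) ++ [lfL3 t b v0 N u B as] ++
      renF (lfR4 t b v0 N as) (lfL3 t b v0 N u B as)) m5
    have hL0 : lfL0 b u B ∈ π ++ renF (lfR1 N u B) (lfL0 b u B) ++
      renF (lfR2 t b v0 N u as) (lfL1 b N u B) ++ [lfL3 t b v0 N u B as] ++
      renF (lfR4 t b v0 N as) (lfL3 t b v0 N u B as) ++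
      renF (lfR5 N B) (lfL4 t b v0 N u B as) := by
      simp only [List.mem_append]
      exact Or.inl (Or.inl (Or.inl (Or.inl (Or.inl hπ))))
    generalize π ++ renF (lfR1 N u B) (lfL0 b u B) ++
      renF (lfR2 t b v0 N u as) (lfL1 b N u B) ++ [lfL3 t b v0 N u B as] ++
      renF (lfR4 t b v0 N as) (lfL3 t b v0 N u B as) ++
      renF (lfR5 N B) (lfL4 t b v0 N u B as) = σ at hL5 hL0
    refine Just.append (Just.flatMap hG' _ _ _ (fun q _ => fpToFPT (hok.just6 hG hL0 q).1)) ?_
    have hq : ∀ q ∈ lfE t b v0, imp (lit (fn N 1 q) b) B ∈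
        (lfE t b v0).flatMap (fun q => renF [(u, fn N 1 q)] (lfL0 b u B)) := fun q hq =>
      List.mem_flatMap.2 ⟨q, hq, (hok.just6 hG hL0 q).2⟩
    have hw : ∀ c ∈ words (lfE t b v0).length,
        Just (FPT G S) (σ ++ (lfE t b v0).flatMap (fun q => renF [(u, fn N 1 q)] (lfL0 b u B)))
          (lfW t b v0 N u B H as c) ∧ imp (lfH t b v0 N H c) B ∈ lfW t b v0 N u B H as c := by
      intro c hc
      have hcl : c.length = (lfE t b v0).length := mem_words.1 hc
      unfold lfW
      split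
      · rename_i hnone
        have hall : ∀ q ∈ lfE t b v0, lk (litsOf (lfH t b v0 N H c)) (fn N 1 q) = some (!b) := by
          intro q hq
          obtain ⟨i, hi, rfl⟩ := List.getElem_of_mem hq
          have hp : ((lfE t b v0)[i], (c)[i]'(by omega)) ∈ (lfE t b v0).zip c := by
            rw [List.mem_iff_getElem]
            exact ⟨i, by rw [List.length_zip]; omega, by simp⟩
          have h1 := hk2 c _ hp
          have h2 := List.find?_eq_none.1 hnone _ hp
          simp only [beq_iff_eq] at h2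
          rw [h1]
          congr 1
          simp only
          revert h2
          generalize (c)[i]'(by omega) = e
          cases e <;> cases b <;> simp
        obtain ⟨j, m⟩ := li0_just hG (d := []) (H := lfH t b v0 N H c)
          (List.mem_append_left _ hL5) (hok.sub_u (hk1 c) hall)
        exact ⟨toFPT j, m⟩
      · rename_i p hsome
        have hp := List.mem_of_find?_eq_some hsome
        have hpb := List.find?_some hsome
        have h1 := hk2 c p hp
        have hpE := (List.of_mem_zip hp).1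
        have hb : p.2 = b := by simpa using hpb
        obtain ⟨j, m⟩ := li0_just hG (d := []) (H := lfH t b v0 N H c)
          (A := imp (lit (fn N 1 p.1) b) B) (B := B)
          (List.mem_append_right _ (hq p.1 hpE)) (by
            rw [sm_imp, sm_lit h1, hb]
            simp [smImp])
        exact ⟨toFPT j, m⟩
    refine Just.append (Just.flatMap hG' _ _ _ (fun c hc => (hw c hc).1)) ?_
    obtain ⟨j, m⟩ := splitL_just hG (H := H) (A := B) (ys := (lfE t b v0).map (fn N 1))
      (W := words (lfE t b v0).length) (π := σ ++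
        (lfE t b v0).flatMap (fun q => renF [(u, fn N 1 q)] (lfL0 b u B)) ++
        (words (lfE t b v0).length).flatMap (lfW t b v0 N u B H as)) (by
        intro w
        rw [mem_words, List.length_map]) (by
        intro w hw'
        refine List.mem_append_right _ (List.mem_flatMap.2 ⟨w, hw', (hw w hw').2⟩))
    exact Just.append (toFPT j) ⟨Or.inl m, trivial⟩

end Pool.Agent.H.MP_0447ec_lc.PS
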