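import Pool.Agent.H.MP_0447ec_lc.DY.Base

/-!
# Renaming of variables to new names, by transpositions
-/

namespace Pool.Agent.H.MP_0447ec_lc.PS

open Fm Pool.Agent.H.MP_0447ec_lc.PT

/-- The table of a renaming. -/
def rnT (l : List (Nm × Nm)) : List (Nm × Fm) := l.map (fun p => (p.1, var p.2))

/-- The lines for all pairs of the list. -/
def renB (a : List (Nm × Nm) × Fm) : List Fm :=
  (sp [] a.1).flatMap (fun p =>
    [imp (imp (var p.2.1.2) (var p.2.1.2)) (a.2.subst (tsub (rnT p.1))),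
     imp (imp (var p.2.1.1) (var p.2.1.1)) (a.2.subst (tsub (rnT (p.1 ++ [p.2.1])))),
     a.2.subst (tsub (rnT (p.1 ++ [p.2.1])))]) ++
  [a.2.subst (tsub (rnT a.1))]

theorem rnT_append (l l' : List (Nm × Nm)) : rnT (l ++ l') = rnT l ++ rnT l' := by simp [rnT]

theorem rnT_fst (l : List (Nm × Nm)) : (rnT l).map Prod.fst = l.map Prod.fst := by
  simp [rnT, Function.comp_def]

theorem rnT_cons (p : Nm × Nm) (l : List (Nm × Nm)) : rnT (p :: l) = (p.1, var p.2) :: rnT l :=
  rfl

/-- A value of a renaming. -/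
theorem tsub_rnT_mem {l : List (Nm × Nm)} (h : (l.map Prod.fst).Nodup) {p : Nm × Nm}
    (hp : p ∈ l) : tsub (rnT l) p.1 = var p.2 := by
  induction l with
  | nil => simp at hp
  | cons q l ih =>
    rw [rnT_cons, tsub_cons]
    rw [List.map_cons, List.nodup_cons] at h
    rcases List.mem_cons.1 hp with rfl | hp
    · simp
    · rw [if_neg, ih h.2 hp]
      intro hq
      apply h.1
      rw [hq]
      exact List.mem_map_of_mem hp

theorem tsub_rnT_not {l : List (Nm × Nm)} {x : Nm} (h : x ∉ l.map Prod.fst) :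
    tsub (rnT l) x = var x := by
  apply tsub_of_not_mem
  rwa [rnT_fst]

theorem ry_tsub_left {t1 t2 : List (Nm × Fm)} {x : Nm} (h : x ∈ t1.map Prod.fst) :
    tsub (t1 ++ t2) x = tsub t1 x := by
  induction t1 with
  | nil => simp at h
  | cons p t1 ih =>
    rw [List.cons_append, tsub_cons, tsub_cons]
    by_cases hp : p.1 = x
    · rw [if_pos hp, if_pos hp]
    · rw [if_neg hp, if_neg hp]
      refine ih ?_
      rw [List.map_cons, List.mem_cons] at h
      exact h.resolve_left (fun e => hp e.symm)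

theorem ry_tsub_right {t1 t2 : List (Nm × Fm)} {x : Nm} (h : x ∉ t1.map Prod.fst) :
    tsub (t1 ++ t2) x = tsub t2 x := by
  induction t1 with
  | nil => rfl
  | cons p t1 ih =>
    rw [List.map_cons, List.mem_cons, not_or] at h
    rw [List.cons_append, tsub_cons, if_neg (fun e => h.1 e.symm)]
    exact ih h.2

theorem poly_renB : Poly renB := by
  have h1 : ∀ {α : Type} [Enc α] {l : α → List (Nm × Nm)}, Poly l → Poly (fun a => rnT (l a)) := by
    intro α _ l hl
    unfold rnT
    exact PT.Poly.map (f := fun (_ : α) (p : Nm × Nm) => (p.1, var p.2)) (by fun_prop) hl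
  unfold renB
  have h2 : Poly (fun p : (List (Nm × Nm) × Fm) × (List (Nm × Nm) × (Nm × Nm) × List (Nm × Nm)) =>
      p.1.2.subst (tsub (rnT p.2.1))) := Poly.tsubst (h1 (by fun_prop)) (by fun_prop)
  have h3 : Poly (fun p : (List (Nm × Nm) × Fm) × (List (Nm × Nm) × (Nm × Nm) × List (Nm × Nm)) =>
      p.1.2.subst (tsub (rnT (p.2.1 ++ [p.2.2.1])))) :=
    Poly.tsubst (h1 (by fun_prop)) (by fun_prop)
  refine Poly.append (Poly.flatMap (f := fun (a : List (Nm × Nm) × Fm)
    (p : List (Nm × Nm) × (Nm × Nm) × List (Nm × Nm)) =>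
    [imp (imp (var p.2.1.2) (var p.2.1.2)) (a.2.subst (tsub (rnT p.1))),
     imp (imp (var p.2.1.1) (var p.2.1.1)) (a.2.subst (tsub (rnT (p.1 ++ [p.2.1])))),
     a.2.subst (tsub (rnT (p.1 ++ [p.2.1])))]) ?_ (by fun_prop)) ?_
  · exact Poly.lcons (Poly.fmImp (by fun_prop) h2) (Poly.lcons (Poly.fmImp (by fun_prop) h3)
      (Poly.lcons h3 (PT.Poly.const [])))
  · exact Poly.lcons (Poly.tsubst (h1 (by fun_prop)) (by fun_prop)) (PT.Poly.const [])

/-- One more pair of a renaming is a transposition. -/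
theorem rn_swap {C : Fm} {pre : List (Nm × Nm)} {x y : Nm} (hx : x ∉ pre.map Prod.fst)
    (hy : y ∉ C.vars) (hx2 : x ∉ pre.map Prod.snd) (hy2 : y ∉ pre.map Prod.snd) :
    (C.subst (tsub (rnT pre))).subst (fun w => var (Equiv.swap x y w)) =
      C.subst (tsub (rnT (pre ++ [(x, y)]))) := by
  rw [Fm.subst_subst]
  apply Fm.subst_congr
  intro z hz
  by_cases h : z ∈ pre.map Prod.fst
  · have h1 : tsub (rnT (pre ++ [(x, y)])) z = tsub (rnT pre) z := by
      rw [rnT_append]
      exact ry_tsub_left (by rwa [rnT_fst])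
    rw [h1]
    rcases tsub_cases (rnT pre) z with h2 | ⟨p, hp, h2⟩
    · rw [h2]
      show var (Equiv.swap x y z) = var z
      rw [Equiv.swap_apply_of_ne_of_ne]
      · rintro rfl; exact hx h
      · rintro rfl; exact hy hz
    · rw [h2]
      obtain ⟨q, hq, rfl⟩ := List.mem_map.1 hp
      show var (Equiv.swap x y q.2) = var q.2
      have h3 : q.2 ∈ pre.map Prod.snd := List.mem_map_of_mem hq
      rw [Equiv.swap_apply_of_ne_of_ne]
      · rintro rfl; exact hx2 h3
      · rintro rfl; exact hy2 h3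
  · rw [tsub_rnT_not h, rnT_append]
    have h1 : tsub (rnT pre ++ rnT [(x, y)]) z = tsub (rnT [(x, y)]) z :=
      ry_tsub_right (by rwa [rnT_fst])
    rw [h1]
    show var (Equiv.swap x y z) = tsub (rnT [(x, y)]) z
    rw [rnT_cons, tsub_cons]
    by_cases hzx : z = x
    · subst hzx
      simp
    · rw [if_neg (fun h => hzx h.symm)]
      rw [Equiv.swap_apply_of_ne_of_ne hzx (by rintro rfl; exact hy hz)]
      rfl

theorem renB_aux {G : List Rule} (hG : Rich G) {C : Fm} : ∀ (t pre : List (Nm × Nm))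
    (π : List Fm), ((pre ++ t).map Prod.fst).Nodup → ((pre ++ t).map Prod.snd).Nodup →
    (∀ y ∈ (pre ++ t).map Prod.snd, y ∉ C.vars ∧ y ∉ (pre ++ t).map Prod.fst) →
    (∀ x ∈ (pre ++ t).map Prod.fst, x ∈ C.vars) → C.subst (tsub (rnT pre)) ∈ π →
    Just (FP G) π ((sp pre t).flatMap (fun p =>
    [imp (imp (var p.2.1.2) (var p.2.1.2)) (C.subst (tsub (rnT p.1))),
     imp (imp (var p.2.1.1) (var p.2.1.1)) (C.subst (tsub (rnT (p.1 ++ [p.2.1])))),
     C.subst (tsub (rnT (p.1 ++ [p.2.1])))])) ∧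
    C.subst (tsub (rnT (pre ++ t))) ∈ π ++ (sp pre t).flatMap (fun p =>
    [imp (imp (var p.2.1.2) (var p.2.1.2)) (C.subst (tsub (rnT p.1))),
     imp (imp (var p.2.1.1) (var p.2.1.1)) (C.subst (tsub (rnT (p.1 ++ [p.2.1])))),
     C.subst (tsub (rnT (p.1 ++ [p.2.1])))]) := by
  intro t
  induction t with
  | nil =>
    intro pre π _ _ _ _ h
    refine ⟨trivial, ?_⟩
    rw [List.append_nil, sp, List.flatMap_nil, List.append_nil]
    exact h
  | cons e t ih =>
    intro pre π h1 h2 h3 h4 h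
    obtain ⟨x, y⟩ := e
    have hn1 : x ∉ pre.map Prod.fst := by
      rw [List.map_append, List.nodup_append] at h1
      intro hx
      exact h1.2.2 x hx x (by simp) rfl
    have hn2 : y ∉ pre.map Prod.snd := by
      rw [List.map_append, List.nodup_append] at h2
      intro hy
      exact h2.2.2 y hy y (by simp) rfl
    have hyC : y ∉ C.vars := (h3 y (by simp)).1
    have hyf : y ∉ (pre ++ (x, y) :: t).map Prod.fst := (h3 y (by simp)).2
    have hxs : x ∉ pre.map Prod.snd := by
      intro hx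
      exact (h3 x (by rw [List.map_append]; exact List.mem_append_left _ hx)).2 (by simp)
    have hxC : x ∈ C.vars := h4 x (by simp)
    have hxy : x ≠ y := by rintro rfl; exact hyC hxC
    have hs := rn_swap (C := C) hn1 hyC hxs hn2
    rw [sp, List.flatMap_cons]
    have hxD : x ∈ (C.subst (tsub (rnT pre))).vars :=
      vars_subst_of_mem hxC (by rw [tsub_rnT_not hn1]; rfl)
    have j : Just (FP G) π [imp (imp (var y) (var y)) (C.subst (tsub (rnT pre))),
        imp (imp (var x) (var x)) (C.subst (tsub (rnT (pre ++ [(x, y)])))),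
        C.subst (tsub (rnT (pre ++ [(x, y)])))] := by
      refine ⟨Or.inr (Or.inl (hG.weaken h)), Or.inr (Or.inr ⟨_, List.mem_append_right _
        (List.mem_singleton.2 rfl), Equiv.swap x y, ?_, ?_⟩), Or.inr (Or.inl (hG.strip
        (H := var x) (by simp))), trivial⟩
      · intro w hw
        rw [Equiv.swap_apply_of_ne_of_ne]
        · rintro rfl; exact hw (Or.inr hxD)
        · rintro rfl; exact hw (Or.inl (Or.inl rfl))
      · show _ = imp (imp (var (Equiv.swap x y y)) (var (Equiv.swap x y y)))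
          ((C.subst (tsub (rnT pre))).subst (fun w => var (Equiv.swap x y w)))
        rw [Equiv.swap_apply_right, hs]
    have e1 : pre ++ (x, y) :: t = (pre ++ [(x, y)]) ++ t := by simp
    rw [e1] at h1 h2 h3 h4 ⊢
    obtain ⟨j2, m2⟩ := ih (pre ++ [(x, y)]) (π ++ _) h1 h2 h3 h4
      (List.mem_append_right π (by simp : C.subst (tsub (rnT (pre ++ [(x, y)]))) ∈
        [imp (imp (var y) (var y)) (C.subst (tsub (rnT pre))),
        imp (imp (var x) (var x)) (C.subst (tsub (rnT (pre ++ [(x, y)])))),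
        C.subst (tsub (rnT (pre ++ [(x, y)])))]))
    refine ⟨Just.append j j2, ?_⟩
    rw [← List.append_assoc]
    exact m2

theorem renB_just {G : List Rule} (hG : Rich G) {C : Fm} {l : List (Nm × Nm)} {π : List Fm}
    (h1 : (l.map Prod.fst).Nodup) (h2 : (l.map Prod.snd).Nodup)
    (h3 : ∀ y ∈ l.map Prod.snd, y ∉ C.vars ∧ y ∉ l.map Prod.fst)
    (h4 : ∀ x ∈ l.map Prod.fst, x ∈ C.vars) (hC : C ∈ π) :
    Just (FP G) π (renB (l, C)) ∧
      C.subst (tsub (l.map (fun p => (p.1, var p.2)))) ∈ renB (l, C) := by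
  obtain ⟨j, m⟩ := renB_aux hG l [] π h1 h2 h3 h4 (by
    show C.subst (tsub []) ∈ π
    rw [Fm.subst_eq_self (fun x _ => tsub_nil x)]
    exact hC)
  exact ⟨Just.append j ⟨Or.inl m, trivial⟩, List.mem_append_right _ (List.mem_singleton.2 rfl)⟩

end Pool.Agent.H.MP_0447ec_lc.PS
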