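import Pool.Agent.H.MP_0447ec_lc.DY.Low
import Pool.Agent.H.MP_0447ec_lc.DY.Ren
import Pool.Agent.H.MP_0447ec_lc.DY.Leaf

/-!
# The rules given by tables simulate extended Frege if they raise and lower weights
-/

namespace Pool.Agent.H.MP_0447ec_lc.PS

open Fm Pool.Agent.H.MP_0447ec_lc.PT

theorem elim_tab {S : List (List (Nm × Fm))} {t : List (Nm × Fm)} (ht : t ∈ S) {b : Bool}
    (hm : Moves b t) : ∃ e : Nm × Fm → List Fm, Poly e ∧
    ∀ (G : List Rule), Rich G → ∀ (u : Nm) (B : Fm) (π : List Fm), (∀ v, B.Eval v) →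
      u ∉ B.vars → imp (lit u b) B ∈ π →
      Just (FPT G S) π (e (u, B)) ∧ B ∈ e (u, B) :=
  elim_of_leaf (leaf_main ht hm)

theorem closedR_table {F : List Rule} (hF : IsFrege F) {S : List (List (Nm × Fm))}
    (h1 : ∃ t ∈ S, Raises t) (h2 : ∃ t ∈ S, Lowers t) :
    ClosedUnderRestrictions (TableProof F S) := by
  refine closedR_of_elim hF poly_renB (fun hG => renB_just hG) ?_
  intro b
  cases b with
  | true =>
    obtain ⟨t, ht, h⟩ := h1
    exact elim_tab ht ((raises_iff t).1 h)
  | false =>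
    obtain ⟨t, ht, h⟩ := h2
    exact elim_tab ht ((lowers_iff t).1 h)

theorem simulates_perm_table (F : List Rule) (S : List (List (Nm × Fm))) :
    PSimulates (TableProof F S) (PermProof F) := by
  rw [psim_iff]
  refine ⟨fun π => π, Poly.id, fun A π hπ => ?_⟩
  exact ⟨hπ.1.imp_step (fun _ _ h => h.imp id Or.inl), hπ.2⟩

theorem simulates_of_moves {F : List Rule} (hF : IsFrege F) {S : List (List (Nm × Fm))}
    (h1 : ∃ t ∈ S, Raises t) (h2 : ∃ t ∈ S, Lowers t) :
    PSimulates (TableProof F S) (ExtProof F) :=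
  above hF (closedR_table hF h1 h2) (closedD_table F S) (simulates_perm_table F S)

end Pool.Agent.H.MP_0447ec_lc.PS

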