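import Pool.Agent.H.MP_0447ec_lc.DY.Main

/-!
# Substitution rules that turn the permutation rule into extended Frege
-/

namespace Pool.Agent.H.MP_0447ec_lc.PS.SubstitutionDichotomy

open Pool.Agent.H.MP_0447ec_lc.PS

/-- Let `F` be a Frege system and `S` a finite list of substitutions, each of them given by a table
of variables and formulas. The system `F` with the permutation rule and the rules given by `S`
p-simulates extended Frege if and only if some substitution in `S` raises the number of true
variables of some assignment and some substitution in `S` lowers the number of true variables of
some assignment, or already `F` with the permutation rule p-simulates extended Frege. -/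
theorem result (F : List Rule) (hF : IsFrege F) (S : List (List (List Bool × Fm))) :
    PSimulates (TableProof F S) (ExtProof F) ↔
      ((∃ t ∈ S, Raises t) ∧ ∃ t ∈ S, Lowers t) ∨ PSimulates (PermProof F) (ExtProof F) :=
  dichotomy hF S

end Pool.Agent.H.MP_0447ec_lc.PS.SubstitutionDichotomy
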