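import Pool.Agent.H.MP_0447ec_lc.DY.Dual
import Pool.Agent.H.MP_0447ec_lc.LV.SliceBasic

/-!
# The dual of a proof with the rules given by tables
-/

namespace Pool.Agent.H.MP_0447ec_lc.PS

open Fm Pool.Agent.H.MP_0447ec_lc.PT

/-- From a proof of `A` with the rules given by `S`, a proof of the formula with negated variables
with the dual rules. -/
theorem table_dual {F : List Rule} (hF : IsFrege F) (S : List (List (Nm × Fm))) :
    ∃ g : List Fm → List Fm, PT.Poly g ∧ ∀ (A : Fm) (π : List Fm), TableProof F S A π →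
      TableProof F (S.map dualT) (negVars A) (g π) := by
  obtain ⟨h, hp, hh⟩ := exists_finT hF (S.map dualT)
  refine ⟨fun π => fin1 h ((lastF π).subst flp) (dlB S π), ?_, ?_⟩
  · exact poly_fin1 hp (by fun_prop) (Poly.dlB S (by fun_prop))
  · intro A π hπ
    have hl : lastF π = A := lastF_eq hπ.2
    simp only [hl]
    have h2 : Deriv (FPT (GG F) S) π := hπ.1.imp_step (by
      rintro σ B (h | h)
      · exact Or.inl (ruleStep_GG h)
      · exact Or.inr h)
    obtain ⟨j1, m1⟩ := dlB_just (GG_rich F) h2
    exact hh _ _ j1 (m1 _ (List.mem_of_getLast? hπ.2))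

/-- The mirror image of `length_vl_dualT`. -/
theorem length_vl_dualT' {t : List (Nm × Fm)} {v w : Nm → Bool} (h : ∀ x, v x = !w x) :
    (vl false (dualT t) v).length = (vl true t w).length := by
  refine ((List.perm_ext_iff_of_nodup (vl_nodup _ _ _) (vl_nodup _ _ _)).2 ?_).length_eq
  intro x
  rw [mem_vl, mem_vl, mem_tdom_dualT, h x]
  refine and_congr_right (fun _ => ?_)
  cases w x <;> simp

/-- The dual of a substitution that does not raise does not lower. -/
theorem raises_dualT {t : List (Nm × Fm)} (h : ¬ Raises t) : ¬ Lowers (dualT t) := by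
  rw [lowers_iff]
  rw [raises_iff] at h
  rintro ⟨v, hv⟩
  apply h
  refine ⟨fun y => !v y, ?_⟩
  rwa [length_vl_dualT' (w := fun y => !v y) (by simp),
    length_vl_dualT' (w := aft t (fun y => !v y)) (aft_dualT t v)] at hv

end Pool.Agent.H.MP_0447ec_lc.PS
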