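import Pool.Agent.H.MP_0447ec_lc.DY.Low2

/-!
# Elimination of a list of premises with the same value
-/

namespace Pool.Agent.H.MP_0447ec_lc.PS

open Fm Pool.Agent.H.MP_0447ec_lc.PT

/-- Lines that eliminate the premises of a nested implication. -/
def elOne (e : Nm × Fm → List Fm) (l : List (Nm × Bool)) (R : Fm) : List Fm :=
  (sp [] l).reverse.flatMap (fun t => e (t.2.1.1, nl t.1 R))

theorem elOne_just {G : List Rule} {S : List (List (Nm × Fm))} {b : Bool}
    {e : Nm × Fm → List Fm}
    (he : ∀ (u : Nm) (B : Fm) (π : List Fm), (∀ v, B.Eval v) →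
      u ∉ B.vars → imp (lit u b) B ∈ π →
      Just (FPT G S) π (e (u, B)) ∧ B ∈ e (u, B))
    {R : Fm} (hR : ∀ v, R.Eval v) {l : List (Nm × Bool)} {π τ : List Fm}
    (hb : ∀ p ∈ l, p.2 = b)
    (hn : (l.map Prod.fst).Nodup) (hl : ∀ x ∈ l.map Prod.fst, x ∉ R.vars)
    (hs : ∀ C ∈ τ, C ∈ π) (h : nl l R ∈ τ) :
    Just (FPT G S) π (elOne e l R) ∧ R ∈ τ ++ elOne e l R := by
  have key : ∀ (us pre : List (Nm × Bool)),
      (∀ p ∈ us, p.2 = b) →
      ((pre ++ us).map Prod.fst).Nodup → (∀ x ∈ (pre ++ us).map Prod.fst, x ∉ R.vars) →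
      nl (pre ++ us) R ∈ τ →
      Just (FPT G S) π ((sp pre us).reverse.flatMap (fun t => e (t.2.1.1, nl t.1 R))) ∧
      nl pre R ∈ τ ++ (sp pre us).reverse.flatMap (fun t => e (t.2.1.1, nl t.1 R)) := by
    intro us
    induction us with
    | nil =>
      intro pre _ _ _ h
      rw [List.append_nil] at h
      simpa [sp] using ⟨trivial, h⟩
    | cons u us ih =>
      intro pre hb h3 h4 h
      have e' : pre ++ u :: us = (pre ++ [u]) ++ us := by simp
      rw [e'] at h3 h4 h
      obtain ⟨j, m⟩ := ih (pre ++ [u]) (fun p hp => hb p (List.mem_cons_of_mem _ hp)) h3 h4 h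
      rw [nl_snoc, hb u (by simp)] at m
      have hu1 : u.1 ∉ pre.map Prod.fst := by
        rw [List.map_append, List.map_append] at h3
        have h5 := List.Nodup.of_append_left h3
        rw [List.nodup_append] at h5
        intro hc
        exact h5.2.2 _ hc _ (by simp) rfl
      have hu2 : u.1 ∉ R.vars := h4 _ (by simp)
      have hu : u.1 ∉ (nl pre R).vars := by
        intro hc
        rcases nl_vars hc with hc | hc
        · exact hu1 hc
        · exact hu2 hc
      have m' : imp (lit u.1 b) (nl pre R) ∈ π ++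
          (sp (pre ++ [u]) us).reverse.flatMap (fun t => e (t.2.1.1, nl t.1 R)) := by
        rcases List.mem_append.1 m with m | m
        · exact List.mem_append_left _ (hs _ m)
        · exact List.mem_append_right _ m
      obtain ⟨s1, s2⟩ := he u.1 (nl pre R) _ (nl_eval hR _) hu m'
      rw [sp, List.reverse_cons, List.flatMap_append, List.flatMap_singleton]
      refine ⟨Just.append j s1, ?_⟩
      exact List.mem_append_right _ (List.mem_append_right _ s2)
  exact key l [] hb (by simpa using hn) (by simpa using hl) h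

theorem Poly.elOne {α : Type} [Enc α] {e : Nm × Fm → List Fm} (he : Poly e)
    {l : α → List (Nm × Bool)} {R : α → Fm} (hl : Poly l) (hR : Poly R) :
    Poly (fun a => elOne e (l a) (R a)) := by
  unfold PS.elOne
  refine PT.Poly.flatMap (f := fun (a : α) (t : List (Nm × Bool) × (Nm × Bool) ×
    List (Nm × Bool)) => e (t.2.1.1, PS.nl t.1 (R a))) ?_ (by fun_prop)
  exact Poly.comp he (by fun_prop)

/-- A rule that raises (lowers) the weight eliminates premises that are variables (negated
variables). -/
theorem elim_list {S : List (List (Nm × Fm))} {t : List (Nm × Fm)} (ht : t ∈ S) {b : Bool}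
    (hm : Moves b t) : ∃ e : Nm × List Nm × Fm → List Fm, PT.Poly e ∧
    ∀ (G : List Rule), Rich G → ∀ (d : Nm) (us : List Nm) (B : Fm) (π : List Fm),
      (∀ v, B.Eval v) → us.Nodup → (∀ u ∈ us, u ∉ B.vars) →
      imp (cj d (us.map (fun u => lit u b))) B ∈ π →
      Just (FPT G S) π (e (d, us, B)) ∧ B ∈ e (d, us, B) := by
  obtain ⟨e, hp, he⟩ := elim_tab ht hm
  refine ⟨fun x => curL x.1 (x.2.1.map (fun u => (u, b))) x.2.2 ++
    elOne e (x.2.1.map (fun u => (u, b))) x.2.2, ?_, ?_⟩
  · exact Poly.append (by fun_prop) (Poly.elOne hp (by fun_prop) (by fun_prop))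
  · intro G hG d us B π hB hn hv h
    have e1 : (us.map (fun u => (u, b))).map (fun p : Nm × Bool => lit p.1 p.2) =
        us.map (fun u => lit u b) := by
      rw [List.map_map]; rfl
    have e2 : (us.map (fun u => (u, b))).map Prod.fst = us := by
      rw [List.map_map]
      exact List.map_id _
    obtain ⟨j1, m1⟩ := curL_just hG (d := d) (l := us.map (fun u => (u, b))) (R := B) (π := π)
      (by rw [e1]; exact h)
    obtain ⟨j2, m2⟩ := elOne_just (he G hG) hB (l := us.map (fun u => (u, b)))
      (π := π ++ curL d (us.map (fun u => (u, b))) B)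
      (τ := curL d (us.map (fun u => (u, b))) B)
      (by
        intro p hp
        obtain ⟨u, -, rfl⟩ := List.mem_map.1 hp
        rfl) (by rw [e2]; exact hn) (by rw [e2]; exact hv)
      (fun C hC => List.mem_append_right _ hC) m1
    exact ⟨Just.append (toFPT j1) j2, m2⟩

end Pool.Agent.H.MP_0447ec_lc.PS
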