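import Pool.Agent.H.MP_0447ec_lc.LV.SliceB

/-!
# One family of slices gives the formula under hypotheses on new variables
-/

namespace Pool.Agent.H.MP_0447ec_lc.PS

open Fm Pool.Agent.H.MP_0447ec_lc.PT

/-- The name that is used in the hypotheses. -/
def hfD (A : Fm) : Nm := List.replicate ((nms A).flatten.length + 1) true

namespace FnS

variable {q : FnS}

/-- The new variables. -/
def hz (q : FnS) (y : (ℕ × ℕ) × Fm) : List Nm := (q.zv (y.1, y.2, [], [])).map Prod.fst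

theorem phz (h : q.IsPoly) : Poly q.hz := by
  have h1 : Poly (fun y : (ℕ × ℕ) × Fm => q.zv (y.1, y.2, [], [])) :=
    Poly.comp (g := fun y : (ℕ × ℕ) × Fm =>
      ((y.1, y.2, ([] : List (List Fm)), ([] : List (List Fm))) : In)) (pzv h) (by fun_prop)
  unfold hz
  fun_prop

theorem zv_eq {x x' : In} (h1 : x.1 = x'.1) (h2 : x.2.1 = x'.2.1) : q.zv x = q.zv x' := by
  unfold zv W e L
  rw [h1, h2]

section spec

variable {F : List Rule} (h : Spec F q)

theorem hz_nodup {y : (ℕ × ℕ) × Fm} (hW : (q.W (y.1, y.2, [], [])).Nodup) :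
    (q.hz y).Nodup :=
  (List.nodup_append.1 (zv_nodup hW)).1

theorem hz_fresh {y : (ℕ × ℕ) × Fm} {u : Nm} (hu : u ∈ q.hz y) : u ∉ y.2.vars := by
  intro hv
  have h1 := mem_zv (q := q) (x := (y.1, y.2, [], [])) (List.mem_append_left _ hu)
  have h2 := lt_L (x := (y.1, y.2, [], [])) hv
  omega

include h in
theorem gen_spec (x : In) (hx : 2 ^ x.1.1 ≤ x.1.2) {B : Fm} {σs : List (List Fm)}
    (hB : varList B = varList x.2.1) (hs : SlProofs F B x.1.1 σs)
    (hf : B.Eval (fun _ => False)) :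
    Just (FP (GG (GG F))) [] (q.half ((L x, d x, q.W x, e x), B, σs)) ∧
    imp (cj (d x) ((q.zv x).map (fun p => neg (var p.1)))) B ∈
      q.half ((L x, d x, q.W x, e x), B, σs) := by
  obtain ⟨w1, w2⟩ := W_spec h (x := x) hx
  have hv : ∀ y, y ∈ B.vars ↔ y ∈ x.2.1.vars := by
    intro y
    rw [← mem_varList, hB, mem_varList]
  have hb : bitLen B = bitLen x.2.1 := by
    unfold bitLen
    rw [hB]
  have he : e x = 2 * x.1.1 + 1 + bitLen B := by
    rw [hb]
    rfl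
  obtain ⟨a1, a2⟩ := half_spec h hs hf (L := L x) (e := e x) (d := d x)
    (W := q.W x) w1 w2 he (fun y hy => (lt_L ((hv y).1 hy)).le) (d_length x).le (by
      intro hy
      have := lt_L ((hv _).1 hy)
      rw [d_length] at this
      omega) []
  rw [hB, zoff_eq] at a2
  exact ⟨a1, a2⟩

end spec

theorem exists_spec (F : List Rule) (hF : IsFrege F) : ∃ q : FnS, q.IsPoly ∧ FnS.Spec F q := by
  obtain ⟨sf, hsf, hsf'⟩ := sfcf_main F
  obtain ⟨Tb, hTb, hTb'⟩ := blocks_main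
  obtain ⟨Tw, hTw, hTw'⟩ := words_main
  obtain ⟨Tk, hTk, hTk'⟩ := tok_main (GG F)
  obtain ⟨Td, hTd, hTd'⟩ := dp_main (GG_rich (GG F))
  obtain ⟨Tfl, hTfl, hTfl'⟩ := flip_main (GG_rich (GG F))
  obtain ⟨Tel, hTel, hTel'⟩ := elim_main (GG_rich (GG F))
  obtain ⟨rb, hrb, hrb'⟩ := robust hF (GG_sound (isFrege_GG hF))
  exact ⟨⟨sf, Tb, Tk, Td, Tw, Tfl, Tel, rb⟩, ⟨hsf, hTb, hTk, hTd, hTw, hTfl, hTel, hrb⟩,
    ⟨hsf', hTb', hTk', hTd', hTw', hTfl', hTel', hrb'⟩⟩

end FnS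

theorem half_main {F : List Rule} (hF : IsFrege F) :
    ∃ (g : (ℕ × ℕ) × Fm × List (List Fm) → List Fm) (z : (ℕ × ℕ) × Fm → List Nm),
    PT.Poly g ∧ PT.Poly z ∧ ∀ (A : Fm) (k cap : ℕ) (σs : List (List Fm)), 2 ^ k ≤ cap →
      σs.length = (varList A).length →
      (∀ (j : ℕ) (hj : j < σs.length),
        SubstProof F (slice A (j + 1)) σs[j] ∧ numVars σs[j] ≤ k * (j + 1)) →
      (z ((k, cap), A)).Nodup ∧ (∀ u ∈ z ((k, cap), A), u ∉ A.vars) ∧
      Just (FP (GG (GG F))) [] (g ((k, cap), A, σs)) ∧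
      imp (cj (hfD A) ((z ((k, cap), A)).map (fun u => lit u false))) A ∈
        g ((k, cap), A, σs) := by
  obtain ⟨q, hp, hq⟩ := FnS.exists_spec F hF
  refine ⟨fun y => q.h1 (y.1, y.2.1, y.2.2, []), q.hz, ?_, FnS.phz hp, ?_⟩
  · exact Poly.comp (g := fun y : (ℕ × ℕ) × Fm × List (List Fm) =>
      ((y.1, y.2.1, y.2.2, ([] : List (List Fm))) : FnS.In)) (FnS.ph1 hp) (by fun_prop)
  · intro A k cap σs hcap h1 h2
    have hs : FnS.SlProofs F A k σs := ⟨h1, h2⟩
    have hw := (FnS.W_spec hq (x := ((k, cap), A, [], [])) hcap).1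
    obtain ⟨a1, a2⟩ := FnS.gen_spec hq ((k, cap), A, σs, []) hcap rfl hs (hs.eval_false hF)
    refine ⟨FnS.hz_nodup hw, fun u hu => FnS.hz_fresh hu, a1, ?_⟩
    have e1 : (q.hz ((k, cap), A)).map (fun u => lit u false) =
        (q.zv ((k, cap), A, σs, [])).map (fun p => neg (var p.1)) := by
      unfold FnS.hz
      rw [List.map_map]
      rfl
    rw [e1]
    exact a2

theorem half_main_neg {F : List Rule} (hF : IsFrege F) :
    ∃ (g : (ℕ × ℕ) × Fm × List (List Fm) → List Fm) (z : (ℕ × ℕ) × Fm → List Nm),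
    PT.Poly g ∧ PT.Poly z ∧ ∀ (A : Fm) (k cap : ℕ) (σs : List (List Fm)), 2 ^ k ≤ cap →
      σs.length = (varList A).length →
      (∀ (j : ℕ) (hj : j < σs.length),
        SubstProof F (slice (negVars A) (j + 1)) σs[j] ∧ numVars σs[j] ≤ k * (j + 1)) →
      (z ((k, cap), A)).Nodup ∧ (∀ u ∈ z ((k, cap), A), u ∉ A.vars) ∧
      Just (FP (GG (GG F))) [] (g ((k, cap), A, σs)) ∧
      imp (cj (hfD A) ((z ((k, cap), A)).map (fun u => lit u true))) A ∈
        g ((k, cap), A, σs) := by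
  obtain ⟨q, hp, hq⟩ := FnS.exists_spec F hF
  refine ⟨fun y => q.fl (y.1, y.2.1, [], y.2.2), q.hz, ?_, FnS.phz hp, ?_⟩
  · exact Poly.comp (g := fun y : (ℕ × ℕ) × Fm × List (List Fm) =>
      ((y.1, y.2.1, ([] : List (List Fm)), y.2.2) : FnS.In)) (FnS.pfl hp) (by fun_prop)
  · intro A k cap σs hcap h1 h2
    have hs : FnS.SlProofs F (negVars A) k σs := ⟨by rw [h1, FnS.varList_neg], h2⟩
    have hw := (FnS.W_spec hq (x := ((k, cap), A, [], [])) hcap).1
    obtain ⟨a1, a2⟩ := FnS.gen_spec hq ((k, cap), A, [], σs) hcap (FnS.varList_neg A) hs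
      (hs.eval_false hF)
    obtain ⟨f1, f2⟩ := hq.Tfl (FnS.d ((k, cap), A, [], σs))
      ((q.zv ((k, cap), A, [], σs)).map Prod.fst) A (q.h2 ((k, cap), A, [], σs)) a1
      (by
        rw [List.map_map]
        exact a2) []
    refine ⟨FnS.hz_nodup hw, fun u hu => FnS.hz_fresh hu, f1, ?_⟩
    have e1 : (q.hz ((k, cap), A)).map (fun u => lit u true) =
        ((q.zv ((k, cap), A, [], σs)).map Prod.fst).map var := by
      unfold FnS.hz
      rfl
    rw [e1]
    exact f2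

end Pool.Agent.H.MP_0447ec_lc.PS
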