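import Pool.Agent.H.MP_0447ec_lc.DY.RegM
import Pool.Agent.H.MP_0447ec_lc.LV.SliceA

/-!
# From the rules given by tables to slices
-/

namespace Pool.Agent.H.MP_0447ec_lc.PS

open Fm Pool.Agent.H.MP_0447ec_lc.PT

/-! ### The data -/

/-- The variables that do not occur in the formula, with those of the tables. -/
def sxO (S : List (List (Nm × Fm))) (π : List Fm) : List Nm :=
  (dd (π.flatMap nms ++ S.flatMap tdom)).filter (fun x => !(decide (x ∈ nms (lastF π))))

/-- The number of new bits. -/
def sxC (S : List (List (Nm × Fm))) (π : List Fm) : ℕ := Nat.log 2 (sxO S π).length + 1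

/-- The registers. -/
def sxR (S : List (List (Nm × Fm))) (π : List Fm) (j : ℕ) : List (List Nm) :=
  (List.range j).map (fun J => regName (saB π) J ++ regName (sxC S π) (j + J))

/-- The codes. -/
def sxK (S : List (List (Nm × Fm))) (π : List Fm) : List (Nm × List Bool) :=
  (sac (lastF π)).map (fun p => (p.1, p.2 ++ List.replicate (sxC S π) false)) ++
    (sxO S π).zipIdx.map (fun p => (p.1, List.replicate (saB π) false ++ numCode (sxC S π) p.2))

/-- A bound for the number of words. -/
def sxCap (S : List (List (Nm × Fm))) (π : List Fm) : ℕ :=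
  4 * (varList (lastF π)).length * ((sxO S π).length + 1)

/-- The new bits, with their final value. -/
def sxL (S : List (List (Nm × Fm))) (π : List Fm) (j : ℕ) : List (Nm × Bool) :=
  (List.range j).flatMap (fun J => (regName (sxC S π) (j + J)).map (fun y => (y, false)))

/-- The register form of the formula. -/
def sxX (S : List (List (Nm × Fm))) (π : List Fm) (j : ℕ) : Fm :=
  (lastF π).subst (tsub (regT [] (sxR S π j) (sxK S π)))

/-- The last lines. -/
def sxE (S : List (List (Nm × Fm))) (π : List Fm) (j : ℕ) : List Fm :=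
  chn (sxX S π j) (sxL S π j) ++ (li0 [] (ct [] true) ((sxX S π j).subst (tsub (cT (sxL S π j))))
    (slice (lastF π) j) ++ [slice (lastF π) j])

/-! ### Their properties -/

variable {S : List (List (Nm × Fm))}

theorem mem_sxO {π : List Fm} {x : Nm} : x ∈ sxO S π ↔
    ((∃ C ∈ π, x ∈ C.vars) ∨ ∃ t ∈ S, x ∈ tdom t) ∧ x ∉ (lastF π).vars := by
  unfold sxO
  rw [List.mem_filter, mem_dd, List.mem_append, List.mem_flatMap, List.mem_flatMap]
  simp only [mem_nms, Bool.not_eq_true', decide_eq_false_iff_not]

theorem sxO_nodup (π : List Fm) : (sxO S π).Nodup := (nodup_dd _).filter _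

theorem sxK_fst (π : List Fm) : (sxK S π).map Prod.fst = varList (lastF π) ++ sxO S π := by
  unfold sxK
  rw [List.map_append, List.map_map, List.map_map]
  congr 1
  · rw [← sac_fst]; rfl
  · have : ∀ (l : List Nm) (k : ℕ), (l.zipIdx k).map (Prod.fst ∘ fun p : Nm × ℕ =>
        (p.1, List.replicate (saB π) false ++ numCode (sxC S π) p.2)) = l := by
      intro l
      induction l with
      | nil => intro k; rfl
      | cons a l ih => intro k; rw [List.zipIdx_cons, List.map_cons, ih]; rfl
    exact this _ 0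

theorem sxK_fst_nodup (π : List Fm) : ((sxK S π).map Prod.fst).Nodup := by
  rw [sxK_fst, List.nodup_append]
  refine ⟨varList_nodup _, sxO_nodup π, ?_⟩
  rintro x hx y hy rfl
  exact (mem_sxO.1 hy).2 (mem_varList.1 hx)

theorem lt_two_pow_sxC {π : List Fm} {i : ℕ} (h : i < (sxO S π).length) : i + 1 < 2 ^ sxC S π := by
  have := Nat.lt_pow_succ_log_self (b := 2) (by norm_num) (sxO S π).length
  unfold sxC
  omega

theorem mem_sxK {π : List Fm} {p : Nm × List Bool} (h : p ∈ sxK S π) :
    (∃ q ∈ sac (lastF π), p = (q.1, q.2 ++ List.replicate (sxC S π) false)) ∨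
    ∃ i < (sxO S π).length, p.2 = List.replicate (saB π) false ++ numCode (sxC S π) i := by
  unfold sxK at h
  rcases List.mem_append.1 h with h | h
  · obtain ⟨q, hq, rfl⟩ := List.mem_map.1 h
    exact Or.inl ⟨q, hq, rfl⟩
  · obtain ⟨q, hq, rfl⟩ := List.mem_map.1 h
    have h1 := List.mem_zipIdx hq
    exact Or.inr ⟨q.2, by omega, rfl⟩

theorem sxK_len {π : List Fm} {p : Nm × List Bool} (h : p ∈ sxK S π) :
    p.2.length = saB π + sxC S π ∧ true ∈ p.2 := by
  rcases mem_sxK h with ⟨q, hq, rfl⟩ | ⟨i, hi, e⟩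
  · refine ⟨?_, List.mem_append_left _ (sac_code hq).2⟩
    rw [List.length_append, (sac_code hq).1, List.length_replicate]; rfl
  · refine ⟨?_, ?_⟩
    · rw [e, List.length_append, numCode_length, List.length_replicate]
    · rw [e]
      exact List.mem_append_right _ (numCode_true (lt_two_pow_sxC hi))

theorem sxK_snd_nodup (π : List Fm) : ((sxK S π).map Prod.snd).Nodup := by
  unfold sxK
  rw [List.map_append, List.map_map, List.map_map, List.nodup_append]
  refine ⟨?_, ?_, ?_⟩
  · have e : (sac (lastF π)).map (Prod.snd ∘ fun p : Nm × List Bool =>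
        (p.1, p.2 ++ List.replicate (sxC S π) false)) =
        ((sac (lastF π)).map Prod.snd).map (fun u => u ++ List.replicate (sxC S π) false) := by
      rw [List.map_map]; rfl
    rw [e]
    exact (sac_snd _).map (fun u u' hu => List.append_cancel_right hu)
  · have e : (sxO S π).zipIdx.map (Prod.snd ∘ fun p : Nm × ℕ =>
        (p.1, List.replicate (saB π) false ++ numCode (sxC S π) p.2)) =
        (List.range (sxO S π).length).map (fun i =>
          List.replicate (saB π) false ++ numCode (sxC S π) i) := by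
      have h1 : (List.range (sxO S π).length) = (sxO S π).zipIdx.map Prod.snd := by
        rw [List.zipIdx_map_snd, List.range_eq_range']
      rw [h1, List.map_map]
      rfl
    rw [e]
    refine List.Nodup.map_on ?_ List.nodup_range
    intro i hi i' hi' h
    rw [List.mem_range] at hi hi'
    exact numCode_inj (lt_two_pow_sxC hi) (lt_two_pow_sxC hi') (List.append_cancel_left h)
  · rintro x hx y hy rfl
    obtain ⟨p, hp, h1⟩ := List.mem_map.1 hx
    obtain ⟨q, hq, h2⟩ := List.mem_map.1 hy
    have e1 : p.2 ++ List.replicate (sxC S π) false =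
        List.replicate (saB π) false ++ numCode (sxC S π) q.2 := by
      have e3 : p.2 ++ List.replicate (sxC S π) false = x := h1
      have e4 : List.replicate (saB π) false ++ numCode (sxC S π) q.2 = x := h2
      rw [e3, e4]
    have e2 := (List.append_inj e1 (by
      rw [(sac_code hp).1, List.length_replicate]; rfl)).1
    have e3 := (sac_code hp).2
    rw [e2] at e3
    exact absurd (List.mem_replicate.1 e3).2 (by simp)

theorem mem_sxR {π : List Fm} {j : ℕ} {y : Nm} : y ∈ (sxR S π j).flatten ↔
    ∃ J < j, y ∈ regName (saB π) J ∨ y ∈ regName (sxC S π) (j + J) := by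
  unfold sxR
  simp only [List.mem_flatten, List.mem_map, List.mem_range]
  constructor
  · rintro ⟨ys, ⟨J, hJ, rfl⟩, hy⟩
    exact ⟨J, hJ, List.mem_append.1 hy⟩
  · rintro ⟨J, hJ, hy⟩
    exact ⟨_, ⟨J, hJ, rfl⟩, List.mem_append.2 hy⟩

theorem sxR_nodup (π : List Fm) (j : ℕ) : (sxR S π j).flatten.Nodup := by
  unfold sxR
  rw [← List.flatMap_def, List.nodup_flatMap]
  constructor
  · intro J hJ
    rw [List.mem_range] at hJ
    rw [List.nodup_append]
    refine ⟨regName_nodup _ _, regName_nodup _ _, ?_⟩
    rintro x hx y hy rfl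
    exact regName_disj (by omega) hx hy
  · refine (List.nodup_range (n := j)).pairwise_of_forall_ne ?_
    intro a ha b hb hab
    rw [List.mem_range] at ha hb
    rw [Function.onFun, List.disjoint_left]
    intro x hx hx'
    rcases List.mem_append.1 hx with h1 | h1 <;> rcases List.mem_append.1 hx' with h2 | h2
    · exact regName_disj hab h1 h2
    · exact regName_disj (by omega) h1 h2
    · exact regName_disj (by omega) h1 h2
    · exact regName_disj (by omega) h1 h2

theorem nil_not_mem_sxR (π : List Fm) (j : ℕ) : ([] : Nm) ∉ (sxR S π j).flatten := by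
  rw [mem_sxR]
  rintro ⟨J, -, h | h⟩
  · exact nil_not_mem_regName h
  · exact nil_not_mem_regName h

theorem sxR_len {π : List Fm} {j : ℕ} {ys : List Nm} (h : ys ∈ sxR S π j) :
    ys.length = saB π + sxC S π := by
  obtain ⟨J, -, rfl⟩ := List.mem_map.1 h
  rw [List.length_append, regName_length, regName_length]

theorem sxCap_spec (π : List Fm) : 2 ^ (saB π + sxC S π) ≤ sxCap S π := by
  have h1 : 2 ^ saB π ≤ 2 * (varList (lastF π)).length := by
    unfold saB bitLen
    rw [pow_succ]
    have := Nat.pow_log_le_self 2 (x := (varList (lastF π)).length)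
      (by have := varList_pos (lastF π); omega)
    omega
  have h2 : 2 ^ sxC S π ≤ 2 * ((sxO S π).length + 1) := by
    unfold sxC
    rw [pow_succ]
    rcases Nat.eq_zero_or_pos (sxO S π).length with h | h
    · rw [h]; simp
    · have := Nat.pow_log_le_self 2 (x := (sxO S π).length) (by omega)
      omega
  rw [pow_add]
  unfold sxCap
  calc 2 ^ saB π * 2 ^ sxC S π ≤ (2 * (varList (lastF π)).length) * (2 * ((sxO S π).length + 1)) :=
        Nat.mul_le_mul h1 h2
    _ = _ := by ring

theorem sxL_fst (π : List Fm) (j : ℕ) : (sxL S π j).map Prod.fst =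
    (List.range j).flatMap (fun J => regName (sxC S π) (j + J)) := by
  unfold sxL
  rw [List.map_flatMap]
  congr 1
  funext J
  rw [List.map_map]
  exact List.map_id'' (fun _ => rfl) _

theorem mem_sxL_fst {π : List Fm} {j : ℕ} {y : Nm} : y ∈ (sxL S π j).map Prod.fst ↔
    ∃ J < j, y ∈ regName (sxC S π) (j + J) := by
  rw [sxL_fst]
  simp only [List.mem_flatMap, List.mem_range]

theorem sxL_nodup (π : List Fm) (j : ℕ) : ((sxL S π j).map Prod.fst).Nodup := by
  rw [sxL_fst, List.nodup_flatMap]
  constructor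
  · intro J _
    exact regName_nodup _ _
  · refine List.nodup_range.imp ?_
    intro a b hab
    rw [Function.onFun, List.disjoint_left]
    intro x hx hx'
    exact regName_disj (by omega) hx hx'

theorem mem_sxL {π : List Fm} {j J : ℕ} (hJ : J < j) {z : Nm} (hz : z ∈ regName (sxC S π) (j + J)) :
    (z, false) ∈ sxL S π j := by
  unfold sxL
  exact List.mem_flatMap.2 ⟨J, List.mem_range.2 hJ,
    List.mem_map_of_mem (f := fun y : Nm => (y, false)) hz⟩

theorem sm_sxX {K : List (Nm × Bool)} (π : List Fm) (j : ℕ) :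
    sm K ((sxX S π j).subst (tsub (cT (sxL S π j)))) = sm K (slice (lastF π) j) := by
  unfold sxX slice
  rw [Fm.subst_subst]
  apply sm_subst
  intro x hx
  have h1 : (x, numCode (bitLen (lastF π)) ((varList (lastF π)).idxOf x) ++
      List.replicate (sxC S π) false) ∈ sxK S π := by
    unfold sxK
    exact List.mem_append_left _ (List.mem_map_of_mem (f := fun p : Nm × List Bool =>
      (p.1, p.2 ++ List.replicate (sxC S π) false)) (sac_mem_idx hx))
  have h2 : tsub (regT [] (sxR S π j) (sxK S π)) x = anyr [] (sxR S π j)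
      (numCode (bitLen (lastF π)) ((varList (lastF π)).idxOf x) ++
      List.replicate (sxC S π) false) := by
    apply tsub_of_mem
    · exact List.mem_map_of_mem (f := fun p : Nm × List Bool =>
        (p.1, anyr [] (sxR S π j) p.2)) h1
    · unfold regT
      rw [List.map_map]
      exact sxK_fst_nodup π
  rw [h2]
  unfold anyr sxR
  have hd : ([] : Nm) ∉ (sxL S π j).map Prod.fst := by
    rw [mem_sxL_fst]
    rintro ⟨J, -, h⟩
    exact nil_not_mem_regName h
  rw [subst_dj (tsub_cT_of_not_mem hd)]
  apply sm_dj_congr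
  simp only [List.map_map]
  apply List.map_congr_left
  intro J hJ
  rw [List.mem_range] at hJ
  simp only [Function.comp_apply]
  refine sm_eqr_pad (sxL_nodup π j) hd ?_ (fun z hz => mem_sxL hJ hz) ?_
  · intro y hy hc
    obtain ⟨J', hJ', h⟩ := mem_sxL_fst.1 hc
    exact regName_disj (by omega) hy h
  · rw [numCode_length, regName_length]; rfl

/-! ### Bounds -/

/-- The number of variables of the tables. -/
def sxN (S : List (List (Nm × Fm))) : ℕ := (S.flatMap tdom).length

theorem sxO_length (π : List Fm) : (sxO S π).length ≤ sz π + sxN S := by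
  have h1 : (sxO S π).length ≤ (π.flatMap nms ++ S.flatMap tdom).length :=
    (List.length_filter_le _ _).trans (dd_sublist _).length_le
  have h2 : sz (π.flatMap nms) ≤ sz π := by
    clear h1
    induction π with
    | nil => exact le_rfl
    | cons A π ih =>
      have h3 := sz_append (nms A) (π.flatMap nms)
      have h4 := sz_nms_le A
      rw [List.flatMap_cons, sz_lcons]
      omega
  have h3 := length_lt_sz (π.flatMap nms)
  rw [List.length_append] at h1
  unfold sxN
  omega

/-- A constant that depends on the tables only. -/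
def sxD (S : List (List (Nm × Fm))) : ℕ := Nat.log 2 (sxN S + 1) + 1

theorem sxC_le (π : List Fm) : sxC S π ≤ Nat.log 2 (sz π) + 1 + sxD S := by
  have h0 : 1 ≤ sz π := sz_pos π
  have h1 : (sxO S π).length ≤ sz π * (sxN S + 1) := by
    have h2 := sxO_length (S := S) π
    nlinarith [Nat.zero_le (sxN S)]
  have h2 : sz π * (sxN S + 1) < 2 ^ (Nat.log 2 (sz π) + 1 + sxD S) := by
    have h3 := Nat.lt_pow_succ_log_self (b := 2) (by norm_num) (sz π)
    have h4 := Nat.lt_pow_succ_log_self (b := 2) (by norm_num) (sxN S + 1)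
    rw [pow_add]
    exact Nat.mul_lt_mul'' h3 h4
  have h3 : Nat.log 2 (sxO S π).length < Nat.log 2 (sz π) + 1 + sxD S :=
    Nat.log_lt_of_lt_pow' (by omega) (h1.trans_lt h2)
  unfold sxC
  omega

theorem sxR_length (π : List Fm) (j : ℕ) : (sxR S π j).flatten.length = j * (saB π + sxC S π) := by
  have key : ∀ (l : List (List Nm)) (c : ℕ), (∀ ys ∈ l, ys.length = c) →
      l.flatten.length = l.length * c := by
    intro l c h
    induction l with
    | nil => simp
    | cons a l ih =>
      rw [List.flatten_cons, List.length_append,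
        ih (fun ys hy => h ys (List.mem_cons_of_mem _ hy)), h a (by simp), List.length_cons]
      ring
  rw [key _ _ (fun ys hy => sxR_len hy)]
  simp [sxR]

/-! ### Variables -/

theorem sxL_sub {π : List Fm} {j : ℕ} {y : Nm} (h : y ∈ (sxL S π j).map Prod.fst) :
    y ∈ (sxR S π j).flatten := by
  obtain ⟨J, hJ, h1⟩ := mem_sxL_fst.1 h
  exact mem_sxR.2 ⟨J, hJ, Or.inr h1⟩

theorem sxX_vars {π : List Fm} {j : ℕ} {x : Nm}
    (h : x ∈ (sxX S π j).vars) : x = [] ∨ x ∈ (sxR S π j).flatten := by
  unfold sxX at h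
  obtain ⟨w, hw, hx⟩ := vars_subst h
  rw [tsub_regT (sxK_fst_nodup π) (by
    rw [sxK_fst, List.mem_append]
    exact Or.inl (mem_varList.2 hw)), ← regF_nil_left (f := id)] at hx
  exact regF_vars hx

theorem sx_slice_vars {π : List Fm} {j : ℕ} {x : Nm}
    (h : x ∈ (slice (lastF π) j).vars) : x = [] ∨ x ∈ (sxR S π j).flatten := by
  unfold slice at h
  obtain ⟨w, hw, hx⟩ := vars_subst h
  unfold anyr at hx
  rw [vars_dj] at hx
  rcases hx with hx | ⟨B, hB, hx⟩
  · exact Or.inl hx
  · obtain ⟨ys, hys, rfl⟩ := List.mem_map.1 hB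
    obtain ⟨J, hJ, rfl⟩ := List.mem_map.1 hys
    rcases vars_eqr hx with h1 | h1
    · exact Or.inl h1
    · exact Or.inr (mem_sxR.2 ⟨J, List.mem_range.1 hJ, Or.inl h1⟩)

theorem sxE_vars {π : List Fm} {j : ℕ} {C : Fm}
    (hC : C ∈ sxE S π j) {x : Nm} (hx : x ∈ C.vars) : x = [] ∨ x ∈ (sxR S π j).flatten := by
  unfold sxE at hC
  rcases List.mem_append.1 hC with hC | hC
  · rcases chn_vars hC hx with h | h
    · exact sxX_vars h
    · exact Or.inr (sxL_sub h)
  · rcases List.mem_append.1 hC with hC | hC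
    · rcases li0_vars hC hx with h | h | h | h
      · exact Or.inl h
      · exact Or.inl (vars_ct.1 h)
      · rcases subst_cT_vars h with h | h
        · exact sxX_vars h
        · exact Or.inr (sxL_sub h)
      · exact sx_slice_vars h
    · rw [List.mem_singleton] at hC
      subst hC
      exact sx_slice_vars hx

/-! ### The last lines -/

theorem sxE_just {G : List Rule} (hG : Rich (GG G)) {π τ : List Fm} {j : ℕ}
    (h : sxX S π j ∈ τ) :
    Just (GC (GG G)) τ (sxE S π j) ∧ slice (lastF π) j ∈ sxE S π j := by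
  obtain ⟨h1, h2⟩ := chn_just (G := GG G) (sxL_nodup π j) h
  obtain ⟨h3, h4⟩ := li0_just hG (d := []) (H := ct [] true)
    (B := slice (lastF π) j) h2 (sm_sxX π j)
  refine ⟨?_, ?_⟩
  · unfold sxE
    refine Just.append h1 (Just.append (h3.imp_step (fun σ B hB => Or.inl hB)) ?_)
    exact ⟨Or.inr (Or.inl (hG.strip (H := var []) (List.mem_append_right _ h4))), trivial⟩
  · unfold sxE
    exact List.mem_append_right _ (List.mem_append_right _ (List.mem_singleton.2 rfl))

/-! ### The algorithm -/

/-- The tables and the functions that are used. -/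
structure SxA where
  /-- the tables -/
  S : List (List (Nm × Fm))
  /-- registers -/
  Tr : Nm × List (List Nm) × List (Nm × List Bool) × List (List Bool) × List Fm → List Fm
  /-- words -/
  Tw : ℕ × ℕ → List (List Bool)
  /-- change of the rules -/
  rb : List Fm → List Fm

namespace SxA

variable (q : SxA)

def W (π : List Fm) : List (List Bool) := q.Tw (sxCap q.S π, saB π + sxC q.S π)
def out1 (x : List Fm × ℕ) : List Fm := q.Tr ([], sxR q.S x.1 x.2, sxK q.S x.1, q.W x.1, x.1)
def out2 (x : List Fm × ℕ) : List Fm :=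
  cutAt (slice (lastF x.1) x.2) (app [] (q.out1 x ++ sxE q.S x.1 x.2))
def out (x : List Fm × ℕ) : List Fm := q.rb (q.out2 x)

structure IsPoly : Prop where
  hTr : Poly q.Tr
  hTw : Poly q.Tw
  hrb : Poly q.rb

theorem psxO : Poly (sxO S) := by
  have e1 : Poly (fun p : List Fm × Nm => nms (lastF p.1)) := by fun_prop
  have e0 : Poly (fun _ : List Fm => S.flatMap tdom) := PT.Poly.const _
  have e2 : Poly (fun π : List Fm => dd (π.flatMap nms ++ S.flatMap tdom)) := by fun_prop
  unfold sxO
  exact PT.Poly.filter (f := fun (π : List Fm) (x : Nm) => !(decide (x ∈ nms (lastF π))))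
    (Poly.not (Poly.decMem (by fun_prop) e1)) e2
theorem psxC : Poly (sxC S) := by
  have := psxO (S := S)
  unfold sxC; fun_prop
theorem psxR : Poly (fun x : List Fm × ℕ => sxR S x.1 x.2) := by
  have h1 := FnA.psaB
  have h2 := psxC (S := S)
  unfold sxR; fun_prop
theorem psxK : Poly (sxK S) := by
  have h1 := FnA.psaB
  have h2 := psxC (S := S)
  have h3 := psxO (S := S)
  unfold sxK; fun_prop
theorem psxCap : Poly (sxCap S) := by
  have h3 := psxO (S := S)
  unfold sxCap; fun_prop
theorem psxL : Poly (fun x : List Fm × ℕ => sxL S x.1 x.2) := by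
  have h2 := psxC (S := S)
  unfold sxL; fun_prop
theorem psxX : Poly (fun x : List Fm × ℕ => sxX S x.1 x.2) := by
  have h1 := psxR (S := S)
  have h2 : Poly (fun x : List Fm × ℕ => regT ([] : Nm) (sxR S x.1 x.2) (sxK S x.1)) := by
    have := psxK (S := S)
    exact Poly.regT (by fun_prop) h1 (by fun_prop)
  unfold sxX
  exact Poly.substT h2 (by fun_prop)
theorem psxE : Poly (fun x : List Fm × ℕ => sxE S x.1 x.2) := by
  have h1 := psxX (S := S)
  have h2 := psxL (S := S)
  have h3 : Poly (fun x : List Fm × ℕ => (sxX S x.1 x.2).subst (tsub (cT (sxL S x.1 x.2)))) :=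
    Poly.substT (Poly.cT h2) h1
  have h4 : Poly (fun x : List Fm × ℕ => slice (lastF x.1) x.2) := by fun_prop
  unfold sxE
  exact Poly.append (Poly.chn h1 h2) (Poly.append (Poly.li0 (by fun_prop) (by fun_prop) h3 h4)
    (by fun_prop))

variable {q}

theorem pW (h : q.IsPoly) : Poly q.W := by
  have := FnA.psaB; have := psxC (S := q.S); have := psxCap (S := q.S); have := h.hTw
  unfold W; fun_prop
theorem pout1 (h : q.IsPoly) : Poly q.out1 := by
  have h1 := psxR (S := q.S)
  have h2 := psxK (S := q.S)
  have h3 := pW h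
  have h4 := h.hTr
  have h5 : Poly (fun x : List Fm × ℕ =>
      (([] : Nm), sxR q.S x.1 x.2, sxK q.S x.1, q.W x.1, x.1)) :=
    Poly.pair (by fun_prop) (Poly.pair h1 (by fun_prop))
  exact Poly.comp (f := q.Tr) h4 h5
theorem pout2 (h : q.IsPoly) : Poly q.out2 := by
  have h1 := pout1 h
  have h2 := psxE (S := q.S)
  unfold out2
  exact Poly.cutAt (by fun_prop) (Poly.app (by fun_prop) (Poly.append h1 h2))
theorem pout (h : q.IsPoly) : Poly q.out := by
  have h1 := pout2 h
  have h2 := h.hrb
  unfold out
  exact Poly.comp (f := q.rb) h2 h1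

end SxA

/-- A proof of `A` with the permutation rule and rules that never raise the number of true
variables gives proofs with few variables of all slices of `A`. -/
theorem sliceS {F : List Rule} (hF : IsFrege F) {S : List (List (Nm × Fm))}
    (hS : ∀ t ∈ S, ¬ Raises t) :
    ∃ (C : ℕ) (g : List Fm × ℕ → List Fm), PT.Poly g ∧
    ∀ (A : Fm) (π : List Fm) (j : ℕ), 0 < j → TableProof F S A π →
      SubstProof F (slice A j) (g (π, j)) ∧
      numVars (g (π, j)) ≤ C * j * (Nat.log 2 (PT.sz π) + 1) := by
  obtain ⟨Tr, hTr, hTr'⟩ := regS_main F hS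
  obtain ⟨Tw, hTw, hTw'⟩ := words_main
  obtain ⟨rb, hrb, hrb'⟩ := robust hF (GG_sound hF)
  let q : SxA := ⟨S, Tr, Tw, rb⟩
  have hp : q.IsPoly := ⟨hTr, hTw, hrb⟩
  refine ⟨sxD S + 3, q.out, SxA.pout hp, ?_⟩
  intro A π j hj hπ
  have hlast : lastF π = A := lastF_eq hπ.2
  have hW := (hTw' (sxCap S π) (saB π + sxC S π) (sxCap_spec π)).2.2
  obtain ⟨r1, r2, r3⟩ := hTr' [] (sxR S π j) (sxK S π) (q.W π) (saB π + sxC S π) π hW
    (fun ys hy => sxR_len hy) (sxR_nodup π j) (nil_not_mem_sxR π j) (sxK_fst_nodup π)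
    (sxK_snd_nodup π) (fun p hp => sxK_len hp) hπ.1
    (by
      intro C hC x hx
      rw [sxK_fst, List.mem_append, hlast, mem_varList]
      by_cases h : x ∈ A.vars
      · exact Or.inl h
      · exact Or.inr (mem_sxO.2 ⟨Or.inl ⟨C, hC, hx⟩, by rw [hlast]; exact h⟩))
    (by
      intro t ht x hx
      rw [sxK_fst, List.mem_append, hlast, mem_varList]
      by_cases h : x ∈ A.vars
      · exact Or.inl h
      · exact Or.inr (mem_sxO.2 ⟨Or.inr ⟨t, ht, hx⟩, by rw [hlast]; exact h⟩)) []
  have hm : sxX S π j ∈ [] ++ q.out1 (π, j) := by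
    have h1 := r2 _ (List.mem_of_getLast? hπ.2)
    unfold sxX
    rw [hlast, List.nil_append]
    exact h1
  obtain ⟨e1, e2⟩ := sxE_just (GG_rich F) hm
  have jj : Just (GC (GG F)) [] (q.out1 (π, j) ++ sxE S π j) := Just.append r1 e1
  have hD := deriv_app (mono_GC (GG F)) Deriv.nil jj
  have hA : slice (lastF π) j ∈ app [] (q.out1 (π, j) ++ sxE S π j) :=
    mem_app.2 (Or.inr (List.mem_append_right _ e2))
  obtain ⟨c1, c2⟩ := deriv_cutAt hD hA
  have c1' : Deriv (fun σ B => RuleStep (GG F) σ B ∨ SubstStep σ B) (q.out2 (π, j)) := by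
    refine Deriv.imp_step c1 ?_
    intro σ B hB
    exact hB.imp (fun h => h) (fun h => h.subst)
  obtain ⟨t1, t2, t3⟩ := hrb' SubstStep mono_substStep (q.out2 (π, j)) (slice (lastF π) j) c1' c2
  refine ⟨⟨t1, by rw [← hlast]; exact t2⟩, ?_⟩
  have hv : ∀ C ∈ q.out2 (π, j), ∀ x ∈ C.vars, x ∈ [] :: (sxR S π j).flatten := by
    intro C hC x hx
    have hC' : C ∈ q.out1 (π, j) ∨ C ∈ sxE S π j := by
      have : C ∈ app [] (q.out1 (π, j) ++ sxE S π j) := by
        unfold SxA.out2 cutAt at hC
        rcases List.mem_append.1 hC with hC | hC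
        · exact (List.takeWhile_prefix _).subset hC
        · rw [List.mem_singleton] at hC
          rw [hC]; exact hA
      simpa using mem_app.1 this
    rw [List.mem_cons]
    rcases hC' with hC' | hC'
    · exact r3 C hC' x hx
    · exact sxE_vars hC' hx
  have n1 : numVars (q.out (π, j)) ≤ numVars (q.out2 (π, j)) := numVars_mono t3
  have n2 := numVars_le_length hv
  rw [List.length_cons, sxR_length] at n2
  have n3 := saB_le hπ.2
  have n4 := sxC_le (S := S) π
  have n5 : j * (saB π + sxC S π) ≤ j * (2 * (Nat.log 2 (sz π) + 1) + sxD S) :=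
    Nat.mul_le_mul_left _ (by omega)
  have n6 : 1 ≤ j * (Nat.log 2 (sz π) + 1) := Nat.mul_pos hj (by omega)
  have n7 : j * sxD S ≤ sxD S * (j * (Nat.log 2 (sz π) + 1)) := by
    rw [Nat.mul_comm j]
    exact Nat.mul_le_mul_left _ (Nat.le_mul_of_pos_right _ (by omega))
  calc numVars (q.out (π, j)) ≤ j * (2 * (Nat.log 2 (sz π) + 1) + sxD S) +
        j * (Nat.log 2 (sz π) + 1) := by omega
    _ = 3 * (j * (Nat.log 2 (sz π) + 1)) + j * sxD S := by ring
    _ ≤ 3 * (j * (Nat.log 2 (sz π) + 1)) + sxD S * (j * (Nat.log 2 (sz π) + 1)) :=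
        Nat.add_le_add_left n7 _
    _ = (sxD S + 3) * j * (Nat.log 2 (sz π) + 1) := by ring

end Pool.Agent.H.MP_0447ec_lc.PS
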