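import Pool.Agent.H.MP_0447ec_lc.DY.Dual2
import Pool.Agent.H.MP_0447ec_lc.DY.SliceS
import Pool.Agent.H.MP_0447ec_lc.LV.SliceB
import Pool.Agent.H.MP_0447ec_lc.LV.BwB

/-!
# The rules given by tables that preserve the weight are simulated by the permutation rule
-/

namespace Pool.Agent.H.MP_0447ec_lc.PS

open Fm Pool.Agent.H.MP_0447ec_lc.PT

/-- The functions that are used. -/
structure FnK where
  /-- the slices -/
  g1 : List Fm × ℕ → List Fm
  /-- the slices of the formula with negated variables -/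
  g2 : List Fm × ℕ → List Fm
  /-- the dual proof -/
  g : List Fm → List Fm
  /-- from the slices to the permutation rule -/
  e : (ℕ × ℕ) × Fm × List (List Fm) × List (List Fm) → List Fm
  /-- a constant -/
  C1 : ℕ
  /-- a constant -/
  C2 : ℕ

namespace FnK

variable (q : FnK)

/-- The number of names for each register. -/
def k (π : List Fm) : ℕ :=
  q.C1 * (Nat.log 2 (sz π) + 1) + q.C2 * (Nat.log 2 (sz (q.g π)) + 1)
/-- A bound for the number of words. -/
def cap (π : List Fm) : ℕ := (2 * sz π) ^ q.C1 * (2 * sz (q.g π)) ^ q.C2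
def r (π : List Fm) : List ℕ := List.range (varList (lastF π)).length
def s1 (π : List Fm) : List (List Fm) := (r π).map (fun j => q.g1 (π, j + 1))
def s2 (π : List Fm) : List (List Fm) := (r π).map (fun j => q.g2 (q.g π, j + 1))
def out (π : List Fm) : List Fm := q.e ((q.k π, q.cap π), lastF π, q.s1 π, q.s2 π)

structure IsPoly : Prop where
  h1 : Poly q.g1
  h2 : Poly q.g2
  h : Poly q.g
  he : Poly q.e

variable {q}

theorem pk (h : q.IsPoly) : Poly q.k := by
  have := h.h
  have h1 : Poly (fun π : List Fm => Nat.log 2 (sz π)) := Poly.log2 (Poly.szOf (by fun_prop))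
  have h2 : Poly (fun π : List Fm => Nat.log 2 (sz (q.g π))) :=
    Poly.log2 (Poly.szOf (by fun_prop))
  unfold k; fun_prop
theorem pcap (h : q.IsPoly) : Poly q.cap := by
  have := h.h
  have h1 : Poly (fun π : List Fm => sz π) := Poly.szOf (by fun_prop)
  have h2 : Poly (fun π : List Fm => sz (q.g π)) := Poly.szOf (by fun_prop)
  unfold cap
  exact Poly.mul (Poly.powC (by fun_prop) _) (Poly.powC (by fun_prop) _)
theorem pr : Poly r := by unfold r; fun_prop
theorem ps1 (h : q.IsPoly) : Poly q.s1 := by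
  have := pr; have := h.h1
  unfold s1; fun_prop
theorem ps2 (h : q.IsPoly) : Poly q.s2 := by
  have := pr; have := h.h; have := h.h2
  unfold s2; fun_prop
theorem pout (h : q.IsPoly) : Poly q.out := by
  have := pk h; have := pcap h; have := ps1 h; have := ps2 h; have := h.he
  unfold out; fun_prop

end FnK

theorem two_pow_mul_log {s C : ℕ} (hs : 0 < s) : 2 ^ (C * (Nat.log 2 s + 1)) ≤ (2 * s) ^ C := by
  have h1 : 2 ^ (Nat.log 2 s + 1) ≤ 2 * s := by
    rw [pow_succ]
    have := Nat.pow_log_le_self 2 (x := s) (by omega)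
    omega
  rw [Nat.mul_comm, pow_mul]
  exact Nat.pow_le_pow_left h1 C

theorem perm_simulates_of_keep {F : List Rule} (hF : IsFrege F) {S : List (List (Nm × Fm))}
    (h : ∀ t ∈ S, ¬ Raises t ∧ ¬ Lowers t) : PSimulates (PermProof F) (TableProof F S) := by
  obtain ⟨C1, g1, hg1, hg1'⟩ := sliceS hF (S := S) (fun t ht => (h t ht).1)
  obtain ⟨C2, g2, hg2, hg2'⟩ := sliceS hF (S := S.map dualT) (by
    intro t ht
    obtain ⟨u, hu, rfl⟩ := List.mem_map.1 ht
    exact lowers_dualT (h u hu).2)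
  obtain ⟨g, hg, hg'⟩ := table_dual hF S
  obtain ⟨e, he, he'⟩ := sliceB hF
  let q : FnK := ⟨g1, g2, g, e, C1, C2⟩
  have hq : q.IsPoly := ⟨hg1, hg2, hg, he⟩
  rw [psim_iff]
  refine ⟨q.out, FnK.pout hq, ?_⟩
  intro A π hπ
  have hlast : lastF π = A := lastF_eq hπ.2
  have hneg : (varList (negVars A)).length = (varList A).length := by
    unfold negVars varList
    rw [nms_negv]
  unfold FnK.out
  rw [hlast]
  have l1 : (q.s1 π).length = (varList A).length := by simp [FnK.s1, FnK.r, hlast]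
  have l2 : (q.s2 π).length = (varList A).length := by simp [FnK.s2, FnK.r, hlast]
  refine he' A (q.k π) (q.cap π) (q.s1 π) (q.s2 π) ?_ l1 l2 ?_ ?_
  · unfold FnK.k FnK.cap
    rw [pow_add]
    exact Nat.mul_le_mul (two_pow_mul_log (sz_pos _)) (two_pow_mul_log (sz_pos _))
  · intro j hj
    have e1 : (q.s1 π)[j] = g1 (π, j + 1) := by
      simp [FnK.s1, FnK.r, q]
    rw [e1]
    obtain ⟨a1, a2⟩ := hg1' A π (j + 1) (by omega) hπ
    refine ⟨a1, a2.trans ?_⟩
    unfold FnK.k
    calc C1 * (j + 1) * (Nat.log 2 (sz π) + 1) = C1 * (Nat.log 2 (sz π) + 1) * (j + 1) := by ring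
      _ ≤ _ := Nat.mul_le_mul_right _ (Nat.le_add_right _ _)
  · intro j hj
    have e1 : (q.s2 π)[j] = g2 (g π, j + 1) := by
      simp [FnK.s2, FnK.r, q]
    rw [e1]
    obtain ⟨a1, a2⟩ := hg2' (negVars A) (g π) (j + 1) (by omega) (hg' A π hπ)
    refine ⟨a1, a2.trans ?_⟩
    unfold FnK.k
    calc C2 * (j + 1) * (Nat.log 2 (sz (g π)) + 1) =
        C2 * (Nat.log 2 (sz (g π)) + 1) * (j + 1) := by ring
      _ ≤ _ := Nat.mul_le_mul_right _ (Nat.le_add_left _ _)

end Pool.Agent.H.MP_0447ec_lc.PS
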