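import Pool.Agent.H.MP_0447ec_lc.DY.Tree
import Pool.Agent.H.MP_0447ec_lc.LV.Above

/-!
# Closure under restrictions
-/

namespace Pool.Agent.H.MP_0447ec_lc.PS

open Fm Pool.Agent.H.MP_0447ec_lc.PT

/-! ### Closure under derivations -/

theorem closedD_table (F : List Rule) (S : List (List (Nm × Fm))) :
    ClosedUnderDerivations F (TableProof F S) := by
  rw [closedDer_iff]
  refine ⟨fun x => cutAt (lastF x.2) (app x.1 x.2), by fun_prop, ?_⟩
  intro A B π σ hB hσ hA
  have hl : lastF σ = A := lastF_eq hA
  have hBπ : B ∈ π := List.mem_of_getLast? hB.2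
  have hm : Mono (fun τ C => C = B ∨ RuleStep F τ C) := by
    rintro τ τ' C hτ (h | h)
    · exact Or.inl h
    · exact Or.inr (mono_ruleStep F τ τ' C hτ h)
  have h1 : Just (fun τ C => C = B ∨ RuleStep F τ C) π σ := hσ.just hm π
  have h2 : ∀ {σ τ : List Fm}, B ∈ τ → Just (fun τ C => C = B ∨ RuleStep F τ C) τ σ →
      Just (FPT F S) τ σ := by
    intro σ
    induction σ with
    | nil => intro τ _ _; trivial
    | cons C σ ih =>
      rintro τ hτ ⟨h1, h2⟩
      refine ⟨?_, ih (List.mem_append_left _ hτ) h2⟩
      rcases h1 with h1 | h1 | h1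
      · exact Or.inl h1
      · exact Or.inl (h1 ▸ hτ)
      · exact Or.inr (Or.inl h1)
  have h3 := deriv_app (mono_FPT F S) hB.1 (h2 hBπ h1)
  have h4 := deriv_cutAt h3 (mem_app.2 (Or.inr (List.mem_of_getLast? hA)))
  simp only [hl]
  exact h4

/-! ### Nested implications -/

/-- The formula `R` under the premises given by the literals in `l`, the last one outside. -/
def nl (l : List (Nm × Bool)) (R : Fm) : Fm :=
  l.reverse.foldr (fun p X => imp (lit p.1 p.2) X) R

theorem nl_nil (R : Fm) : nl [] R = R := rfl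

theorem nl_snoc (l : List (Nm × Bool)) (p : Nm × Bool) (R : Fm) :
    nl (l ++ [p]) R = imp (lit p.1 p.2) (nl l R) := by
  unfold nl
  rw [List.reverse_append]
  rfl

theorem nl_eval {R : Fm} (hR : ∀ v, R.Eval v) (l : List (Nm × Bool)) (v : Nm → Prop) :
    (nl l R).Eval v := by
  induction l using List.reverseRecOn with
  | nil => exact hR v
  | append_singleton l p ih =>
    rw [nl_snoc]
    exact fun _ => ih

theorem nl_vars {R : Fm} {l : List (Nm × Bool)} {x : Nm} (h : x ∈ (nl l R).vars) :
    x ∈ l.map Prod.fst ∨ x ∈ R.vars := by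
  induction l using List.reverseRecOn with
  | nil => exact Or.inr h
  | append_singleton l p ih =>
    rw [nl_snoc] at h
    rw [List.map_append, List.mem_append]
    rcases h with h | h
    · rw [vars_lit] at h
      exact Or.inl (Or.inr (by rw [h]; simp))
    · rcases ih h with h | h
      · exact Or.inl (Or.inl h)
      · exact Or.inr h

/-- Lines that lead from `imp (cj d literals) R` to the nested implication. -/
def curL (d : Nm) (l : List (Nm × Bool)) (R : Fm) : List Fm :=
  (sp [] l).map (fun t => imp (cj d (t.2.2.map (fun p => lit p.1 p.2)))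
    (nl (t.1 ++ [t.2.1]) R)) ++ [nl l R]

theorem curL_just {G : List Rule} (hG : Rich G) {d : Nm} {l : List (Nm × Bool)} {R : Fm}
    {π : List Fm} (h : imp (cj d (l.map (fun p => lit p.1 p.2))) R ∈ π) :
    Just (RuleStep G) π (curL d l R) ∧ nl l R ∈ curL d l R := by
  refine ⟨?_, by simp [curL]⟩
  have key : ∀ (us pre : List (Nm × Bool)) (π : List Fm),
      imp (cj d (us.map (fun p => lit p.1 p.2))) (nl pre R) ∈ π →
      Just (RuleStep G) π ((sp pre us).map (fun t =>
        imp (cj d (t.2.2.map (fun p => lit p.1 p.2))) (nl (t.1 ++ [t.2.1]) R)) ++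
        [nl (pre ++ us) R]) := by
    intro us
    induction us with
    | nil =>
      intro pre π h
      refine ⟨Or.inr (hG.strip (H := var d) ?_), trivial⟩
      rw [List.append_nil]
      exact h
    | cons u us ih =>
      intro pre π h
      rw [sp, List.map_cons, List.cons_append]
      have e2 : pre ++ u :: us = (pre ++ [u]) ++ us := by simp
      refine ⟨Or.inr ?_, ?_⟩
      · show RuleStep G π (imp (cj d (us.map (fun p => lit p.1 p.2))) (nl (pre ++ [u]) R))
        rw [nl_snoc]
        exact hG.curry h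
      · rw [e2]
        exact ih (pre ++ [u]) _ (by simp)
  exact key l [] π h

theorem litsOf_cj_lit (d : Nm) (l : List (Nm × Bool)) :
    litsOf (cj d (l.map (fun p => lit p.1 p.2))) = l := by
  induction l with
  | nil => rfl
  | cons p l ih =>
    rw [List.map_cons, cj_cons, litsOf_and, litsOf_lit, ih]
    rfl

/-! ### Elimination of the premises -/

/-- Lines that eliminate the premises of a nested implication. -/
def elL (e1 e2 : Nm × Fm → List Fm) (l : List (Nm × Bool)) (R : Fm) : List Fm :=
  (sp [] l).reverse.flatMap (fun t => if t.2.1.2 = true then e1 (t.2.1.1, nl t.1 R)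
    else e2 (t.2.1.1, nl t.1 R))

theorem elL_just {G : List Rule} {S : List (List (Nm × Fm))} {e1 e2 : Nm × Fm → List Fm}
    (h1 : ∀ (u : Nm) (B : Fm) (π : List Fm), (∀ v, B.Eval v) →
      u ∉ B.vars → imp (lit u true) B ∈ π →
      Just (FPT G S) π (e1 (u, B)) ∧ B ∈ e1 (u, B))
    (h2 : ∀ (u : Nm) (B : Fm) (π : List Fm), (∀ v, B.Eval v) →
      u ∉ B.vars → imp (lit u false) B ∈ π →
      Just (FPT G S) π (e2 (u, B)) ∧ B ∈ e2 (u, B))
    {R : Fm} (hR : ∀ v, R.Eval v) {l : List (Nm × Bool)} {π : List Fm}
    (hn : (l.map Prod.fst).Nodup) (hl : ∀ x ∈ l.map Prod.fst, x ∉ R.vars) (h : nl l R ∈ π) :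
    Just (FPT G S) π (elL e1 e2 l R) ∧ R ∈ π ++ elL e1 e2 l R := by
  have key : ∀ (us pre : List (Nm × Bool)) (π : List Fm),
      ((pre ++ us).map Prod.fst).Nodup → (∀ x ∈ (pre ++ us).map Prod.fst, x ∉ R.vars) →
      nl (pre ++ us) R ∈ π →
      Just (FPT G S) π ((sp pre us).reverse.flatMap (fun t =>
        if t.2.1.2 = true then e1 (t.2.1.1, nl t.1 R) else e2 (t.2.1.1, nl t.1 R))) ∧
      nl pre R ∈ π ++ (sp pre us).reverse.flatMap (fun t =>
        if t.2.1.2 = true then e1 (t.2.1.1, nl t.1 R) else e2 (t.2.1.1, nl t.1 R)) := by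
    intro us
    induction us with
    | nil =>
      intro pre π _ _ h
      rw [List.append_nil] at h
      simpa [sp] using ⟨trivial, h⟩
    | cons u us ih =>
      intro pre π h3 h4 h
      have e : pre ++ u :: us = (pre ++ [u]) ++ us := by simp
      rw [e] at h3 h4 h
      obtain ⟨j, m⟩ := ih (pre ++ [u]) π h3 h4 h
      rw [nl_snoc] at m
      have hu1 : u.1 ∉ pre.map Prod.fst := by
        rw [List.map_append, List.map_append] at h3
        have h5 := List.Nodup.of_append_left h3
        rw [List.nodup_append] at h5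
        intro hc
        exact h5.2.2 _ hc _ (by simp) rfl
      have hu2 : u.1 ∉ R.vars := h4 _ (by simp)
      have hu : u.1 ∉ (nl pre R).vars := by
        intro hc
        rcases nl_vars hc with hc | hc
        · exact hu1 hc
        · exact hu2 hc
      have hstep : Just (FPT G S) (π ++ (sp (pre ++ [u]) us).reverse.flatMap (fun t =>
          if t.2.1.2 = true then e1 (t.2.1.1, nl t.1 R) else e2 (t.2.1.1, nl t.1 R)))
          (if u.2 = true then e1 (u.1, nl pre R) else e2 (u.1, nl pre R)) ∧
          nl pre R ∈ (if u.2 = true then e1 (u.1, nl pre R) else e2 (u.1, nl pre R)) := by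
        obtain ⟨u, b⟩ := u
        cases b with
        | true =>
          rw [if_pos rfl]
          exact h1 _ _ _ (nl_eval hR _) hu m
        | false =>
          rw [if_neg (by simp)]
          exact h2 _ _ _ (nl_eval hR _) hu m
      rw [sp, List.reverse_cons, List.flatMap_append, List.flatMap_singleton]
      refine ⟨Just.append j hstep.1, ?_⟩
      exact List.mem_append_right _ (List.mem_append_right _ hstep.2)
  have := key l [] π (by simpa using hn) (by simpa using hl) h
  exact this

/-! ### The restriction -/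

/-- The variables of `A` that are replaced by constants. -/
def loX (T U : List Nm) (A : Fm) : List Nm :=
  (dd (nms A)).filter (fun x => decide (x ∈ T) || decide (x ∈ U))

/-- The renaming of these variables to new ones. -/
def loR (N : ℕ) (T U : List Nm) (A : Fm) : List (Nm × Nm) :=
  (loX T U A).map (fun x => (x, fn N 0 x))

/-- The new variables with their values. -/
def loL (N : ℕ) (T U : List Nm) (A : Fm) : List (Nm × Bool) :=
  (loX T U A).map (fun x => (fn N 0 x, decide (x ∈ T)))

/-- The renamed formula. -/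
def loA (N : ℕ) (T U : List Nm) (A : Fm) : Fm :=
  A.subst (tsub ((loR N T U A).map (fun p => (p.1, var p.2))))

theorem mem_loX {T U : List Nm} {A : Fm} {x : Nm} :
    x ∈ loX T U A ↔ x ∈ A.vars ∧ (x ∈ T ∨ x ∈ U) := by
  unfold loX
  rw [List.mem_filter, mem_dd, mem_nms]
  simp

theorem loX_nodup (T U : List Nm) (A : Fm) : (loX T U A).Nodup := (nodup_dd _).filter _

theorem sm_loA {N : ℕ} {T U : List Nm} {A : Fm} :
    sm (loL N T U A) (loA N T U A) = sm (loL N T U A) (A.restrict T U) := by
  have hL : ((loL N T U A).map Prod.fst).Nodup := by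
    unfold loL
    rw [List.map_map]
    exact (loX_nodup T U A).map (fun x y hxy =>
      (fn_inj (show fn N 0 x = fn N 0 y from hxy)).2)
  rw [restrict_eq]
  unfold loA
  apply sm_subst
  intro x hx
  have e : (loR N T U A).map (fun p => (p.1, var p.2)) =
      (loX T U A).map (fun x => (x, var (fn N 0 x))) := by
    unfold loR
    rw [List.map_map]
    rfl
  by_cases h : x ∈ loX T U A
  · have h1 : tsub ((loR N T U A).map (fun p => (p.1, var p.2))) x = var (fn N 0 x) := by
      rw [e]
      apply tsub_of_mem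
      · exact List.mem_map_of_mem (f := fun x => (x, var (fn N 0 x))) h
      · rw [List.map_map]
        have : (Prod.fst ∘ fun x : Nm => (x, var (fn N 0 x))) = id := rfl
        rw [this, List.map_id]
        exact loX_nodup T U A
    rw [h1]
    have h2 : lk (loL N T U A) (fn N 0 x) = some (decide (x ∈ T)) := by
      have := lk_of_nodup hL (p := (fn N 0 x, decide (x ∈ T)))
        (List.mem_map_of_mem (f := fun x => (fn N 0 x, decide (x ∈ T))) h)
      exact this
    have h3 : sm (loL N T U A) (var (fn N 0 x)) = (some (decide (x ∈ T)), var []) := by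
      rw [sm_var]
      unfold smV
      rw [h2]
    rw [h3]
    rw [mem_loX] at h
    unfold cst
    by_cases hT : x ∈ T
    · rw [if_pos hT]
      have := sm_ct (loL N T U A) [] true
      rw [show tt = ct [] true from rfl, this]
      simp [hT]
    · rw [if_neg hT, if_pos (h.2.resolve_left hT)]
      have := sm_ct (loL N T U A) [] false
      rw [show ff = ct [] false from rfl, this]
      simp [hT]
  · have h1 : tsub ((loR N T U A).map (fun p => (p.1, var p.2))) x = var x := by
      rw [e]
      apply tsub_of_not_mem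
      rw [List.map_map]
      have : (Prod.fst ∘ fun x : Nm => (x, var (fn N 0 x))) = id := rfl
      rw [this, List.map_id]
      exact h
    rw [h1]
    have h2 : cst T U x = var x := by
      rw [mem_loX] at h
      unfold cst
      rw [if_neg (fun hc => h ⟨hx, Or.inl hc⟩), if_neg (fun hc => h ⟨hx, Or.inr hc⟩)]
    rw [h2]

/-- The lines after the proof of `A`. -/
def loT (r : List (Nm × Nm) × Fm → List Fm) (e1 e2 : Nm × Fm → List Fm) (N : ℕ)
    (T U : List Nm) (A : Fm) : List Fm :=
  r (loR N T U A, A) ++
    (li0 [] (cj [] ((loL N T U A).map (fun p => lit p.1 p.2))) (loA N T U A) (A.restrict T U) ++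
    (curL [] (loL N T U A) (A.restrict T U) ++ elL e1 e2 (loL N T U A) (A.restrict T U)))

section

variable {α : Type} [Enc α]

theorem sz_nl (l : List (Nm × Bool)) (R : Fm) :
    sz (l.foldr (fun p X => imp (lit p.1 p.2) X) R) ≤ sz R + 20 * sz l := by
  induction l with
  | nil => simp only [List.foldr_nil]; omega
  | cons p l ih =>
    rw [List.foldr_cons, sz_imp, sz_lcons]
    have h1 := sz_lit p.1 p.2
    have h2 : sz p = sz p.1 + sz p.2 + 1 := sz_prod _
    have h3 := sz_pos p.2
    have h4 := sz_pos p.1
    omega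

@[fun_prop]
theorem Poly.nl {l : α → List (Nm × Bool)} {R : α → Fm} (hl : Poly l) (hR : Poly R) :
    Poly (fun a => nl (l a) (R a)) := by
  unfold PS.nl
  refine Poly.foldr (f := fun p : α × Fm × (Nm × Bool) => imp (PS.lit p.2.2.1 p.2.2.2) p.2.1)
    (l := fun a => (l a).reverse) (s0 := R)
    (B := fun a => sz (R a) + 20 * sz ((l a).reverse))
    (by fun_prop) (by fun_prop) hR
    (hR.sz_le.add ((PBdd.const 20).mul (Poly.sz_le (by fun_prop)))) ?_
  intro a l₁ l₂ h
  have h1 := sz_nl l₂ (R a)
  have h2 : sz l₂ ≤ sz ((l a).reverse) := by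
    rw [h]; exact sz_sublist_le (List.sublist_append_right _ _)
  have h3 : l₂.foldr (fun b s => (fun p : α × Fm × (Nm × Bool) =>
      imp (PS.lit p.2.2.1 p.2.2.2) p.2.1) (a, s, b)) (R a) =
      l₂.foldr (fun p X => imp (PS.lit p.1 p.2) X) (R a) := rfl
  rw [h3]
  omega

@[fun_prop]
theorem Poly.curL {d : α → Nm} {l : α → List (Nm × Bool)} {R : α → Fm} (hd : Poly d)
    (hl : Poly l) (hR : Poly R) : Poly (fun a => curL (d a) (l a) (R a)) := by
  unfold PS.curL
  fun_prop

theorem Poly.elL {e1 e2 : Nm × Fm → List Fm} (h1 : Poly e1) (h2 : Poly e2)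
    {l : α → List (Nm × Bool)} {R : α → Fm} (hl : Poly l) (hR : Poly R) :
    Poly (fun a => elL e1 e2 (l a) (R a)) := by
  unfold PS.elL
  refine PT.Poly.flatMap (f := fun (a : α) (t : List (Nm × Bool) × (Nm × Bool) ×
    List (Nm × Bool)) => if t.2.1.2 = true then e1 (t.2.1.1, PS.nl t.1 (R a))
    else e2 (t.2.1.1, PS.nl t.1 (R a))) ?_ (by fun_prop)
  refine Poly.ifb (by fun_prop) ?_ ?_
  · exact Poly.comp h1 (by fun_prop)
  · exact Poly.comp h2 (by fun_prop)

@[fun_prop]
theorem Poly.loX {T U : α → List Nm} {A : α → Fm} (hT : Poly T) (hU : Poly U) (hA : Poly A) :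
    Poly (fun a => loX (T a) (U a) (A a)) := by
  unfold PS.loX
  fun_prop

@[fun_prop]
theorem Poly.loR {N : α → ℕ} {T U : α → List Nm} {A : α → Fm} (hN : Poly N) (hT : Poly T)
    (hU : Poly U) (hA : Poly A) : Poly (fun a => loR (N a) (T a) (U a) (A a)) := by
  unfold PS.loR
  fun_prop

@[fun_prop]
theorem Poly.loL {N : α → ℕ} {T U : α → List Nm} {A : α → Fm} (hN : Poly N) (hT : Poly T)
    (hU : Poly U) (hA : Poly A) : Poly (fun a => loL (N a) (T a) (U a) (A a)) := by
  unfold PS.loL
  fun_prop

@[fun_prop]
theorem Poly.loA {N : α → ℕ} {T U : α → List Nm} {A : α → Fm} (hN : Poly N) (hT : Poly T)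
    (hU : Poly U) (hA : Poly A) : Poly (fun a => loA (N a) (T a) (U a) (A a)) := by
  unfold PS.loA
  exact Poly.tsubst (by fun_prop) hA

@[fun_prop]
theorem Poly.restrict {T U : α → List Nm} {A : α → Fm} (hT : Poly T) (hU : Poly U)
    (hA : Poly A) : Poly (fun a => (A a).restrict (T a) (U a)) :=
  Poly.substCst hT hU hA

theorem Poly.loT {r : List (Nm × Nm) × Fm → List Fm} {e1 e2 : Nm × Fm → List Fm} (hr : Poly r)
    (h1 : Poly e1) (h2 : Poly e2) {N : α → ℕ} {T U : α → List Nm} {A : α → Fm} (hN : Poly N)
    (hT : Poly T) (hU : Poly U) (hA : Poly A) :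
    Poly (fun a => loT r e1 e2 (N a) (T a) (U a) (A a)) := by
  unfold PS.loT
  refine Poly.append (Poly.comp hr (by fun_prop)) (Poly.append ?_ (Poly.append (by fun_prop)
    (Poly.elL h1 h2 (by fun_prop) (by fun_prop))))
  fun_prop

end

/-- Closure under restrictions from renaming and the elimination of new literals. -/
theorem closedR_of_elim {F : List Rule} (hF : IsFrege F) {S : List (List (Nm × Fm))}
    {r : List (Nm × Nm) × Fm → List Fm} (hr : Poly r)
    (hr' : ∀ {G : List Rule}, Rich G → ∀ {C : Fm} {l : List (Nm × Nm)} {π : List Fm},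
      (l.map Prod.fst).Nodup → (l.map Prod.snd).Nodup →
      (∀ y ∈ l.map Prod.snd, y ∉ C.vars ∧ y ∉ l.map Prod.fst) →
      (∀ x ∈ l.map Prod.fst, x ∈ C.vars) → C ∈ π →
      Just (FP G) π (r (l, C)) ∧
        C.subst (tsub (l.map (fun p => (p.1, var p.2)))) ∈ r (l, C))
    (hE : ∀ b : Bool, ∃ e : Nm × Fm → List Fm, Poly e ∧
      ∀ (G : List Rule), Rich G → ∀ (u : Nm) (B : Fm) (π : List Fm), (∀ v, B.Eval v) →
      u ∉ B.vars → imp (lit u b) B ∈ π →
      Just (FPT G S) π (e (u, B)) ∧ B ∈ e (u, B)) :
    ClosedUnderRestrictions (TableProof F S) := by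
  obtain ⟨e1, p1, h1⟩ := hE true
  obtain ⟨e2, p2, h2⟩ := hE false
  obtain ⟨h, hp, hh⟩ := exists_finT hF S
  rw [closed_iff]
  refine ⟨fun x => fin1 h ((lastF x.2).restrict x.1.1 x.1.2)
    (x.2 ++ loT r e1 e2 (lenB x.2) x.1.1 x.1.2 (lastF x.2)), ?_, ?_⟩
  · exact poly_fin1 hp (by fun_prop) (Poly.append (by fun_prop)
      (Poly.loT hr p1 p2 (by fun_prop) (by fun_prop) (by fun_prop) (by fun_prop)))
  · intro A π T U hπ
    have hl : lastF π = A := lastF_eq hπ.2
    simp only [hl]
    obtain ⟨j0, m0⟩ := tableProof_just hπ []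
    have hA : ∀ v, A.Eval v :=
      table_sound hF (S := S) hπ.1 A (List.mem_of_getLast? hπ.2)
    have hR : ∀ v, (A.restrict T U).Eval v := by
      intro v
      rw [restrict_eq, Fm.eval_subst]
      exact hA _
    have hlen : ∀ x ∈ A.vars, x.length < lenB π := fun x hx =>
      lenB_spec (List.mem_of_getLast? hπ.2) hx
    have e1' : (loR (lenB π) T U A).map Prod.fst = loX T U A := by
      unfold loR
      rw [List.map_map]
      exact List.map_id _
    have e2' : (loR (lenB π) T U A).map Prod.snd = (loX T U A).map (fn (lenB π) 0) := by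
      unfold loR
      rw [List.map_map]
      rfl
    have e3' : (loL (lenB π) T U A).map Prod.fst = (loX T U A).map (fn (lenB π) 0) := by
      unfold loL
      rw [List.map_map]
      rfl
    have hnd : ((loX T U A).map (fn (lenB π) 0)).Nodup :=
      (loX_nodup T U A).map (fun x y hxy => (fn_inj hxy).2)
    have hfn : ∀ y ∈ (loX T U A).map (fn (lenB π) 0), lenB π < y.length := by
      intro y hy
      obtain ⟨x, -, rfl⟩ := List.mem_map.1 hy
      exact fn_length _ _ _
    obtain ⟨j1, m1⟩ := hr' (GG_rich F) (C := A) (l := loR (lenB π) T U A) (π := [] ++ π)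
      (by rw [e1']; exact loX_nodup T U A) (by rw [e2']; exact hnd) (by
        rw [e1', e2']
        intro y hy
        have h3 := hfn y hy
        refine ⟨fun hc => ?_, fun hc => ?_⟩
        · have := hlen y hc
          omega
        · have := hlen y (mem_loX.1 hc).1
          omega) (by
        rw [e1']
        intro x hx
        exact (mem_loX.1 hx).1) (List.mem_append_right _ m0)
    obtain ⟨j2, m2⟩ := li0_just (GG_rich F) (d := [])
      (H := cj [] ((loL (lenB π) T U A).map (fun p => lit p.1 p.2)))
      (A := loA (lenB π) T U A) (B := A.restrict T U)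
      (π := [] ++ π ++ r (loR (lenB π) T U A, A))
      (List.mem_append_right _ m1) (by rw [litsOf_cj_lit]; exact sm_loA)
    obtain ⟨j3, m3⟩ := curL_just (GG_rich F) (d := []) (l := loL (lenB π) T U A)
      (R := A.restrict T U) (List.mem_append_right
        ([] ++ π ++ r (loR (lenB π) T U A, A)) m2)
    obtain ⟨j4, m4⟩ := elL_just (h1 _ (GG_rich F)) (h2 _ (GG_rich F)) hR
      (l := loL (lenB π) T U A) (by rw [e3']; exact hnd) (by
        rw [e3']
        intro y hy hc
        have h3 := hfn y hy
        rcases vars_restrict hc with hc | hc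
        · have := hlen y hc
          omega
        · rw [hc] at h3
          simp at h3) (List.mem_append_right ([] ++ π ++ r (loR (lenB π) T U A, A) ++
            li0 [] (cj [] ((loL (lenB π) T U A).map (fun p => lit p.1 p.2)))
              (loA (lenB π) T U A) (A.restrict T U)) m3)
    apply hh
    · unfold loT
      exact Just.append j0 (Just.append (fpToFPT j1) (Just.append (toFPT j2)
        (Just.append (toFPT j3) j4)))
    · unfold loT
      rcases List.mem_append.1 m4 with m | m
      · simp only [List.mem_append] at m ⊢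
        tauto
      · simp only [List.mem_append] at m ⊢
        tauto

end Pool.Agent.H.MP_0447ec_lc.PS
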