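import Pool.Agent.H.MP_0447ec_lc.DY.AsmS
import Pool.Agent.H.MP_0447ec_lc.DY.Dual
import Pool.Agent.H.MP_0447ec_lc.DY.Low2
import Pool.Agent.H.MP_0447ec_lc.LV.AsmB2

/-!
# The dichotomy for the permutation rule and finitely many substitution rules
-/

namespace Pool.Agent.H.MP_0447ec_lc.PS

open Fm Pool.Agent.H.MP_0447ec_lc.PT

theorem dichotomy {F : List Rule} (hF : IsFrege F) (S : List (List (List Bool × Fm))) :
    PSimulates (TableProof F S) (ExtProof F) ↔
      ((∃ t ∈ S, Raises t) ∧ ∃ t ∈ S, Lowers t) ∨ PSimulates (PermProof F) (ExtProof F) := by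
  constructor
  · intro h
    by_cases h1 : ∃ t ∈ S, Raises t
    · by_cases h2 : ∃ t ∈ S, Lowers t
      · exact Or.inl ⟨h1, h2⟩
      · right
        push Not at h2
        refine asmB hF (ext_closedSub F) (asmS hF (S := S.map dualT) ?_ (ext_closedSub F)
          (simulates_dual hF h))
        intro t ht
        obtain ⟨t', ht', rfl⟩ := List.mem_map.1 ht
        exact lowers_dualT (h2 t' ht')
    · right
      push Not at h1
      exact asmB hF (ext_closedSub F) (asmS hF h1 (ext_closedSub F) h)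
  · rintro (⟨h1, h2⟩ | h)
    · exact simulates_of_moves hF h1 h2
    · rw [psim_iff] at h ⊢
      obtain ⟨f, hf, hf'⟩ := h
      refine ⟨f, hf, fun A π hπ => ⟨(hf' A π hπ).1.imp_step (fun _ _ h => h.imp id Or.inl),
        (hf' A π hπ).2⟩⟩

end Pool.Agent.H.MP_0447ec_lc.PS
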