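import Pool.Agent.H.MP_0447ec_lc.DY.OneMain

/-!
# Rules given by tables that are closed under negation of the variables
-/

namespace Pool.Agent.H.MP_0447ec_lc.PS

open Fm Pool.Agent.H.MP_0447ec_lc.PT

theorem table_conv {F : List Rule} (hF : IsFrege F) (S : List (List (Nm × Fm))) :
    ∃ e : Fm × List Fm → List Fm, Poly e ∧ ∀ (A B : Fm) (π : List Fm), TableProof F S A π →
      (∀ K, sm K A = sm K B) → TableProof F S B (e (B, π)) := by
  obtain ⟨h, hp, hh⟩ := exists_finT hF S
  refine ⟨fun x => fin1 h x.1 (omL (lastF x.2) x.1 x.2), ?_, ?_⟩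
  · refine poly_fin1 hp (by fun_prop) ?_
    unfold omL
    have e1 : Poly (fun x : Fm × List Fm => li0 [] (ct [] true) (lastF x.2) x.1) :=
      Poly.li0 (PT.Poly.const _) (PT.Poly.const _) (by fun_prop) (by fun_prop)
    exact Poly.append (by fun_prop) (Poly.append e1
      (Poly.lcons (by fun_prop) (PT.Poly.const [])))
  · intro A B π hπ hs
    have hl : lastF π = A := lastF_eq hπ.2
    simp only [hl]
    obtain ⟨j1, m1⟩ := tableProof_just hπ []
    obtain ⟨j2, m2⟩ := li0_just (GG_rich F) (d := []) (H := ct [] true) (A := A) (B := B)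
      (π := [] ++ π) (List.mem_append_right _ m1) (hs _)
    apply hh
    · exact Just.append j1 (Just.append (toFPT j2)
        ⟨Or.inr (Or.inl ((GG_rich F).strip (H := var []) (List.mem_append_right _ m2))), trivial⟩)
    · simp [omL]

theorem poly_rs1 {α : Type} [Enc α] (c : Bool) {X : α → List Nm} {A : α → Fm} (hX : Poly X)
    (hA : Poly A) : Poly (fun a => rs1 c (X a) (A a)) := by
  unfold rs1
  cases c
  · exact Poly.restrict (by simp only [Bool.false_eq_true, if_false]; fun_prop)
      (by simp only [Bool.false_eq_true, if_false]; fun_prop) (by fun_prop)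
  · exact Poly.restrict (by simp only [if_true]; fun_prop)
      (by simp only [if_true]; fun_prop) (by fun_prop)

section gen

variable {P : Fm → List Fm → Prop}
  (hl : ∀ (A : Fm) (π : List Fm), P A π → lastF π = A)
  (hc : ∃ e : Fm × List Fm → List Fm, Poly e ∧ ∀ (A B : Fm) (π : List Fm), P A π →
      (∀ K, sm K A = sm K B) → P B (e (B, π)))
  (hd : ∃ g : List Fm → List Fm, Poly g ∧ ∀ (A : Fm) (π : List Fm), P A π →
      P (negVars A) (g π))

include hl hc hd in
theorem gen_rs1_not {c : Bool}
    (h : ∃ g : List Nm × List Fm → List Fm, Poly g ∧ ∀ (A : Fm) (π : List Fm) (X : List Nm),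
      P A π → P (rs1 c X A) (g (X, π))) :
    ∃ g : List Nm × List Fm → List Fm, Poly g ∧ ∀ (A : Fm) (π : List Fm) (X : List Nm),
      P A π → P (rs1 (!c) X A) (g (X, π)) := by
  obtain ⟨g, hg, hg'⟩ := h
  obtain ⟨e, he, he'⟩ := hc
  obtain ⟨n, hn, hn'⟩ := hd
  refine ⟨fun x => e (rs1 (!c) x.1 (lastF x.2), n (g (x.1, n x.2))), ?_, ?_⟩
  · have h2 : Poly (fun x : List Nm × List Fm => rs1 (!c) x.1 (lastF x.2)) :=
      poly_rs1 (!c) (by fun_prop) (by fun_prop)
    exact Poly.comp he (Poly.pair h2 (Poly.comp hn (Poly.comp hg (Poly.pair (by fun_prop)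
      (Poly.comp hn (by fun_prop))))))
  · intro A π X hπ
    simp only [hl A π hπ]
    have h1 := hg' _ _ X (hn' _ _ hπ)
    exact he' _ _ _ (hn' _ _ h1) (fun K => sm_rs1_flp K c X A)

include hl hc hd in
theorem gen_closed {b : Bool}
    (h : ∃ g : List Nm × List Fm → List Fm, Poly g ∧ ∀ (A : Fm) (π : List Fm) (X : List Nm),
      P A π → P (rs1 b X A) (g (X, π))) :
    ClosedUnderRestrictions P := by
  have h2 := gen_rs1_not hl hc hd h
  have key : ∀ c : Bool, ∃ g : List Nm × List Fm → List Fm, Poly g ∧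
      ∀ (A : Fm) (π : List Fm) (X : List Nm), P A π → P (rs1 c X A) (g (X, π)) := by
    intro c
    by_cases hcb : c = b
    · rw [hcb]
      exact h
    · have : c = !b := by
        cases b <;> cases c <;> simp_all
      rw [this]
      exact h2
  obtain ⟨g1, p1, h1⟩ := key true
  obtain ⟨g2, p2, h2⟩ := key false
  obtain ⟨e, he, he'⟩ := hc
  rw [closed_iff]
  refine ⟨fun x => e ((lastF x.2).restrict x.1.1 x.1.2, g2 (x.1.2, g1 (x.1.1, x.2))), ?_, ?_⟩
  · exact Poly.comp he (Poly.pair (by fun_prop) (Poly.comp p2 (Poly.pair (by fun_prop)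
      (Poly.comp p1 (by fun_prop)))))
  · intro A π T U hπ
    simp only [hl A π hπ]
    exact he' _ _ _ (h2 _ _ U (h1 _ _ T hπ)) (fun K => sm_rs1_rs1 K T U A)

end gen

/-- A system with a rule that moves the weight and whose proofs can be dualized simulates extended
Frege. -/
theorem ext_of_dual_one {F : List Rule} (hF : IsFrege F) {S : List (List (Nm × Fm))} {b : Bool}
    {t : List (Nm × Fm)} (ht : t ∈ S) (hm : Moves b t)
    (hd : ∃ g : List Fm → List Fm, PT.Poly g ∧ ∀ (A : Fm) (π : List Fm), TableProof F S A π →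
      TableProof F S (negVars A) (g π)) : PSimulates (TableProof F S) (ExtProof F) :=
  above hF (gen_closed (fun _ _ hπ => lastF_eq hπ.2) (table_conv hF S) hd
    (restrict_one hF ht hm)) (closedD_table F S) (simulates_perm_table F S)

end Pool.Agent.H.MP_0447ec_lc.PS
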