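import Pool.Agent.H.MP_0447ec_lc.DY.Defs
import Pool.Agent.H.MP_0447ec_lc.LV.BwB
import Pool.Agent.H.MP_0447ec_lc.LV.SubTime

/-!
# Extended Frege simulates the rules given by tables
-/

namespace Pool.Agent.H.MP_0447ec_lc.PS

open Fm Pool.Agent.H.MP_0447ec_lc.PT

theorem PermStep.toSubst {π : List Fm} {B : Fm} (h : PermStep π B) : SubstStep π B := by
  obtain ⟨C, hC, ρ, -, rfl⟩ := h
  exact ⟨C, hC, _, rfl⟩

theorem TableStep.toSubst {S : List (List (List Bool × Fm))} {π : List Fm} {B : Fm}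
    (h : TableStep S π B) : SubstStep π B := by
  obtain ⟨C, hC, t, -, rfl⟩ := h
  exact ⟨C, hC, _, rfl⟩

theorem TableProof.toSubst {F : List Rule} {S : List (List (List Bool × Fm))} {A : Fm}
    {π : List Fm} (h : TableProof F S A π) : SubstProof F A π :=
  ⟨h.1.imp_step (fun _ _ h => h.imp id (fun h => h.elim PermStep.toSubst TableStep.toSubst)), h.2⟩

theorem ext_simulates_table {F : List Rule} (hF : IsFrege F)
    (S : List (List (List Bool × Fm))) : PSimulates (ExtProof F) (TableProof F S) := by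
  obtain ⟨g, hg, hg'⟩ := subst_to_narrow hF
  rw [psim_iff]
  exact ⟨g, hg, fun A π hπ => (hg' A π hπ.toSubst).ext⟩

theorem psim_trans {P Q R : Fm → List Fm → Prop} (h1 : PSimulates P Q) (h2 : PSimulates Q R) :
    PSimulates P R := by
  rw [psim_iff] at *
  obtain ⟨f, hf, hf'⟩ := h1
  obtain ⟨g, hg, hg'⟩ := h2
  exact ⟨fun π => f (g π), hf.comp hg, fun A π hπ => hf' _ _ (hg' _ _ hπ)⟩

end Pool.Agent.H.MP_0447ec_lc.PS
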