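import Pool.Agent.H.MP_0447ec_lc.DY.OneSim
import Pool.Agent.H.MP_0447ec_lc.DY.OneGen
import Pool.Agent.H.MP_0447ec_lc.DY.Keep
import Pool.Agent.H.MP_0447ec_lc.DY.DichT
import Pool.Agent.H.MP_0447ec_lc.DY.Up

/-!
# The classification of the finite extensions of the permutation rule by substitution rules
-/

namespace Pool.Agent.H.MP_0447ec_lc.PS

open Fm Pool.Agent.H.MP_0447ec_lc.PT

/-- If the rules of `S` simulate the rules of `S'` and some rule of `S'` moves the weight in a
direction in which no rule of `S` moves it then the permutation rule simulates extended Frege. -/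
theorem perm_simulates_of_moves {F : List Rule} (hF : IsFrege F) {S S' : List (List (Nm × Fm))}
    (h : PSimulates (TableProof F S) (TableProof F S'))
    (hs : ((∃ t ∈ S', Raises t) ∧ ¬ ∃ t ∈ S, Raises t) ∨
      ((∃ t ∈ S', Lowers t) ∧ ¬ ∃ t ∈ S, Lowers t)) : PSimulates (PermProof F) (ExtProof F) := by
  have fin : ∀ (b : Bool) (t : List (Nm × Fm)), t ∈ S → Moves b t →
      PSimulates (TableProof F S') (TableProof F (S.map dualT)) →
      PSimulates (TableProof F S) (ExtProof F) := by
    intro b t ht hm h2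
    obtain ⟨f, hf, hf'⟩ := psim_iff.1 (psim_trans h h2)
    obtain ⟨g, hg, hg'⟩ := table_dual hF S
    exact ext_of_dual_one hF ht hm ⟨fun π => f (g π), hf.comp hg,
      fun A π hπ => hf' _ _ (hg' _ _ hπ)⟩
  by_cases hr : ∃ t ∈ S, Raises t
  · have hl : (∃ t ∈ S', Lowers t) ∧ ¬ ∃ t ∈ S, Lowers t := by
      rcases hs with hs | hs
      · exact absurd hr hs.2
      · exact hs
    obtain ⟨t, ht, hrt⟩ := hr
    have h2 := fin true t ht ((raises_iff t).1 hrt) (lower_simulates hF hl.1 (by
      intro u hu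
      obtain ⟨w, hw, rfl⟩ := List.mem_map.1 hu
      exact lowers_dualT (fun hc => hl.2 ⟨w, hw, hc⟩)))
    rcases (dichotomy hF S).1 h2 with h3 | h3
    · exact absurd h3.2 hl.2
    · exact h3
  · by_cases hl : ∃ t ∈ S, Lowers t
    · have hr' : ∃ t ∈ S', Raises t := by
        rcases hs with hs | hs
        · exact hs.1
        · exact absurd hl hs.2
      obtain ⟨t, ht, hlt⟩ := hl
      have h2 := fin false t ht ((lowers_iff t).1 hlt) (raise_simulates hF hr' (by
        intro u hu
        obtain ⟨w, hw, rfl⟩ := List.mem_map.1 hu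
        exact raises_dualT (fun hc => hr ⟨w, hw, hc⟩)))
      rcases (dichotomy hF S).1 h2 with h3 | h3
      · exact absurd h3.1 hr
      · exact h3
    · have hk : ∀ t ∈ S, ¬ Raises t ∧ ¬ Lowers t := fun t ht =>
        ⟨fun hc => hr ⟨t, ht, hc⟩, fun hc => hl ⟨t, ht, hc⟩⟩
      have h2 := psim_trans (perm_simulates_of_keep hF hk) h
      rcases hs with ⟨⟨t, ht, hm⟩, -⟩ | ⟨⟨t, ht, hm⟩, -⟩
      · exact simulates_of_one hF ht ((raises_iff t).1 hm) h2
      · exact simulates_of_one hF ht ((lowers_iff t).1 hm) h2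

theorem classification {F : List Rule} (hF : IsFrege F) (S S' : List (List (List Bool × Fm))) :
    PSimulates (TableProof F S) (TableProof F S') ↔
      (((∃ t ∈ S', Raises t) → ∃ t ∈ S, Raises t) ∧
        ((∃ t ∈ S', Lowers t) → ∃ t ∈ S, Lowers t)) ∨
      PSimulates (PermProof F) (ExtProof F) := by
  constructor
  · intro h
    by_cases h1 : PSimulates (PermProof F) (ExtProof F)
    · exact Or.inr h1
    · left
      refine ⟨fun h2 => ?_, fun h2 => ?_⟩
      · by_contra h3
        exact h1 (perm_simulates_of_moves hF h (Or.inl ⟨h2, h3⟩))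
      · by_contra h3
        exact h1 (perm_simulates_of_moves hF h (Or.inr ⟨h2, h3⟩))
  · have hup := ext_simulates_table hF S'
    rintro (⟨h1, h2⟩ | h)
    · by_cases hr : ∃ t ∈ S, Raises t
      · by_cases hl : ∃ t ∈ S, Lowers t
        · exact psim_trans (simulates_of_moves hF hr hl) hup
        · exact raise_simulates hF hr (fun t ht hc => hl (h2 ⟨t, ht, hc⟩))
      · by_cases hl : ∃ t ∈ S, Lowers t
        · exact lower_simulates hF hl (fun t ht hc => hr (h1 ⟨t, ht, hc⟩))
        · exact psim_trans (simulates_perm_table F S) (perm_simulates_of_keep hF (fun t ht =>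
            ⟨fun hc => hr (h1 ⟨t, ht, hc⟩), fun hc => hl (h2 ⟨t, ht, hc⟩)⟩))
    · exact psim_trans (simulates_perm_table F S) (psim_trans h hup)

end Pool.Agent.H.MP_0447ec_lc.PS
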