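import Pool.Agent.H.MP_0447ec_lc.DY.One
import Pool.Agent.H.MP_0447ec_lc.LV.Slices

/-!
# From restrictions by one constant to the simulation of extended Frege
-/

namespace Pool.Agent.H.MP_0447ec_lc.PS

open Fm Pool.Agent.H.MP_0447ec_lc.PT

/-! ### Replacing a line by one with the same simplification -/

/-- The lines that are added. -/
def omL (A B : Fm) (π : List Fm) : List Fm := π ++ (li0 [] (ct [] true) A B ++ [B])

theorem perm_conv {F : List Rule} (hF : IsFrege F) :
    ∃ e : Fm × List Fm → List Fm, Poly e ∧ ∀ (A B : Fm) (π : List Fm), PermProof F A π →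
      (∀ K, sm K A = sm K B) → PermProof F B (e (B, π)) := by
  obtain ⟨h, hp, hh⟩ := exists_fin hF
  refine ⟨fun x => fin1 h x.1 (omL (lastF x.2) x.1 x.2), ?_, ?_⟩
  · refine poly_fin1 hp (by fun_prop) ?_
    unfold omL
    have e1 : Poly (fun x : Fm × List Fm => li0 [] (ct [] true) (lastF x.2) x.1) :=
      Poly.li0 (PT.Poly.const _) (PT.Poly.const _) (by fun_prop) (by fun_prop)
    exact Poly.append (by fun_prop) (Poly.append e1
      (Poly.lcons (by fun_prop) (PT.Poly.const [])))
  · intro A B π hπ hs
    have hl : lastF π = A := lastF_eq hπ.2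
    simp only [hl]
    obtain ⟨j1, m1⟩ := permProof_just hπ []
    obtain ⟨j2, m2⟩ := li0_just (GG_rich F) (d := []) (H := ct [] true) (A := A) (B := B)
      (π := [] ++ π) (List.mem_append_right _ m1) (hs _)
    apply hh
    · exact Just.append j1 (Just.append (toFP j2)
        ⟨Or.inr (Or.inl ((GG_rich F).strip (H := var []) (List.mem_append_right _ m2))), trivial⟩)
    · simp [omL]

/-! ### The other constant -/

/-- Restriction by the constant `c` for the variables in `X`. -/
def rs1 (c : Bool) (X : List Nm) (A : Fm) : Fm :=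
  A.restrict (if c then X else []) (if c then [] else X)

theorem rs1_eq (c : Bool) (X : List Nm) (A : Fm) :
    rs1 c X A = A.subst (fun w => if w ∈ X then (if c then tt else ff) else var w) := by
  unfold rs1
  rw [restrict_eq]
  congr 1
  funext w
  unfold cst
  cases c <;> simp

theorem sm_tt' (K : List (Nm × Bool)) : sm K tt = (some true, var []) := sm_imp_self rfl

theorem sm_ff' (K : List (Nm × Bool)) : sm K ff = (some false, var []) := by
  show smN (sm K tt) = _
  rw [sm_tt']
  rfl

theorem sm_tt_subst (K : List (Nm × Bool)) (s : Nm → Fm) :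
    sm K (tt.subst s) = (some true, var []) := sm_imp_self rfl

theorem sm_ff_subst (K : List (Nm × Bool)) (s : Nm → Fm) :
    sm K (ff.subst s) = (some false, var []) := by
  show smN (sm K (tt.subst s)) = _
  rw [sm_tt_subst]
  rfl

theorem smN_smN_smV (K : List (Nm × Bool)) (x : Nm) : smN (smN (smV K x)) = smV K x := by
  unfold smV
  cases lk K x with
  | none => rfl
  | some b => cases b <;> rfl

theorem sm_rs1_flp (K : List (Nm × Bool)) (c : Bool) (X : List Nm) (A : Fm) :
    sm K ((rs1 c X (A.subst flp)).subst flp) = sm K (rs1 (!c) X A) := by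
  rw [rs1_eq, rs1_eq, Fm.subst_subst, Fm.subst_subst]
  apply sm_subst
  intro x _
  show smN (sm K ((if x ∈ X then (if c then tt else ff) else var x).subst flp)) = _
  by_cases hx : x ∈ X
  · rw [if_pos hx, if_pos hx]
    cases c
    · simp only [Bool.false_eq_true, if_false, Bool.not_false, if_true]
      rw [sm_ff_subst, sm_tt']
      rfl
    · simp only [if_true, Bool.not_true, Bool.false_eq_true, if_false]
      rw [sm_tt_subst, sm_ff']
      rfl
  · rw [if_neg hx, if_neg hx]
    exact smN_smN_smV K x

theorem sm_rs1_rs1 (K : List (Nm × Bool)) (T U : List Nm) (A : Fm) :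
    sm K (rs1 false U (rs1 true T A)) = sm K (A.restrict T U) := by
  rw [rs1_eq, rs1_eq, Fm.subst_subst, restrict_eq]
  apply sm_subst
  intro x _
  unfold cst
  by_cases hx : x ∈ T
  · rw [if_pos hx, if_pos hx, if_pos rfl, sm_tt_subst, sm_tt']
  · rw [if_neg hx, if_neg hx]
    show sm K (if x ∈ U then (if false = true then tt else ff) else var x) = _
    simp only [Bool.false_eq_true, if_false]

/-- Restriction by one constant from restriction by the other one. -/
theorem perm_rs1_not {F : List Rule} (hF : IsFrege F) {c : Bool}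
    (h : ∃ g : List Nm × List Fm → List Fm, Poly g ∧ ∀ (A : Fm) (π : List Fm) (X : List Nm),
      PermProof F A π → PermProof F (rs1 c X A) (g (X, π))) :
    ∃ g : List Nm × List Fm → List Fm, Poly g ∧ ∀ (A : Fm) (π : List Fm) (X : List Nm),
      PermProof F A π → PermProof F (rs1 (!c) X A) (g (X, π)) := by
  obtain ⟨g, hg, hg'⟩ := h
  obtain ⟨e, he, he'⟩ := perm_conv hF
  refine ⟨fun x => e (rs1 (!c) x.1 (lastF x.2),
    (g (x.1, x.2.map (Fm.subst flp))).map (Fm.subst flp)), ?_, ?_⟩
  · have h1 : ∀ {p : List Nm × List Fm → List Fm}, Poly p →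
        Poly (fun x : List Nm × List Fm => (p x).map (Fm.subst flp)) := fun hp =>
      PT.Poly.map (f := fun (_ : List Nm × List Fm) (C : Fm) => C.subst flp)
        (Poly.flpSubst Poly.snd) hp
    have h2 : Poly (fun x : List Nm × List Fm => rs1 (!c) x.1 (lastF x.2)) := by
      unfold rs1
      cases c
      · exact Poly.restrict (by simp only [Bool.not_false, if_true]; fun_prop)
          (by simp only [Bool.not_false, if_true]; fun_prop) (by fun_prop)
      · exact Poly.restrict (by simp only [Bool.not_true, Bool.false_eq_true, if_false]; fun_prop)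
          (by simp only [Bool.not_true, Bool.false_eq_true, if_false]; fun_prop) (by fun_prop)
    exact Poly.comp he (Poly.pair h2 (h1 (Poly.comp hg (Poly.pair (by fun_prop)
      (h1 (by fun_prop))))))
  · intro A π X hπ
    have hl : lastF π = A := lastF_eq hπ.2
    simp only [hl]
    have h1 := hg' _ _ X (sl_negVars_proof hπ)
    exact he' _ _ _ (sl_negVars_proof h1) (fun K => sm_rs1_flp K c X A)

theorem perm_rs1_all {F : List Rule} (hF : IsFrege F) {b : Bool}
    (h : ∃ g : List Nm × List Fm → List Fm, Poly g ∧ ∀ (A : Fm) (π : List Fm) (X : List Nm),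
      PermProof F A π → PermProof F (rs1 b X A) (g (X, π))) (c : Bool) :
    ∃ g : List Nm × List Fm → List Fm, Poly g ∧ ∀ (A : Fm) (π : List Fm) (X : List Nm),
      PermProof F A π → PermProof F (rs1 c X A) (g (X, π)) := by
  by_cases hc : c = b
  · rw [hc]
    exact h
  · have : c = !b := by
      cases b <;> cases c <;> simp_all
    rw [this]
    exact perm_rs1_not hF h

/-- Closure under restrictions from restrictions by one constant. -/
theorem closed_of_rs1 {F : List Rule} (hF : IsFrege F) {b : Bool}
    (h : ∃ g : List Nm × List Fm → List Fm, Poly g ∧ ∀ (A : Fm) (π : List Fm) (X : List Nm),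
      PermProof F A π → PermProof F (rs1 b X A) (g (X, π))) :
    ClosedUnderRestrictions (PermProof F) := by
  obtain ⟨g1, p1, h1⟩ := perm_rs1_all hF h true
  obtain ⟨g2, p2, h2⟩ := perm_rs1_all hF h false
  obtain ⟨e, he, he'⟩ := perm_conv hF
  rw [closed_iff]
  refine ⟨fun x => e ((lastF x.2).restrict x.1.1 x.1.2, g2 (x.1.2, g1 (x.1.1, x.2))), ?_, ?_⟩
  · exact Poly.comp he (Poly.pair (by fun_prop) (Poly.comp p2 (Poly.pair (by fun_prop)
      (Poly.comp p1 (by fun_prop)))))
  · intro A π T U hπ
    have hl : lastF π = A := lastF_eq hπ.2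
    simp only [hl]
    exact he' _ _ _ (h2 _ _ U (h1 _ _ T hπ)) (fun K => sm_rs1_rs1 K T U A)

/-- The simulation of extended Frege from restrictions by one constant. -/
theorem simulates_of_restrict {F : List Rule} (hF : IsFrege F) {S : List (List (Nm × Fm))}
    {b : Bool}
    (h1 : ∃ g : List Nm × List Fm → List Fm, Poly g ∧ ∀ (A : Fm) (π : List Fm) (X : List Nm),
      TableProof F S A π →
      TableProof F S (A.restrict (if b then X else []) (if b then [] else X)) (g (X, π)))
    (h : PSimulates (PermProof F) (TableProof F S)) : PSimulates (PermProof F) (ExtProof F) := by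
  apply simulates_of_closed hF
  apply closed_of_rs1 hF (b := b)
  obtain ⟨g, hg, hg'⟩ := h1
  rw [psim_iff] at h
  obtain ⟨f, hf, hf'⟩ := h
  refine ⟨fun x => f (g x), Poly.comp hf hg, ?_⟩
  intro A π X hπ
  exact hf' _ _ (hg' A π X ⟨hπ.1.imp_step (fun _ _ h => h.imp id Or.inl), hπ.2⟩)

/-- If the permutation rule simulates the rules given by `S` and one of them raises or lowers the
number of the true variables, then the permutation rule simulates extended Frege. -/
theorem simulates_of_one {F : List Rule} (hF : IsFrege F) {S : List (List (Nm × Fm))} {b : Bool}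
    {t : List (Nm × Fm)} (ht : t ∈ S) (hm : Moves b t)
    (h : PSimulates (PermProof F) (TableProof F S)) : PSimulates (PermProof F) (ExtProof F) :=
  simulates_of_restrict hF (restrict_one hF ht hm) h

end Pool.Agent.H.MP_0447ec_lc.PS
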