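import Pool.Agent.H.MP_0447ec_lc.DY.Keep
import Pool.Agent.H.MP_0447ec_lc.DY.OneMain
import Pool.Agent.H.MP_0447ec_lc.DY.Up

/-!
# The rules given by tables that the permutation rule simulates
-/

namespace Pool.Agent.H.MP_0447ec_lc.PS

open Fm Pool.Agent.H.MP_0447ec_lc.PT

theorem keep_dichotomy {F : List Rule} (hF : IsFrege F) (S : List (List (List Bool × Fm))) :
    PSimulates (PermProof F) (TableProof F S) ↔
      (∀ t ∈ S, ¬ Raises t ∧ ¬ Lowers t) ∨ PSimulates (PermProof F) (ExtProof F) := by
  constructor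
  · intro h
    by_cases h1 : ∀ t ∈ S, ¬ Raises t ∧ ¬ Lowers t
    · exact Or.inl h1
    · right
      push Not at h1
      obtain ⟨t, ht, h2⟩ := h1
      by_cases h3 : Raises t
      · exact simulates_of_one hF ht ((raises_iff t).1 h3) h
      · exact simulates_of_one hF ht ((lowers_iff t).1 (h2 h3)) h
  · rintro (h | h)
    · exact perm_simulates_of_keep hF h
    · exact psim_trans h (ext_simulates_table hF S)

end Pool.Agent.H.MP_0447ec_lc.PS
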