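import Pool.Agent.H.MP_0447ec_lc.DY.Low2

/-!
# Restrictions to one constant
-/

namespace Pool.Agent.H.MP_0447ec_lc.PS

open Fm Pool.Agent.H.MP_0447ec_lc.PT

/-- Elimination of premises that are all of one sign. -/
theorem elL_one {G : List Rule} {S : List (List (Nm × Fm))} {e : Nm × Fm → List Fm} {b : Bool}
    (h1 : ∀ (u : Nm) (B : Fm) (π : List Fm), (∀ v, B.Eval v) →
      u ∉ B.vars → imp (lit u b) B ∈ π →
      Just (FPT G S) π (e (u, B)) ∧ B ∈ e (u, B))
    {R : Fm} (hR : ∀ v, R.Eval v) {l : List (Nm × Bool)} {π : List Fm}
    (hb : ∀ p ∈ l, p.2 = b)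
    (hn : (l.map Prod.fst).Nodup) (hl : ∀ x ∈ l.map Prod.fst, x ∉ R.vars) (h : nl l R ∈ π) :
    Just (FPT G S) π (elL e e l R) ∧ R ∈ π ++ elL e e l R := by
  have key : ∀ (us pre : List (Nm × Bool)) (π : List Fm),
      (∀ p ∈ pre ++ us, p.2 = b) →
      ((pre ++ us).map Prod.fst).Nodup → (∀ x ∈ (pre ++ us).map Prod.fst, x ∉ R.vars) →
      nl (pre ++ us) R ∈ π →
      Just (FPT G S) π ((sp pre us).reverse.flatMap (fun t =>
        if t.2.1.2 = true then e (t.2.1.1, nl t.1 R) else e (t.2.1.1, nl t.1 R))) ∧
      nl pre R ∈ π ++ (sp pre us).reverse.flatMap (fun t =>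
        if t.2.1.2 = true then e (t.2.1.1, nl t.1 R) else e (t.2.1.1, nl t.1 R)) := by
    intro us
    induction us with
    | nil =>
      intro pre π _ _ _ h
      rw [List.append_nil] at h
      simpa [sp] using ⟨trivial, h⟩
    | cons u us ih =>
      intro pre π h0 h3 h4 h
      have e' : pre ++ u :: us = (pre ++ [u]) ++ us := by simp
      have hu0 : u.2 = b := h0 u (by simp)
      rw [e'] at h0 h3 h4 h
      obtain ⟨j, m⟩ := ih (pre ++ [u]) π h0 h3 h4 h
      rw [nl_snoc] at m
      have hu1 : u.1 ∉ pre.map Prod.fst := by
        rw [List.map_append, List.map_append] at h3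
        have h5 := List.Nodup.of_append_left h3
        rw [List.nodup_append] at h5
        intro hc
        exact h5.2.2 _ hc _ (by simp) rfl
      have hu2 : u.1 ∉ R.vars := h4 _ (by simp)
      have hu : u.1 ∉ (nl pre R).vars := by
        intro hc
        rcases nl_vars hc with hc | hc
        · exact hu1 hc
        · exact hu2 hc
      rw [hu0] at m
      have hstep := h1 _ _ _ (nl_eval hR _) hu m
      rw [sp, List.reverse_cons, List.flatMap_append, List.flatMap_singleton]
      have e2 : (if u.2 = true then e (u.1, nl pre R) else e (u.1, nl pre R)) =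
          e (u.1, nl pre R) := ite_self _
      refine ⟨Just.append j ?_, ?_⟩
      · show Just _ _ (if u.2 = true then e (u.1, nl pre R) else e (u.1, nl pre R))
        rw [e2]
        exact hstep.1
      · refine List.mem_append_right _ (List.mem_append_right _ ?_)
        show _ ∈ (if u.2 = true then e (u.1, nl pre R) else e (u.1, nl pre R))
        rw [e2]
        exact hstep.2
  have := key l [] π (by simpa using hb) (by simpa using hn) (by simpa using hl) h
  exact this

/-- With a table that moves weights one way, the new variables can be set to one constant. -/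
theorem restrict_one {F : List Rule} (hF : IsFrege F) {S : List (List (Nm × Fm))} {b : Bool}
    {t : List (Nm × Fm)} (ht : t ∈ S) (hm : Moves b t) :
    ∃ g : List Nm × List Fm → List Fm, PT.Poly g ∧ ∀ (A : Fm) (π : List Fm) (X : List Nm),
      TableProof F S A π →
      TableProof F S (A.restrict (if b then X else []) (if b then [] else X)) (g (X, π)) := by
  obtain ⟨e, p1, h1⟩ := elim_tab ht hm
  obtain ⟨h, hp, hh⟩ := exists_finT hF S
  refine ⟨fun x => fin1 h ((lastF x.2).restrict (if b then x.1 else []) (if b then [] else x.1))
    (x.2 ++ loT renB e e (lenB x.2) (if b then x.1 else []) (if b then [] else x.1)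
      (lastF x.2)), ?_, ?_⟩
  · have hT : PT.Poly (fun x : List Nm × List Fm => if b then x.1 else []) := by
      cases b with
      | true => simp only [if_true]; fun_prop
      | false => simp only [Bool.false_eq_true, if_false]; fun_prop
    have hU : PT.Poly (fun x : List Nm × List Fm => if b then [] else x.1) := by
      cases b with
      | true => simp only [if_true]; fun_prop
      | false => simp only [Bool.false_eq_true, if_false]; fun_prop
    exact poly_fin1 hp (Poly.restrict hT hU (by fun_prop)) (Poly.append (by fun_prop)
      (Poly.loT poly_renB p1 p1 (by fun_prop) hT hU (by fun_prop)))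
  · intro A π X hπ
    have hl : lastF π = A := lastF_eq hπ.2
    simp only [hl]
    have hval : ∀ p ∈ loL (lenB π) (if b then X else []) (if b then [] else X) A, p.2 = b := by
      intro p hp
      unfold loL at hp
      obtain ⟨x, hx, rfl⟩ := List.mem_map.1 hp
      have h2 := (mem_loX.1 hx).2
      cases b with
      | true => simpa using h2
      | false => simp
    generalize (if b then X else []) = T at hval ⊢
    generalize (if b then [] else X) = U at hval ⊢
    obtain ⟨j0, m0⟩ := tableProof_just hπ []
    have hA : ∀ v, A.Eval v :=
      table_sound hF (S := S) hπ.1 A (List.mem_of_getLast? hπ.2)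
    have hR : ∀ v, (A.restrict T U).Eval v := by
      intro v
      rw [restrict_eq, Fm.eval_subst]
      exact hA _
    have hlen : ∀ x ∈ A.vars, x.length < lenB π := fun x hx =>
      lenB_spec (List.mem_of_getLast? hπ.2) hx
    have e1' : (loR (lenB π) T U A).map Prod.fst = loX T U A := by
      unfold loR
      rw [List.map_map]
      exact List.map_id _
    have e2' : (loR (lenB π) T U A).map Prod.snd = (loX T U A).map (fn (lenB π) 0) := by
      unfold loR
      rw [List.map_map]
      rfl
    have e3' : (loL (lenB π) T U A).map Prod.fst = (loX T U A).map (fn (lenB π) 0) := by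
      unfold loL
      rw [List.map_map]
      rfl
    have hnd : ((loX T U A).map (fn (lenB π) 0)).Nodup :=
      (loX_nodup T U A).map (fun x y hxy => (fn_inj hxy).2)
    have hfn : ∀ y ∈ (loX T U A).map (fn (lenB π) 0), lenB π < y.length := by
      intro y hy
      obtain ⟨x, -, rfl⟩ := List.mem_map.1 hy
      exact fn_length _ _ _
    obtain ⟨j1, m1⟩ := renB_just (GG_rich F) (C := A) (l := loR (lenB π) T U A) (π := [] ++ π)
      (by rw [e1']; exact loX_nodup T U A) (by rw [e2']; exact hnd) (by
        rw [e1', e2']
        intro y hy
        have h3 := hfn y hy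
        refine ⟨fun hc => ?_, fun hc => ?_⟩
        · have := hlen y hc
          omega
        · have := hlen y (mem_loX.1 hc).1
          omega) (by
        rw [e1']
        intro x hx
        exact (mem_loX.1 hx).1) (List.mem_append_right _ m0)
    obtain ⟨j2, m2⟩ := li0_just (GG_rich F) (d := [])
      (H := cj [] ((loL (lenB π) T U A).map (fun p => lit p.1 p.2)))
      (A := loA (lenB π) T U A) (B := A.restrict T U)
      (π := [] ++ π ++ renB (loR (lenB π) T U A, A))
      (List.mem_append_right _ m1) (by rw [litsOf_cj_lit]; exact sm_loA)
    obtain ⟨j3, m3⟩ := curL_just (GG_rich F) (d := []) (l := loL (lenB π) T U A)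
      (R := A.restrict T U) (List.mem_append_right
        ([] ++ π ++ renB (loR (lenB π) T U A, A)) m2)
    obtain ⟨j4, m4⟩ := elL_one (h1 _ (GG_rich F)) hR
      (l := loL (lenB π) T U A) hval (by rw [e3']; exact hnd) (by
        rw [e3']
        intro y hy hc
        have h3 := hfn y hy
        rcases vars_restrict hc with hc | hc
        · have := hlen y hc
          omega
        · rw [hc] at h3
          simp at h3) (List.mem_append_right ([] ++ π ++ renB (loR (lenB π) T U A, A) ++
            li0 [] (cj [] ((loL (lenB π) T U A).map (fun p => lit p.1 p.2)))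
              (loA (lenB π) T U A) (A.restrict T U)) m3)
    apply hh
    · unfold loT
      exact Just.append j0 (Just.append (fpToFPT j1) (Just.append (toFPT j2)
        (Just.append (toFPT j3) j4)))
    · unfold loT
      rcases List.mem_append.1 m4 with m | m
      · simp only [List.mem_append] at m ⊢
        tauto
      · simp only [List.mem_append] at m ⊢
        tauto

end Pool.Agent.H.MP_0447ec_lc.PS
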