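import Pool.Agent.H.MP_0447ec_lc.DY.Dual2
import Pool.Agent.H.MP_0447ec_lc.DY.SliceS
import Pool.Agent.H.MP_0447ec_lc.DY.ElimL
import Pool.Agent.H.MP_0447ec_lc.DY.HalfB
import Pool.Agent.H.MP_0447ec_lc.LV.BwB

/-!
# The rules given by tables that move the weight in one direction only
-/

namespace Pool.Agent.H.MP_0447ec_lc.PS

open Fm Pool.Agent.H.MP_0447ec_lc.PT

theorem two_pow_mul_log' {s C : ℕ} (hs : 0 < s) : 2 ^ (C * (Nat.log 2 s + 1)) ≤ (2 * s) ^ C := by
  have h1 : 2 ^ (Nat.log 2 s + 1) ≤ 2 * s := by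
    rw [pow_succ]
    have := Nat.pow_log_le_self 2 (x := s) (by omega)
    omega
  rw [Nat.mul_comm, pow_mul]
  exact Nat.pow_le_pow_left h1 C

theorem poly_log_sz : Poly (fun π : List Fm => Nat.log 2 (sz π)) :=
  Poly.log2 (Poly.szOf (by fun_prop))

/-- From lines that are justified with the rules `GG (GG F)` to a proof. -/
theorem exists_finT2 {F : List Rule} (hF : IsFrege F) (S : List (List (Nm × Fm))) :
    ∃ h : List Fm → List Fm, Poly h ∧ ∀ (B : Fm) (σ : List Fm), Just (FPT (GG (GG F)) S) [] σ →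
      B ∈ σ → TableProof F S B (fin1 h B σ) := by
  obtain ⟨h, hp, hh⟩ := robust hF (GG_sound (isFrege_GG hF))
  refine ⟨h, hp, ?_⟩
  intro B σ hσ hB
  have hD := deriv_app (mono_FPT (GG (GG F)) S) Deriv.nil hσ
  obtain ⟨d1, d2⟩ := deriv_cutAt hD (mem_app.2 (Or.inr hB))
  obtain ⟨h1, h2, -⟩ := hh (PT2 S) (mono_PT2 S) _ _ d1 d2
  exact ⟨h1, h2⟩

/-- The functions that are used. -/
structure FnO where
  /-- the slices -/
  g1 : List Fm × ℕ → List Fm
  /-- the proof that is sliced -/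
  g : List Fm → List Fm
  /-- the lines with premises -/
  f : (ℕ × ℕ) × Fm × List (List Fm) → List Fm
  /-- the premises -/
  z : (ℕ × ℕ) × Fm → List Nm
  /-- the elimination of the premises -/
  e : Nm × List Nm × Fm → List Fm
  /-- the proof from the lines -/
  h : List Fm → List Fm
  /-- a constant -/
  C1 : ℕ

namespace FnO

variable (q : FnO)

/-- The number of names for each register. -/
def k (π : List Fm) : ℕ := q.C1 * (Nat.log 2 (sz (q.g π)) + 1)
/-- A bound for the number of words. -/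
def cap (π : List Fm) : ℕ := (2 * sz (q.g π)) ^ q.C1
def r (π : List Fm) : List ℕ := List.range (varList (lastF π)).length
def s1 (π : List Fm) : List (List Fm) := (r π).map (fun j => q.g1 (q.g π, j + 1))
def l1 (π : List Fm) : List Fm := q.f ((q.k π, q.cap π), lastF π, q.s1 π)
def l2 (π : List Fm) : List Fm := q.e (hfD (lastF π), q.z ((q.k π, q.cap π), lastF π), lastF π)
def out (π : List Fm) : List Fm := fin1 q.h (lastF π) (q.l1 π ++ q.l2 π)

structure IsPoly : Prop where
  h1 : Poly q.g1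
  hg : Poly q.g
  hf : Poly q.f
  hz : Poly q.z
  he : Poly q.e
  hh : Poly q.h

variable {q}

theorem pk (h : q.IsPoly) : Poly q.k := by
  have := h.hg
  have h2 : Poly (fun π : List Fm => Nat.log 2 (sz (q.g π))) := Poly.log2 (Poly.szOf (by fun_prop))
  unfold k; fun_prop
theorem pcap (h : q.IsPoly) : Poly q.cap := by
  have := h.hg
  have h1 : Poly (fun π : List Fm => sz (q.g π)) := Poly.szOf (by fun_prop)
  unfold cap
  exact Poly.powC (by fun_prop) _
theorem pr : Poly r := by unfold r; fun_prop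
theorem ps1 (h : q.IsPoly) : Poly q.s1 := by
  have := pr; have := h.hg; have := h.h1
  unfold s1; fun_prop
theorem pl1 (h : q.IsPoly) : Poly q.l1 := by
  have := pk h; have := pcap h; have := ps1 h; have := h.hf
  unfold l1; fun_prop
theorem phfD : Poly hfD := by
  unfold hfD; fun_prop
theorem pl2 (h : q.IsPoly) : Poly q.l2 := by
  have := pk h; have := pcap h; have := phfD; have := h.hz; have := h.he
  unfold l2; fun_prop
theorem pout (h : q.IsPoly) : Poly q.out := by
  have := pl1 h; have := pl2 h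
  unfold out
  exact poly_fin1 h.hh (by fun_prop) (by fun_prop)

end FnO

/-- A rule that lowers the weight simulates all rules that do not raise it. -/
theorem lower_simulates {F : List Rule} (hF : IsFrege F) {S S' : List (List (Nm × Fm))}
    (h : ∃ t ∈ S, Lowers t) (h' : ∀ t ∈ S', ¬ Raises t) :
    PSimulates (TableProof F S) (TableProof F S') := by
  obtain ⟨t, ht, hlt⟩ := h
  obtain ⟨C1, g1, hg1, hg1'⟩ := sliceS hF h'
  obtain ⟨f, z, hf, hz, hfz⟩ := half_main hF
  obtain ⟨e, he, he'⟩ := elim_list ht ((lowers_iff t).1 hlt)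
  obtain ⟨w, hw, hw'⟩ := exists_finT2 hF S
  let q : FnO := ⟨g1, fun π => π, f, z, e, w, C1⟩
  have hq : q.IsPoly := ⟨hg1, Poly.id, hf, hz, he, hw⟩
  rw [psim_iff]
  refine ⟨q.out, FnO.pout hq, ?_⟩
  intro A π hπ
  have hlast : lastF π = A := lastF_eq hπ.2
  have hA : ∀ v, A.Eval v := table_sound hF hπ.1 A (List.mem_of_getLast? hπ.2)
  have l1 : (q.s1 π).length = (varList A).length := by simp [FnO.s1, FnO.r, hlast]
  obtain ⟨z1, z2, j1, m1⟩ := hfz A (q.k π) (q.cap π) (q.s1 π)
    (two_pow_mul_log' (sz_pos _)) l1 (by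
      intro j hj
      have e1 : (q.s1 π)[j] = g1 (π, j + 1) := by
        simp [FnO.s1, FnO.r, q]
      rw [e1]
      obtain ⟨a1, a2⟩ := hg1' A π (j + 1) (by omega) hπ
      refine ⟨a1, a2.trans (le_of_eq ?_)⟩
      show C1 * (j + 1) * (Nat.log 2 (sz π) + 1) = C1 * (Nat.log 2 (sz π) + 1) * (j + 1)
      ring)
  obtain ⟨j2, m2⟩ := he' (GG (GG F)) (GG_rich _) (hfD A) _ A _ hA z1 z2 m1
  unfold FnO.out FnO.l1 FnO.l2
  rw [hlast]
  exact hw' A _ (Just.append (fpToFPT j1) j2) (List.mem_append_right _ m2)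

/-- A rule that raises the weight simulates all rules that do not lower it. -/
theorem raise_simulates {F : List Rule} (hF : IsFrege F) {S S' : List (List (Nm × Fm))}
    (h : ∃ t ∈ S, Raises t) (h' : ∀ t ∈ S', ¬ Lowers t) :
    PSimulates (TableProof F S) (TableProof F S') := by
  obtain ⟨t, ht, hrt⟩ := h
  obtain ⟨C1, g1, hg1, hg1'⟩ := sliceS hF (S := S'.map dualT) (by
    intro t ht
    obtain ⟨u, hu, rfl⟩ := List.mem_map.1 ht
    exact lowers_dualT (h' u hu))
  obtain ⟨g, hg, hg'⟩ := table_dual hF S'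
  obtain ⟨f, z, hf, hz, hfz⟩ := half_main_neg hF
  obtain ⟨e, he, he'⟩ := elim_list ht ((raises_iff t).1 hrt)
  obtain ⟨w, hw, hw'⟩ := exists_finT2 hF S
  let q : FnO := ⟨g1, g, f, z, e, w, C1⟩
  have hq : q.IsPoly := ⟨hg1, hg, hf, hz, he, hw⟩
  rw [psim_iff]
  refine ⟨q.out, FnO.pout hq, ?_⟩
  intro A π hπ
  have hlast : lastF π = A := lastF_eq hπ.2
  have hA : ∀ v, A.Eval v := table_sound hF hπ.1 A (List.mem_of_getLast? hπ.2)
  have l1 : (q.s1 π).length = (varList A).length := by simp [FnO.s1, FnO.r, hlast]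
  obtain ⟨z1, z2, j1, m1⟩ := hfz A (q.k π) (q.cap π) (q.s1 π)
    (two_pow_mul_log' (sz_pos _)) l1 (by
      intro j hj
      have e1 : (q.s1 π)[j] = g1 (g π, j + 1) := by
        simp [FnO.s1, FnO.r, q]
      rw [e1]
      obtain ⟨a1, a2⟩ := hg1' (negVars A) (g π) (j + 1) (by omega) (hg' A π hπ)
      refine ⟨a1, a2.trans (le_of_eq ?_)⟩
      show C1 * (j + 1) * (Nat.log 2 (sz (g π)) + 1) = C1 * (Nat.log 2 (sz (g π)) + 1) * (j + 1)
      ring)
  obtain ⟨j2, m2⟩ := he' (GG (GG F)) (GG_rich _) (hfD A) _ A _ hA z1 z2 m1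
  unfold FnO.out FnO.l1 FnO.l2
  rw [hlast]
  exact hw' A _ (Just.append (fpToFPT j1) j2) (List.mem_append_right _ m2)

end Pool.Agent.H.MP_0447ec_lc.PS
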