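import Pool.Agent.H.MP_0447ec_lc.DY.Base
import Pool.Agent.H.MP_0447ec_lc.LV.Reg

/-!
# Moves of the true variables in register form
-/

namespace Pool.Agent.H.MP_0447ec_lc.PS

open Fm

/-! ### Moves

A move is given by a list `D` of names and a list `m` of pairs of names from `D`: after the move
the variable `x` outside of `D` has the old value, the variable `x` with `(x, x') ∈ m` has the old
value of `x'`, and the other variables of `D` are false. -/

/-- Where the value of `x` comes from. -/
def msrc (D : List Nm) (m : List (Nm × Nm)) (x : Nm) : Option Nm :=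
  if x ∈ D then (m.find? (fun p => decide (p.1 = x))).map Prod.snd else some x

/-- The new value of a register with the value `a`. -/
def gval (cd : List (Nm × List Bool)) (D : List Nm) (m : List (Nm × Nm)) (a : List Bool) :
    List Bool :=
  D.foldr (fun y s => if code cd y = a then
    ((m.find? (fun p => decide (p.2 = y))).map (fun p => code cd p.1)).getD
      (a.map (fun _ => false)) else s) a

theorem gval_cases (cd : List (Nm × List Bool)) (D : List Nm) (m : List (Nm × Nm))
    (a : List Bool) :
    (∃ y ∈ D, code cd y = a ∧ gval cd D m a =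
      ((m.find? (fun p => decide (p.2 = y))).map (fun p => code cd p.1)).getD
        (a.map (fun _ => false))) ∨
    ((∀ y ∈ D, code cd y ≠ a) ∧ gval cd D m a = a) := by
  unfold gval
  induction D with
  | nil => exact Or.inr ⟨by simp, rfl⟩
  | cons x L ih =>
    rw [List.foldr_cons]
    by_cases hx : code cd x = a
    · rw [if_pos hx]
      exact Or.inl ⟨x, by simp, hx, rfl⟩
    · rw [if_neg hx]
      rcases ih with ⟨y, hy, h1, h2⟩ | ⟨h1, h2⟩
      · exact Or.inl ⟨y, List.mem_cons_of_mem _ hy, h1, h2⟩
      · refine Or.inr ⟨?_, h2⟩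
        intro y hy
        rcases List.mem_cons.1 hy with rfl | hy
        · exact hx
        · exact h1 y hy

/-- The conditions on a move. -/
structure MoveOk (cd : List (Nm × List Bool)) (D : List Nm) (m : List (Nm × Nm)) : Prop where
  cd2 : (cd.map Prod.snd).Nodup
  tr : ∀ p ∈ cd, true ∈ p.2
  sub : ∀ x ∈ D, x ∈ cd.map Prod.fst
  m1 : (m.map Prod.fst).Nodup
  m2 : (m.map Prod.snd).Nodup
  d1 : ∀ p ∈ m, p.1 ∈ D
  d2 : ∀ p ∈ m, p.2 ∈ D

theorem find_fst {m : List (Nm × Nm)} (h : (m.map Prod.fst).Nodup) {p : Nm × Nm} (hp : p ∈ m) :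
    m.find? (fun q => decide (q.1 = p.1)) = some p := by
  induction m with
  | nil => simp at hp
  | cons q m ih =>
    rw [List.map_cons, List.nodup_cons] at h
    rw [List.find?_cons]
    rcases List.mem_cons.1 hp with rfl | hp
    · simp
    · have : q.1 ≠ p.1 := fun e => h.1 (e ▸ List.mem_map_of_mem (f := Prod.fst) hp)
      simp [this, ih h.2 hp]

theorem find_snd {m : List (Nm × Nm)} (h : (m.map Prod.snd).Nodup) {p : Nm × Nm} (hp : p ∈ m) :
    m.find? (fun q => decide (q.2 = p.2)) = some p := by
  induction m with
  | nil => simp at hp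
  | cons q m ih =>
    rw [List.map_cons, List.nodup_cons] at h
    rw [List.find?_cons]
    rcases List.mem_cons.1 hp with rfl | hp
    · simp
    · have : q.2 ≠ p.2 := fun e => h.1 (e ▸ List.mem_map_of_mem (f := Prod.snd) hp)
      simp [this, ih h.2 hp]

theorem find_snd_none {m : List (Nm × Nm)} {y : Nm} (h : ∀ p ∈ m, p.2 ≠ y) :
    m.find? (fun q => decide (q.2 = y)) = none := by
  rw [List.find?_eq_none]
  intro p hp
  simpa using h p hp

theorem find_fst_none {m : List (Nm × Nm)} {y : Nm} (h : ∀ p ∈ m, p.1 ≠ y) :
    m.find? (fun q => decide (q.1 = y)) = none := by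
  rw [List.find?_eq_none]
  intro p hp
  simpa using h p hp

theorem gval_length {cd : List (Nm × List Bool)} {D : List Nm} {m : List (Nm × Nm)} {r : ℕ}
    (h : MoveOk cd D m) (hr : ∀ p ∈ cd, p.2.length = r) {a : List Bool} (ha : a.length = r) :
    (gval cd D m a).length = r := by
  rcases gval_cases cd D m a with ⟨y, -, -, e⟩ | ⟨-, e⟩
  · rw [e]
    cases hf : m.find? (fun p => decide (p.2 = y)) with
    | none => simpa using ha
    | some p =>
      have hp := List.mem_of_find?_eq_some hf
      simpa using hr _ (mem_code (h.sub _ (h.d1 p hp)))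
  · rw [e]; exact ha

theorem null_ne_code {cd : List (Nm × List Bool)} (htr : ∀ p ∈ cd, true ∈ p.2) {x : Nm}
    (hx : x ∈ cd.map Prod.fst) (a : List Bool) : a.map (fun _ => false) ≠ code cd x := by
  intro e
  have h := htr _ (mem_code hx)
  simp only at h
  rw [← e] at h
  simp at h

theorem gval_eq_iff {cd : List (Nm × List Bool)} {D : List Nm} {m : List (Nm × Nm)}
    (h : MoveOk cd D m) {x : Nm} (hx : x ∈ cd.map Prod.fst) (a : List Bool) :
    gval cd D m a = code cd x ↔ ∃ y, msrc D m x = some y ∧ a = code cd y := by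
  unfold msrc
  by_cases hxD : x ∈ D
  · rw [if_pos hxD]
    constructor
    · intro e
      rcases gval_cases cd D m a with ⟨y, hy, e1, e2⟩ | ⟨e1, e2⟩
      · rw [e2] at e
        cases hf : m.find? (fun p => decide (p.2 = y)) with
        | none =>
          rw [hf] at e
          exact absurd e (null_ne_code h.tr hx a)
        | some p =>
          rw [hf] at e
          have hp := List.mem_of_find?_eq_some hf
          have hpy : p.2 = y := by simpa using List.find?_some hf
          have hpx : p.1 = x := code_inj h.cd2 (h.sub _ (h.d1 p hp)) hx (by simpa using e)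
          refine ⟨y, ?_, e1.symm⟩
          rw [← hpx, find_fst h.m1 hp]
          simp [hpy]
      · rw [e2] at e
        exact absurd e.symm (e1 x hxD)
    · rintro ⟨y, hy, rfl⟩
      rw [Option.map_eq_some_iff] at hy
      obtain ⟨p, hp, rfl⟩ := hy
      have hpm := List.mem_of_find?_eq_some hp
      have hpx : p.1 = x := by simpa using List.find?_some hp
      rcases gval_cases cd D m (code cd p.2) with ⟨z, hz, e1, e2⟩ | ⟨e1, -⟩
      · have hzp : z = p.2 := code_inj h.cd2 (h.sub _ hz) (h.sub _ (h.d2 p hpm)) e1
        rw [e2, hzp, find_snd h.m2 hpm]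
        simp [hpx]
      · exact absurd rfl (e1 p.2 (h.d2 p hpm))
  · rw [if_neg hxD]
    constructor
    · intro e
      refine ⟨x, rfl, ?_⟩
      rcases gval_cases cd D m a with ⟨y, hy, e1, e2⟩ | ⟨-, e2⟩
      · rw [e2] at e
        cases hf : m.find? (fun p => decide (p.2 = y)) with
        | none =>
          rw [hf] at e
          exact absurd e (null_ne_code h.tr hx a)
        | some p =>
          rw [hf] at e
          have hp := List.mem_of_find?_eq_some hf
          have hpx : p.1 = x := code_inj h.cd2 (h.sub _ (h.d1 p hp)) hx (by simpa using e)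
          exact absurd (hpx ▸ h.d1 p hp) hxD
      · rw [← e2, e]
    · rintro ⟨y, hy, rfl⟩
      have hy' : y = x := by simpa using hy.symm
      subst hy'
      rcases gval_cases cd D m (code cd y) with ⟨z, hz, e1, -⟩ | ⟨-, e2⟩
      · have := code_inj h.cd2 (h.sub _ hz) hx e1
        exact absurd (this ▸ hz) hxD
      · exact e2

/-! ### One register -/

/-- The value of a variable in one register, after the move. -/
def moF (d : Nm) (cd : List (Nm × List Bool)) (o : Option Nm) (ys : List Nm) : Fm :=
  (o.map (fun y => eqr d ys (code cd y))).getD (ct d false)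

/-- The formula for a variable, when the registers in `R1` are already moved. -/
def regG (d : Nm) (cd : List (Nm × List Bool)) (D : List Nm) (m : List (Nm × Nm))
    (R1 R2 : List (List Nm)) (x : Nm) : Fm :=
  dj d (R1.map (moF d cd (msrc D m x)) ++ R2.map (fun ys => eqr d ys (code cd x)))

/-- Lines for one register. -/
def stepG (d : Nm) (cd : List (Nm × List Bool)) (W : List (List Bool)) (D : List Nm)
    (m : List (Nm × Nm)) (C : Fm) (R1 : List (List Nm)) (ys : List Nm) (R2 : List (List Nm)) :
    List Fm :=
  W.flatMap (fun a =>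
    chn (C.subst (regG d cd D m R1 (ys :: R2))) (ys.zip (gval cd D m a)) ++
    li0 d (lw (ct d true) ys a)
      ((C.subst (regG d cd D m R1 (ys :: R2))).subst (tsub (cT (ys.zip (gval cd D m a)))))
      (C.subst (regG d cd D m (R1 ++ [ys]) R2))) ++
  (splitL (ct d true) (C.subst (regG d cd D m (R1 ++ [ys]) R2)) ys W ++
    [C.subst (regG d cd D m (R1 ++ [ys]) R2)])

theorem moF_subst_cT {d : Nm} {cd : List (Nm × List Bool)} {o : Option Nm} {ys ys' : List Nm}
    {a : List Bool} (hd : d ∉ ys) (h : ∀ y ∈ ys', y ∉ ys) :
    (moF d cd o ys').subst (tsub (cT (ys.zip a))) = moF d cd o ys' := by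
  unfold moF
  cases o with
  | none =>
    apply subst_ct
    apply tsub_cT_of_not_mem
    intro hc
    obtain ⟨p, hp, e⟩ := List.mem_map.1 hc
    rw [← e] at hd
    exact hd (List.of_mem_zip hp).1
  | some y => exact eqr_subst_cT hd h

theorem stepG_just {G : List Rule} (hG : Rich G) {d : Nm} {cd : List (Nm × List Bool)}
    {W : List (List Bool)} {r : ℕ} {D : List Nm} {m : List (Nm × Nm)} {C : Fm}
    {R1 : List (List Nm)} {ys : List Nm} {R2 : List (List Nm)} {π : List Fm}
    (hW : ∀ w, w ∈ W ↔ w.length = r) (hys : ys.length = r)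
    (hnd : (R1 ++ ys :: R2).flatten.Nodup) (hd : d ∉ (R1 ++ ys :: R2).flatten)
    (hm : MoveOk cd D m)
    (hr : ∀ p ∈ cd, p.2.length = r) (hv : ∀ x ∈ C.vars, x ∈ cd.map Prod.fst)
    (hX : C.subst (regG d cd D m R1 (ys :: R2)) ∈ π) :
    Just (GC G) π (stepG d cd W D m C R1 ys R2) := by
  have hmR : ∀ σ B, RuleStep G σ B → GC G σ B := fun _ _ h => Or.inl h
  rw [List.flatten_append, List.flatten_cons, List.nodup_append, List.nodup_append] at hnd
  obtain ⟨-, ⟨hysn, -, hd2⟩, hd1⟩ := hnd
  simp only [List.flatten_append, List.flatten_cons, List.mem_append, not_or] at hd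
  have hdy : d ∉ ys := hd.2.1
  refine Just.append (Just.flatMap (mono_GC G) _ _ _ ?_) (Just.append ?_ ?_)
  · intro a ha
    have ha' : a.length = r := (hW a).1 ha
    have hav : (gval cd D m a).length = r := gval_length hm hr ha'
    have hfst : ((ys.zip (gval cd D m a)).map Prod.fst).Nodup := by
      rw [List.map_fst_zip (by omega)]
      exact hysn
    obtain ⟨j1, m1⟩ := chn_just (G := G) hfst hX
    refine Just.append j1 ?_
    refine Just.imp_step (li0_just hG m1 ?_).1 hmR
    rw [litsOf_lw, Fm.subst_subst]
    apply sm_subst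
    intro x hx
    have hcx : (code cd x).length = r := hr _ (mem_code (hv x hx))
    unfold regG
    rw [subst_dj (tsub_cT_of_not_mem (by
      intro hc
      obtain ⟨p, hp, e⟩ := List.mem_map.1 hc
      rw [← e] at hdy
      exact hdy (List.of_mem_zip hp).1))]
    apply sm_dj_congr
    simp only [List.map_append, List.map_cons, List.map_map, List.append_assoc, List.map_nil,
      List.cons_append, List.nil_append]
    congr 1
    · apply List.map_congr_left
      intro ys' hys'
      simp only [Function.comp_apply]
      rw [moF_subst_cT hdy]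
      intro y hy hy'
      exact hd1 y (List.mem_flatten.2 ⟨ys', hys', hy⟩) y (List.mem_append_left _ hy') rfl
    · congr 1
      · rw [sm_eqr_subst hysn hdy (by omega) (by omega)]
        have key := gval_eq_iff hm (hv x hx) a
        unfold moF
        cases hs : msrc D m x with
        | none =>
          rw [hs] at key
          simp only [Option.map_none, Option.getD_none]
          rw [sm_ct]
          simp [key]
        | some y =>
          rw [hs] at key
          simp only [Option.map_some, Option.getD_some]
          have hy : y ∈ cd.map Prod.fst := by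
            unfold msrc at hs
            split_ifs at hs with hxD
            · rw [Option.map_eq_some_iff] at hs
              obtain ⟨p, hp, rfl⟩ := hs
              exact hm.sub _ (hm.d2 p (List.mem_of_find?_eq_some hp))
            · have : x = y := by simpa using hs
              rw [← this]; exact hv x hx
          have hcy : (code cd y).length = r := hr _ (mem_code hy)
          rw [sm_eqr hysn (by omega) (by omega)]
          simp only [Option.some.injEq, exists_eq_left'] at key
          simp only [key]
      · apply List.map_congr_left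
        intro ys' hys'
        simp only [Function.comp_apply]
        rw [eqr_subst_cT hdy]
        intro y hy hy'
        exact hd2 y hy' y (List.mem_flatten.2 ⟨ys', hys', hy⟩) rfl
  · refine Just.imp_step (splitL_just hG (fun w => by rw [hW w, hys]) ?_).1 hmR
    intro a ha
    refine List.mem_append_right _ (List.mem_flatMap.2 ⟨a, ha, List.mem_append_right _ ?_⟩)
    simp [li0, li]
  · refine ⟨Or.inr (Or.inl (hG.strip (H := var d) ?_)), trivial⟩
    refine (splitL_just hG (fun w => by rw [hW w, hys]) ?_).2
    intro a ha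
    refine List.mem_append_right _ (List.mem_flatMap.2 ⟨a, ha, List.mem_append_right _ ?_⟩)
    simp [li0, li]

/-! ### All registers -/

/-- Lines for a move in `C`. -/
def moveL (d : Nm) (regs : List (List Nm)) (cd : List (Nm × List Bool)) (W : List (List Bool))
    (D : List Nm) (m : List (Nm × Nm)) (C : Fm) : List Fm :=
  (sp [] regs).flatMap (fun t => stepG d cd W D m C t.1 t.2.1 t.2.2)

theorem mem_stepG {d : Nm} {cd : List (Nm × List Bool)} {W : List (List Bool)} {D : List Nm}
    {m : List (Nm × Nm)} {C : Fm} {R1 : List (List Nm)} {ys : List Nm} {R2 : List (List Nm)} :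
    C.subst (regG d cd D m (R1 ++ [ys]) R2) ∈ stepG d cd W D m C R1 ys R2 := by
  simp [stepG]

/-- The formula in place of the variable `x` after the move; `d0` is a name that is not used. -/
def msub (d0 : Nm) (regs : List (List Nm)) (D : List Nm) (m : List (Nm × Nm)) (x : Nm) : Fm :=
  ((msrc D m x).map var).getD (dj d0 (regs.map (fun _ => ct d0 false)))

/-- The register form, with `d` in place of `d0`. -/
def regT0 (d d0 : Nm) (regs : List (List Nm)) (cd : List (Nm × List Bool)) : List (Nm × Fm) :=
  (d0, var d) :: regT d regs cd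

theorem tsub_regT0_self {d d0 : Nm} {regs : List (List Nm)} {cd : List (Nm × List Bool)} :
    tsub (regT0 d d0 regs cd) d0 = var d := by
  unfold regT0
  rw [tsub_cons, if_pos rfl]

theorem tsub_regT0 {d d0 : Nm} {regs : List (List Nm)} {cd : List (Nm × List Bool)} {x : Nm}
    (hd0 : d0 ∉ cd.map Prod.fst) (hx : x ∈ cd.map Prod.fst) :
    tsub (regT0 d d0 regs cd) x = tsub (regT d regs cd) x := by
  unfold regT0
  rw [tsub_cons, if_neg]
  intro e
  have e' : d0 = x := e
  exact hd0 (e' ▸ hx)

theorem ct_regT0 {d d0 : Nm} {regs : List (List Nm)} {cd : List (Nm × List Bool)} (c : Bool) :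
    (ct d0 c).subst (tsub (regT0 d d0 regs cd)) = ct d c := by
  cases c <;> simp [ct, Fm.subst, tsub_regT0_self]

theorem regG_nil_left {d : Nm} {cd : List (Nm × List Bool)} {D : List Nm} {m : List (Nm × Nm)}
    {regs : List (List Nm)} {x : Nm} : regG d cd D m [] regs x = anyr d regs (code cd x) := rfl

theorem regG_nil_right {d d0 : Nm} {cd : List (Nm × List Bool)} {D : List Nm}
    {m : List (Nm × Nm)} {regs : List (List Nm)} {x : Nm} (h1 : (cd.map Prod.fst).Nodup)
    (hd0 : d0 ∉ cd.map Prod.fst) (hm : MoveOk cd D m) (hx : x ∈ cd.map Prod.fst) :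
    regG d cd D m regs [] x = (msub d0 regs D m x).subst (tsub (regT0 d d0 regs cd)) := by
  unfold regG msub moF
  cases hs : msrc D m x with
  | none =>
    simp only [Option.map_none, Option.getD_none, List.map_nil, List.append_nil]
    generalize regs = l
    have key : ∀ l' : List (List Nm), dj d (l'.map (fun _ => ct d false)) =
        (dj d0 (l'.map (fun _ => ct d0 false))).subst (tsub (regT0 d d0 l cd)) := by
      intro l'
      induction l' with
      | nil => exact (ct_regT0 false).symm
      | cons a l' ih =>
        rw [List.map_cons, List.map_cons, dj_cons, dj_cons]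
        show _ = Fm.or ((ct d0 false).subst _) ((dj d0 (l'.map (fun _ => ct d0 false))).subst _)
        rw [ct_regT0, ih]
    exact key l
  | some y =>
    simp only [Option.map_some, Option.getD_some, List.map_nil, List.append_nil]
    have hy : y ∈ cd.map Prod.fst := by
      unfold msrc at hs
      split_ifs at hs with hxD
      · rw [Option.map_eq_some_iff] at hs
        obtain ⟨p, hp, rfl⟩ := hs
        exact hm.sub _ (hm.d2 p (List.mem_of_find?_eq_some hp))
      · have : x = y := by simpa using hs
        rw [← this]; exact hx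
    show dj d (regs.map _) = tsub (regT0 d d0 regs cd) y
    rw [tsub_regT0 hd0 hy, tsub_regT h1 hy]
    rfl

theorem moveL_just {G : List Rule} (hG : Rich G) {d d0 : Nm} {cd : List (Nm × List Bool)}
    {W : List (List Bool)} {r : ℕ} {D : List Nm} {m : List (Nm × Nm)} {C : Fm}
    {regs : List (List Nm)} {π : List Fm}
    (hW : ∀ w, w ∈ W ↔ w.length = r) (hys : ∀ ys ∈ regs, ys.length = r)
    (hnd : regs.flatten.Nodup) (hd : d ∉ regs.flatten)
    (h1 : (cd.map Prod.fst).Nodup) (hd0 : d0 ∉ cd.map Prod.fst) (hm : MoveOk cd D m)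
    (hr : ∀ p ∈ cd, p.2.length = r) (hv : ∀ x ∈ C.vars, x ∈ cd.map Prod.fst)
    (hX : C.subst (tsub (regT d regs cd)) ∈ π) :
    Just (GC G) π (moveL d regs cd W D m C) ∧
      (C.subst (msub d0 regs D m)).subst (tsub (regT0 d d0 regs cd)) ∈
        π ++ moveL d regs cd W D m C := by
  have key : ∀ (R2 R1 : List (List Nm)) (π : List Fm), R1 ++ R2 = regs →
      C.subst (regG d cd D m R1 R2) ∈ π →
      Just (GC G) π ((sp R1 R2).flatMap (fun t => stepG d cd W D m C t.1 t.2.1 t.2.2)) ∧
      C.subst (regG d cd D m (R1 ++ R2) []) ∈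
        π ++ (sp R1 R2).flatMap (fun t => stepG d cd W D m C t.1 t.2.1 t.2.2) := by
    intro R2
    induction R2 with
    | nil => intro R1 π _ h; simpa [sp] using ⟨trivial, h⟩
    | cons ys R2 ih =>
      intro R1 π e h
      rw [sp, List.flatMap_cons]
      have j1 : Just (GC G) π (stepG d cd W D m C R1 ys R2) :=
        stepG_just hG hW (hys ys (by rw [← e]; simp)) (by rw [e]; exact hnd)
          (by rw [e]; exact hd) hm hr hv h
      have e2 : R1 ++ ys :: R2 = (R1 ++ [ys]) ++ R2 := by simp
      obtain ⟨j2, m2⟩ := ih (R1 ++ [ys]) (π ++ stepG d cd W D m C R1 ys R2)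
        (by rw [← e2]; exact e) (List.mem_append_right _ mem_stepG)
      refine ⟨Just.append j1 j2, ?_⟩
      rw [e2, ← List.append_assoc]
      exact m2
  have e0 : C.subst (regG d cd D m [] regs) = C.subst (tsub (regT d regs cd)) :=
    Fm.subst_congr (fun x hx => by rw [regG_nil_left, tsub_regT h1 (hv x hx)])
  have e1 : C.subst (regG d cd D m regs []) =
      (C.subst (msub d0 regs D m)).subst (tsub (regT0 d d0 regs cd)) := by
    rw [Fm.subst_subst]
    exact Fm.subst_congr (fun x hx => regG_nil_right h1 hd0 hm (hv x hx))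
  obtain ⟨j, m'⟩ := key regs [] π rfl (by rw [e0]; exact hX)
  refine ⟨j, ?_⟩
  rw [← e1]
  exact m'

/-! ### Variables -/

theorem moF_vars {d : Nm} {cd : List (Nm × List Bool)} {o : Option Nm} {ys : List Nm} {x : Nm}
    (h : x ∈ (moF d cd o ys).vars) : x = d ∨ x ∈ ys := by
  unfold moF at h
  cases o with
  | none => exact Or.inl (vars_ct.1 h)
  | some y => exact vars_eqr h

theorem regG_vars {d : Nm} {cd : List (Nm × List Bool)} {D : List Nm} {m : List (Nm × Nm)}
    {R1 R2 : List (List Nm)} {w x : Nm} (h : x ∈ (regG d cd D m R1 R2 w).vars) :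
    x = d ∨ x ∈ (R1 ++ R2).flatten := by
  unfold regG at h
  rw [vars_dj] at h
  rcases h with h | ⟨A, hA, hx⟩
  · exact Or.inl h
  · rcases List.mem_append.1 hA with hA | hA
    · obtain ⟨ys, hys, rfl⟩ := List.mem_map.1 hA
      rcases moF_vars hx with h | h
      · exact Or.inl h
      · exact Or.inr (List.mem_flatten.2 ⟨ys, List.mem_append_left _ hys, h⟩)
    · obtain ⟨ys, hys, rfl⟩ := List.mem_map.1 hA
      rcases vars_eqr hx with h | h
      · exact Or.inl h
      · exact Or.inr (List.mem_flatten.2 ⟨ys, List.mem_append_right _ hys, h⟩)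

theorem stepG_vars {d : Nm} {cd : List (Nm × List Bool)} {W : List (List Bool)} {D : List Nm}
    {m : List (Nm × Nm)} {C : Fm} {R1 : List (List Nm)} {ys : List Nm} {R2 : List (List Nm)}
    {X : Fm} (hD : X ∈ stepG d cd W D m C R1 ys R2) {x : Nm} (hx : x ∈ X.vars) :
    x = d ∨ x ∈ (R1 ++ ys :: R2).flatten := by
  have hy : ∀ x, x ∈ ys → x ∈ (R1 ++ ys :: R2).flatten := by
    intro x hx
    exact List.mem_flatten.2 ⟨ys, by simp, hx⟩
  have h1 : ∀ x, x ∈ (C.subst (regG d cd D m R1 (ys :: R2))).vars →
      x = d ∨ x ∈ (R1 ++ ys :: R2).flatten := by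
    intro x hx
    obtain ⟨w, -, hw⟩ := vars_subst hx
    exact regG_vars hw
  have h2 : ∀ x, x ∈ (C.subst (regG d cd D m (R1 ++ [ys]) R2)).vars →
      x = d ∨ x ∈ (R1 ++ ys :: R2).flatten := by
    intro x hx
    obtain ⟨w, -, hw⟩ := vars_subst hx
    have := regG_vars hw
    simpa using this
  have hz : ∀ (a : List Bool) x, x ∈ (ys.zip a).map Prod.fst → x ∈ ys := by
    intro a x hx
    obtain ⟨p, hp, rfl⟩ := List.mem_map.1 hx
    exact (List.of_mem_zip hp).1
  unfold stepG at hD
  rcases List.mem_append.1 hD with hD | hD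
  · obtain ⟨a, -, hD⟩ := List.mem_flatMap.1 hD
    rcases List.mem_append.1 hD with hD | hD
    · rcases chn_vars hD hx with h | h
      · exact h1 x h
      · exact Or.inr (hy _ (hz _ _ h))
    · rcases li0_vars hD hx with h | h | h | h
      · exact Or.inl h
      · rcases lw_vars h with h | h
        · exact Or.inl (vars_ct.1 h)
        · exact Or.inr (hy _ h)
      · rcases subst_cT_vars h with h | h
        · exact h1 x h
        · exact Or.inr (hy _ (hz _ _ h))
      · exact h2 x h
  · rcases List.mem_append.1 hD with hD | hD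
    · rcases splitL_vars hD hx with h | h | h
      · exact Or.inl (vars_ct.1 h)
      · exact h2 x h
      · exact Or.inr (hy _ h)
    · rw [List.mem_singleton] at hD
      subst hD
      exact h2 x hx

theorem moveL_vars {d : Nm} {cd : List (Nm × List Bool)} {W : List (List Bool)} {D : List Nm}
    {m : List (Nm × Nm)} {C : Fm} {regs : List (List Nm)} {X : Fm}
    (hD : X ∈ moveL d regs cd W D m C) {x : Nm} (hx : x ∈ X.vars) :
    x = d ∨ x ∈ regs.flatten := by
  unfold moveL at hD
  obtain ⟨t, ht, hD⟩ := List.mem_flatMap.1 hD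
  have e : t.1 ++ t.2.1 :: t.2.2 = regs := by simpa using mem_sp_sub ht
  have := stepG_vars hD hx
  rwa [e] at this

end Pool.Agent.H.MP_0447ec_lc.PS
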