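import Pool.Agent.H.MP_0447ec_lc.DY.RegG
import Pool.Agent.H.MP_0447ec_lc.PS.Sim3

/-!
# Rules given by tables that do not raise the weight, in register form
-/

namespace Pool.Agent.H.MP_0447ec_lc.PS

open Fm

/-! ### The move for a table and a value of its variables -/

/-- The values given by a word. -/
def wval (D : List Nm) (y : List Bool) (x : Nm) : Bool := (lk (D.zip y) x).getD false

/-- The move for the table `t` and the word `y`. -/
def tmove (t : List (Nm × Fm)) (y : List Bool) : List (Nm × Nm) :=
  (vl true t (aft t (wval (tdom t) y))).zip (vl true t (wval (tdom t) y))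

theorem snd_zip_sublist {β γ : Type} : ∀ (l : List β) (m : List γ),
    ((l.zip m).map Prod.snd).Sublist m := by
  intro l
  induction l with
  | nil => intro m; simp
  | cons a l ih =>
    intro m
    cases m with
    | nil => simp
    | cons b m =>
      rw [List.zip_cons_cons, List.map_cons]
      exact (ih m).cons_cons b

theorem lk_wval {D : List Nm} {y : List Bool} (hn : D.Nodup) (hy : y.length = D.length) {x : Nm}
    (hx : x ∈ D) : lk (D.zip y) x = some (wval D y x) := by
  obtain ⟨i, hi, rfl⟩ := List.getElem_of_mem hx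
  have hmem : (D[i], y[i]'(by omega)) ∈ D.zip y := by
    rw [List.mem_iff_getElem]
    exact ⟨i, by simp [List.length_zip]; omega, by simp⟩
  have := lk_zip hn hmem
  simp only at this
  unfold wval
  rw [this]
  rfl

theorem tmove_fst {t : List (Nm × Fm)} (ht : ¬ Raises t) (y : List Bool) :
    (tmove t y).map Prod.fst = vl true t (aft t (wval (tdom t) y)) := by
  unfold tmove
  exact List.map_fst_zip (le_of_not_raises ht _)

theorem moveOk_tmove {cd : List (Nm × List Bool)} {t : List (Nm × Fm)} (ht : ¬ Raises t)
    (h2 : (cd.map Prod.snd).Nodup) (htr : ∀ p ∈ cd, true ∈ p.2)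
    (hsub : ∀ x ∈ tdom t, x ∈ cd.map Prod.fst) (y : List Bool) :
    MoveOk cd (tdom t) (tmove t y) := by
  refine ⟨h2, htr, hsub, ?_, ?_, ?_, ?_⟩
  · rw [tmove_fst ht]
    exact vl_nodup _ _ _
  · unfold tmove
    exact (vl_nodup _ _ _).sublist (snd_zip_sublist _ _)
  · intro p hp
    exact (mem_vl.1 (List.of_mem_zip hp).1).1
  · intro p hp
    exact (mem_vl.1 (List.of_mem_zip hp).2).1

theorem sm_dj_ff (K : List (Nm × Bool)) (d : Nm) (regs : List (List Nm)) :
    sm K (dj d (regs.map (fun _ => ct d false))) = (some false, var []) := by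
  induction regs with
  | nil => exact sm_ct K d false
  | cons a l ih =>
    rw [List.map_cons, dj_cons, sm_or, sm_ct, ih]
    rfl

theorem sm_tmove {t : List (Nm × Fm)} (ht : ¬ Raises t) {y : List Bool}
    (hy : y.length = (tdom t).length) (d : Nm) (regs : List (List Nm)) (C : Fm) :
    sm ((tdom t).zip y) (C.subst (msub d regs (tdom t) (tmove t y))) =
      sm ((tdom t).zip y) (C.subst (tsub t)) := by
  apply sm_subst
  intro x _
  by_cases hx : x ∈ tdom t
  · have hev : ∀ b : Bool, aft t (wval (tdom t) y) x = b →
        sm ((tdom t).zip y) (tsub t x) = (some b, var []) := by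
      intro b hb
      refine sm_eval (v := wval (tdom t) y) ?_ b ?_
      · intro z hz
        exact lk_wval (tdom_nodup t) hy (vars_tsub_tdom hx hz)
      · rw [evb_iff]
        unfold aft at hb
        rw [hb]
    unfold msub msrc
    rw [if_pos hx]
    by_cases hI : aft t (wval (tdom t) y) x = true
    · have hxI : x ∈ (tmove t y).map Prod.fst := by
        rw [tmove_fst ht]
        exact mem_vl.2 ⟨hx, hI⟩
      obtain ⟨p, hp, hpx⟩ := List.mem_map.1 hxI
      have hn : ((tmove t y).map Prod.fst).Nodup := by
        rw [tmove_fst ht]; exact vl_nodup _ _ _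
      have hf := find_fst hn hp
      rw [hpx] at hf
      rw [hf, hev true hI]
      simp only [Option.map_some, Option.getD_some]
      have hp2 := mem_vl.1 (List.of_mem_zip hp).2
      rw [sm_var]
      unfold smV
      rw [lk_wval (tdom_nodup t) hy hp2.1, hp2.2]
    · have hI' : aft t (wval (tdom t) y) x = false := by simpa using hI
      have hf : (tmove t y).find? (fun p => decide (p.1 = x)) = none := by
        apply find_fst_none
        intro p hp e
        have : x ∈ vl true t (aft t (wval (tdom t) y)) := by
          rw [← tmove_fst ht, ← e]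
          exact List.mem_map_of_mem (f := Prod.fst) hp
        rw [(mem_vl.1 this).2] at hI'
        exact absurd hI' (by simp)
      rw [hf, hev false hI']
      simp only [Option.map_none, Option.getD_none]
      exact sm_dj_ff _ _ _
  · unfold msub msrc
    rw [if_neg hx, tsub_not_tdom hx]
    rfl

/-! ### The lines for one table -/

/-- A name that is not used. -/
def newN (cd : List (Nm × List Bool)) : Nm := fn (bdN (cd.map Prod.fst)) 0 []

theorem newN_not_mem (cd : List (Nm × List Bool)) : newN cd ∉ cd.map Prod.fst := by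
  intro h
  have h1 := le_bdN h
  have h2 := fn_length (bdN (cd.map Prod.fst)) 0 []
  unfold newN at h1
  omega

/-- Lines for the table `t` and the line `C`. -/
def tabL (d : Nm) (regs : List (List Nm)) (cd : List (Nm × List Bool)) (W : List (List Bool))
    (t : List (Nm × Fm)) (C : Fm) : List Fm :=
  (words (tdom t).length).flatMap (fun y =>
    moveL d regs cd W (tdom t) (tmove t y) C ++
    (li0 (newN cd) (lw (ct (newN cd) true) (tdom t) y)
      (C.subst (msub (newN cd) regs (tdom t) (tmove t y)))
      (C.subst (tsub t))).map (Fm.subst (tsub (regT0 d (newN cd) regs cd)))) ++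
  (splitL (ct (newN cd) true) (C.subst (tsub t)) (tdom t) (words (tdom t).length) ++
    [C.subst (tsub t)]).map (Fm.subst (tsub (regT0 d (newN cd) regs cd)))

theorem tabL_last {d : Nm} {cd : List (Nm × List Bool)} {t : List (Nm × Fm)} {C : Fm}
    {regs : List (List Nm)} (hsub : ∀ x ∈ tdom t, x ∈ cd.map Prod.fst)
    (hv : ∀ x ∈ C.vars, x ∈ cd.map Prod.fst) :
    (C.subst (tsub t)).subst (tsub (regT0 d (newN cd) regs cd)) =
      (C.subst (tsub t)).subst (tsub (regT d regs cd)) := by
  apply Fm.subst_congr
  intro z hz
  apply tsub_regT0 (newN_not_mem cd)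
  obtain ⟨w, hw, hz⟩ := vars_subst hz
  by_cases hwt : w ∈ tdom t
  · exact hsub _ (vars_tsub_tdom hwt hz)
  · rw [tsub_not_tdom hwt] at hz
    simp only [Fm.vars, Set.mem_singleton_iff] at hz
    rw [hz]
    exact hv w hw

theorem tabL_just {G : List Rule} (hG : Rich G) {d : Nm} {cd : List (Nm × List Bool)}
    {W : List (List Bool)} {r : ℕ} {t : List (Nm × Fm)} (ht : ¬ Raises t) {C : Fm}
    {regs : List (List Nm)} {π : List Fm}
    (hW : ∀ w, w ∈ W ↔ w.length = r) (hys : ∀ ys ∈ regs, ys.length = r)
    (hnd : regs.flatten.Nodup) (hd : d ∉ regs.flatten)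
    (h1 : (cd.map Prod.fst).Nodup) (h2 : (cd.map Prod.snd).Nodup)
    (hr : ∀ p ∈ cd, p.2.length = r) (htr : ∀ p ∈ cd, true ∈ p.2)
    (hsub : ∀ x ∈ tdom t, x ∈ cd.map Prod.fst)
    (hv : ∀ x ∈ C.vars, x ∈ cd.map Prod.fst)
    (hX : C.subst (tsub (regT d regs cd)) ∈ π) :
    Just (GC G) π (tabL d regs cd W t C) ∧
      (C.subst (tsub t)).subst (tsub (regT d regs cd)) ∈ tabL d regs cd W t C := by
  have hmR : ∀ σ B, RuleStep G σ B → GC G σ B := fun _ _ h => Or.inl h
  have hd0 := newN_not_mem cd
  rw [← tabL_last hsub hv]
  unfold tabL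
  generalize newN cd = d0 at *
  have key : ∀ y : List Bool, y.length = (tdom t).length →
      Just (GC G) π (moveL d regs cd W (tdom t) (tmove t y) C ++
        (li0 d0 (lw (ct d0 true) (tdom t) y) (C.subst (msub d0 regs (tdom t) (tmove t y)))
          (C.subst (tsub t))).map (Fm.subst (tsub (regT0 d d0 regs cd)))) ∧
      imp (lw (ct d0 true) (tdom t) y) (C.subst (tsub t)) ∈
        li0 d0 (lw (ct d0 true) (tdom t) y) (C.subst (msub d0 regs (tdom t) (tmove t y)))
          (C.subst (tsub t)) := by
    intro y hy
    have hmo := moveOk_tmove (cd := cd) ht h2 htr hsub y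
    obtain ⟨j1, m1⟩ := moveL_just hG hW hys hnd hd h1 hd0 hmo hr hv hX
    obtain ⟨j2, m2⟩ := li0_just hG (d := d0) (H := lw (ct d0 true) (tdom t) y)
      (A := C.subst (msub d0 regs (tdom t) (tmove t y))) (B := C.subst (tsub t))
      (π := [C.subst (msub d0 regs (tdom t) (tmove t y))]) (by simp) (by
        rw [litsOf_lw]
        exact sm_tmove ht hy d0 regs C)
    refine ⟨Just.append j1 ?_, ?_⟩
    · refine Just.imp_step (Just.mono (mono_ruleStep G) ?_ (Just.map_subst _ j2)) hmR
      intro X hX
      rw [List.map_cons, List.map_nil, List.mem_singleton] at hX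
      rw [hX]
      exact m1
    · simp [li0, li]
  refine ⟨?_, ?_⟩
  · refine Just.append (Just.flatMap (mono_GC G) _ _ _ (fun y hy => (key y (mem_words.1 hy)).1))
      ?_
    obtain ⟨j3, m3⟩ := splitL_just hG (H := ct d0 true) (A := C.subst (tsub t)) (ys := tdom t)
      (W := words (tdom t).length)
      (π := (words (tdom t).length).map (fun y => imp (lw (ct d0 true) (tdom t) y)
        (C.subst (tsub t)))) (fun w => mem_words) (fun y hy =>
          List.mem_map_of_mem (f := fun y => imp (lw (ct d0 true) (tdom t) y)
            (C.subst (tsub t))) hy)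
    have j4 : Just (RuleStep G) ((words (tdom t).length).map (fun y =>
        imp (lw (ct d0 true) (tdom t) y) (C.subst (tsub t))))
        (splitL (ct d0 true) (C.subst (tsub t)) (tdom t) (words (tdom t).length) ++
          [C.subst (tsub t)]) := by
      refine Just.append j3 ⟨Or.inr (hG.strip (H := var d0) ?_), trivial⟩
      simpa [ct] using m3
    refine Just.imp_step (Just.mono (mono_ruleStep G) ?_ (Just.map_subst _ j4)) hmR
    intro X hX
    rw [List.map_map] at hX
    obtain ⟨y, hy, rfl⟩ := List.mem_map.1 hX
    refine List.mem_append_right _ (List.mem_flatMap.2 ⟨y, hy, List.mem_append_right _ ?_⟩)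
    exact List.mem_map_of_mem (f := Fm.subst (tsub (regT0 d d0 regs cd)))
      (key y (mem_words.1 hy)).2
  · refine List.mem_append_right _ (List.mem_map_of_mem
      (f := Fm.subst (tsub (regT0 d d0 regs cd))) ?_)
    simp

/-! ### The whole derivation -/

/-- The register form of a derivation with the permutation rule and the tables in `S`. -/
def regS (S : List (List (Nm × Fm))) (d : Nm) (regs : List (List Nm))
    (cd : List (Nm × List Bool)) (W : List (List Bool)) (ρ : List Fm) : List Fm :=
  (splits ρ).flatMap (fun p =>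
    p.1.flatMap (fun C => (if okP C p.2 = true then permL d regs cd W C p.2 else []) ++
      S.flatMap (fun t => tabL d regs cd W t C)) ++
    [p.2.subst (tsub (regT d regs cd))])

theorem regS_snoc (S : List (List (Nm × Fm))) (d : Nm) (regs : List (List Nm))
    (cd : List (Nm × List Bool)) (W : List (List Bool)) (ρ : List Fm) (B : Fm) :
    regS S d regs cd W (ρ ++ [B]) = regS S d regs cd W ρ ++
      (ρ.flatMap (fun C => (if okP C B = true then permL d regs cd W C B else []) ++
        S.flatMap (fun t => tabL d regs cd W t C)) ++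
      [B.subst (tsub (regT d regs cd))]) := by
  unfold regS
  rw [splits_snoc, List.flatMap_append]
  simp

theorem regS_just {F : List Rule} {S : List (List (Nm × Fm))} (hS : ∀ t ∈ S, ¬ Raises t)
    {d : Nm} {cd : List (Nm × List Bool)}
    {W : List (List Bool)} {r : ℕ} {regs : List (List Nm)} {ρ : List Fm}
    (hW : ∀ w, w ∈ W ↔ w.length = r) (hys : ∀ ys ∈ regs, ys.length = r)
    (hnd : regs.flatten.Nodup) (hd : d ∉ regs.flatten) (h1 : (cd.map Prod.fst).Nodup)
    (h2 : (cd.map Prod.snd).Nodup)
    (hr : ∀ p ∈ cd, p.2.length = r) (htr : ∀ p ∈ cd, true ∈ p.2)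
    (hsub : ∀ t ∈ S, ∀ x ∈ tdom t, x ∈ cd.map Prod.fst) (hρ : Deriv (FPT F S) ρ)
    (hv : ∀ C ∈ ρ, ∀ x ∈ C.vars, x ∈ cd.map Prod.fst) (π : List Fm) :
    Just (GC (GG F)) π (regS S d regs cd W ρ) ∧
      ∀ B ∈ ρ, B.subst (tsub (regT d regs cd)) ∈ regS S d regs cd W ρ := by
  induction hρ with
  | nil => exact ⟨trivial, by simp⟩
  | @snoc ρ B g1 g2 ih =>
    obtain ⟨i1, i2⟩ := ih (fun C hC => hv C (List.mem_append_left _ hC))
    rw [regS_snoc]
    have hX0 : ∀ C ∈ ρ, C.subst (tsub (regT d regs cd)) ∈ π ++ regS S d regs cd W ρ :=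
      fun C hC => List.mem_append_right _ (i2 C hC)
    have hX : ∀ C ∈ ρ, C.subst (regF d cd (rnf C B) [] regs) ∈ π ++ regS S d regs cd W ρ := by
      intro C hC
      have e : C.subst (regF d cd (rnf C B) [] regs) = C.subst (tsub (regT d regs cd)) :=
        Fm.subst_congr (fun x hx => by
          rw [regF_nil_left, tsub_regT h1 (hv C (List.mem_append_left _ hC) x hx)])
      rw [e]
      exact hX0 C hC
    have jt : ∀ C ∈ ρ, ∀ t ∈ S, Just (GC (GG F)) (π ++ regS S d regs cd W ρ)
        (tabL d regs cd W t C) ∧
        (C.subst (tsub t)).subst (tsub (regT d regs cd)) ∈ tabL d regs cd W t C :=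
      fun C hC t ht => tabL_just (GG_rich F) (hS t ht) hW hys hnd hd h1 h2 hr htr
        (hsub t ht) (hv C (List.mem_append_left _ hC)) (hX0 C hC)
    have j1 : Just (GC (GG F)) (π ++ regS S d regs cd W ρ)
        (ρ.flatMap (fun C => (if okP C B = true then permL d regs cd W C B else []) ++
          S.flatMap (fun t => tabL d regs cd W t C))) := by
      apply Just.flatMap (mono_GC _)
      intro C hC
      refine Just.append ?_ ?_
      · split_ifs with hok
        · exact (permL_just (GG_rich F) hW hys hnd hd h2 hr
            (hv C (List.mem_append_left _ hC)) hok (hX C hC)).1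
        · trivial
      · refine Just.mono (mono_GC _) (fun X hX => List.mem_append_left _ hX)
          (Just.flatMap (mono_GC _) _ _ _ (fun t ht => (jt C hC t ht).1))
    refine ⟨Just.append i1 (Just.append j1 ⟨?_, trivial⟩), ?_⟩
    · rcases g2 with g2 | ⟨C, hC, σ, hσ, hB⟩ | ⟨C, hC, t, ht, hB⟩
      · right; left
        have := ruleStep_GG (ruleStep_subst g2 (tsub (regT d regs cd)))
        refine mono_ruleStep _ _ _ _ ?_ this
        intro D hD
        obtain ⟨D', hD', rfl⟩ := List.mem_map.1 hD
        exact List.mem_append_left _ (List.mem_append_right _ (i2 D' hD'))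
      · left
        have hok : okP C B = true := okP_of_perm hσ hB
        have m := (permL_just (GG_rich F) hW hys hnd hd h2 hr
          (hv C (List.mem_append_left _ hC)) hok (hX C hC)).2
        have e : C.subst (regF d cd (rnf C B) regs []) = B.subst (tsub (regT d regs cd)) := by
          obtain ⟨⟨e1, e2⟩, -, -⟩ := okP_iff.1 hok
          have e3 : B.subst (tsub (regT d regs cd)) =
              (C.subst (fun x => var (rnf C B x))).subst (tsub (regT d regs cd)) := by rw [e1]
          rw [e3, Fm.subst_subst]
          refine Fm.subst_congr (fun x hx => ?_)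
          rw [regF_nil_right]
          exact (tsub_regT h1 (hv C (List.mem_append_left _ hC) _
            (mem_nms.1 (e2 x (mem_nms.2 hx))))).symm
        rw [e] at m
        rcases List.mem_append.1 m with m | m
        · exact List.mem_append_left _ m
        · refine List.mem_append_right _ (List.mem_flatMap.2 ⟨C, hC, ?_⟩)
          rw [if_pos hok]
          exact List.mem_append_left _ m
      · left
        rw [hB, substTable_eq]
        refine List.mem_append_right _ (List.mem_flatMap.2 ⟨C, hC, List.mem_append_right _ ?_⟩)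
        exact List.mem_flatMap.2 ⟨t, ht, (jt C hC t ht).2⟩
    · intro D hD
      rcases List.mem_append.1 hD with hD | hD
      · exact List.mem_append_left _ (i2 D hD)
      · rw [List.mem_singleton] at hD
        subst hD
        simp

end Pool.Agent.H.MP_0447ec_lc.PS
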