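import Pool.Agent.H.MP_0447ec_lc.DY.Base
import Pool.Agent.H.MP_0447ec_lc.LV.Brute

/-!
# Search for variables with a given value
-/

namespace Pool.Agent.H.MP_0447ec_lc.PS

open Fm Pool.Agent.H.MP_0447ec_lc.PT

/-! ### The hypothesis that all variables of a list have the same value -/

/-- The hypothesis `H` together with the value `c` for all variables in `pre`. -/
def hn (c : Bool) (H : Fm) (pre : List Nm) : Fm := lw H pre.reverse (List.replicate pre.length c)

theorem hn_nil (c : Bool) (H : Fm) : hn c H [] = H := rfl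

theorem hn_snoc (c : Bool) (H : Fm) (pre : List Nm) (x : Nm) :
    hn c H (pre ++ [x]) = Fm.and (lit x c) (hn c H pre) := by
  unfold hn
  rw [List.reverse_append, List.length_append]
  exact lw_cons _ _ _ _ _

theorem litsOf_and (A B : Fm) : litsOf (Fm.and A B) = litsOf A ++ litsOf B := by
  simp [litsOf, ands, litOf]

theorem litsOf_lit (x : Nm) (b : Bool) : litsOf (lit x b) = [(x, b)] := by
  cases b <;> rfl

theorem litsOf_hn (c : Bool) (H : Fm) (pre : List Nm) :
    litsOf (hn c H pre) = pre.reverse.map (fun x => (x, c)) ++ litsOf H := by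
  induction pre using List.reverseRecOn with
  | nil => rfl
  | append_singleton pre x ih =>
    rw [hn_snoc, litsOf_and, litsOf_lit, ih, List.reverse_append]
    rfl

theorem litsOf_hn' (b c : Bool) (H : Fm) (pre : List Nm) (x : Nm) :
    litsOf (Fm.and (lit x b) (hn c H pre)) =
      (x, b) :: (pre.reverse.map (fun x => (x, c)) ++ litsOf H) := by
  rw [litsOf_and, litsOf_lit, litsOf_hn]
  rfl

/-! ### Evaluation -/

theorem lk_of_nodup {K : List (Nm × Bool)} (hn : (K.map Prod.fst).Nodup) {p : Nm × Bool}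
    (hp : p ∈ K) : lk K p.1 = some p.2 := by
  apply lk_eq hp
  intro b' hb'
  have := List.inj_on_of_nodup_map hn hb' hp rfl
  exact congrArg Prod.snd this

/-- Lines that derive a tautology from a hypothesis that fixes all variables. -/
def evL (H B : Fm) : List Fm := projL H ++ smL H (litsOf H) B

theorem evL_just {G : List Rule} (hG : Rich G) {H B : Fm} (hB : ∀ v, B.Eval v)
    (h1 : ((litsOf H).map Prod.fst).Nodup) (h2 : ∀ x ∈ B.vars, x ∈ (litsOf H).map Prod.fst)
    (π : List Fm) : Just (RuleStep G) π (evL H B) ∧ imp H B ∈ evL H B := by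
  obtain ⟨j, m⟩ := smL_just hG H (litsOf H) B (π ++ projL H) (by
    intro p hp
    exact List.mem_append_right _ (mem_projL (mem_litsOf.1 hp)))
  refine ⟨Just.append (projL_just hG _ _) j, List.mem_append_right _ ?_⟩
  have hk : ∀ x ∈ B.vars, lk (litsOf H) x = some ((lk (litsOf H) x).getD false) := by
    intro x hx
    obtain ⟨p, hp, rfl⟩ := List.mem_map.1 (h2 x hx)
    rw [lk_of_nodup h1 hp]
    rfl
  have hsm : sm (litsOf H) B = (some true, var []) :=
    sm_eval (v := fun x => (lk (litsOf H) x).getD false) hk true (by simp [hB])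
  rw [hsm] at m
  exact m

/-! ### The decision tree -/

/-- The decision tree that looks for `k` more variables with the value `b` in the list
`z.2.2.2`; the list `z.2.2.1` contains the variables already found. -/
def treeL (e : (Nm × Fm) × Fm × List Nm → List Fm) (b : Bool) :
    ℕ → (Nm × Fm) × Fm × List Nm × List Nm → List Fm
  | 0, z => e (z.1, z.2.1, z.2.2.1)
  | k + 1, z =>
    (sp [] z.2.2.2).flatMap (fun t => treeL e b k
      (z.1, Fm.and (lit t.2.1 b) (hn (!b) z.2.1 t.1), t.2.1 :: z.2.2.1, t.2.2)) ++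
    (evL (hn (!b) z.2.1 z.2.2.2) z.1.2 ++
      (sp [] z.2.2.2).reverse.map (fun t => imp (hn (!b) z.2.1 t.1) z.1.2))

theorem treeBack_just {G : List Rule} (hG : Rich G) {b : Bool} {H B : Fm} :
    ∀ (us pre : List Nm) (π : List Fm),
      (∀ t ∈ sp pre us, imp (Fm.and (lit t.2.1 b) (hn (!b) H t.1)) B ∈ π) →
      imp (hn (!b) H (pre ++ us)) B ∈ π →
      Just (RuleStep G) π ((sp pre us).reverse.map (fun t => imp (hn (!b) H t.1) B)) ∧
        imp (hn (!b) H pre) B ∈
          π ++ (sp pre us).reverse.map (fun t => imp (hn (!b) H t.1) B) := by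
  intro us
  induction us with
  | nil =>
    intro pre π _ h
    rw [List.append_nil] at h
    simpa [sp] using ⟨trivial, h⟩
  | cons u us ih =>
    intro pre π h1 h2
    have e : pre ++ u :: us = (pre ++ [u]) ++ us := by simp
    rw [e] at h2
    obtain ⟨j, m⟩ := ih (pre ++ [u]) π (fun t ht => h1 t (List.mem_cons_of_mem _ ht)) h2
    rw [sp, List.reverse_cons, List.map_append]
    refine ⟨Just.append j ⟨Or.inr ?_, trivial⟩, by simp⟩
    have h3 : imp (Fm.and (lit u b) (hn (!b) H pre)) B ∈
        π ++ (sp (pre ++ [u]) us).reverse.map (fun t => imp (hn (!b) H t.1) B) :=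
      List.mem_append_left _ (h1 (pre, u, us) (by simp [sp]))
    rw [hn_snoc] at m
    show RuleStep G _ (imp (hn (!b) H pre) B)
    cases b with
    | true => exact hG.cases h3 m
    | false => exact hG.cases m h3

theorem tree_just {G : List Rule} (hG : Rich G) {S : List (List (Nm × Fm))} {b : Bool} {w : ℕ}
    {e : (Nm × Fm) × Fm × List Nm → List Fm} {u : Nm} {B : Fm} (hB : ∀ v, B.Eval v)
    (he : ∀ (H : Fm) (as : List Nm) (π : List Fm), as.length = w → as.Nodup →
      (∀ a ∈ as, a ∈ B.vars ∧ (a, b) ∈ litsOf H) →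
      (∀ p ∈ litsOf H, p.1 ∈ B.vars ∧ lk (litsOf H) p.1 = some p.2) →
      imp (lit u b) B ∈ π →
      Just (FPT G S) π (e ((u, B), H, as)) ∧ imp H B ∈ e ((u, B), H, as)) :
    ∀ (k : ℕ) (H : Fm) (as xs : List Nm) (π : List Fm), as.length + k = w → as.Nodup →
      (∀ a ∈ as, (a, b) ∈ litsOf H) → ((litsOf H).map Prod.fst ++ xs).Nodup →
      (∀ x ∈ (litsOf H).map Prod.fst ++ xs, x ∈ B.vars) →
      (∀ x ∈ B.vars, x ∈ (litsOf H).map Prod.fst ++ xs) →
      imp (lit u b) B ∈ π →
      Just (FPT G S) π (treeL e b k ((u, B), H, as, xs)) ∧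
        imp H B ∈ treeL e b k ((u, B), H, as, xs) := by
  intro k
  induction k with
  | zero =>
    intro H as xs π h1 h2 h3 h4 h5 h6 hπ
    refine he H as π (by omega) h2 ?_ ?_ hπ
    · intro a ha
      refine ⟨h5 a (List.mem_append_left _ ?_), h3 a ha⟩
      exact List.mem_map_of_mem (f := Prod.fst) (h3 a ha)
    · intro p hp
      refine ⟨h5 _ (List.mem_append_left _ (List.mem_map_of_mem (f := Prod.fst) hp)), ?_⟩
      exact lk_of_nodup (List.Nodup.of_append_left h4) hp
  | succ k ih =>
    intro H as xs π h1 h2 h3 h4 h5 h6 hπ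
    have hsp : ∀ t ∈ sp [] xs, t.1 ++ t.2.1 :: t.2.2 = xs := by
      intro t ht
      simpa using mem_sp_sub ht
    -- the branches
    have hbr : ∀ t ∈ sp [] xs, ∀ π : List Fm, imp (lit u b) B ∈ π →
        Just (FPT G S) π (treeL e b k ((u, B), Fm.and (lit t.2.1 b) (hn (!b) H t.1),
          t.2.1 :: as, t.2.2)) ∧
        imp (Fm.and (lit t.2.1 b) (hn (!b) H t.1)) B ∈
          treeL e b k ((u, B), Fm.and (lit t.2.1 b) (hn (!b) H t.1), t.2.1 :: as, t.2.2) := by
      intro t ht π hπ
      have hxs := hsp t ht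
      have hk : (litsOf (Fm.and (lit t.2.1 b) (hn (!b) H t.1))).map Prod.fst =
          t.2.1 :: (t.1.reverse ++ (litsOf H).map Prod.fst) := by
        rw [litsOf_hn', List.map_cons, List.map_append, List.map_map]
        congr 2
        exact List.map_id _
      have hperm : (t.2.1 :: (t.1.reverse ++ (litsOf H).map Prod.fst) ++ t.2.2).Perm
          ((litsOf H).map Prod.fst ++ xs) := by
        rw [← hxs]
        generalize (litsOf H).map Prod.fst = L
        have p1 : (t.2.1 :: (t.1.reverse ++ L) ++ t.2.2).Perm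
            (t.2.1 :: (t.1 ++ L) ++ t.2.2) :=
          ((List.reverse_perm t.1).append_right L).cons _ |>.append_right _
        refine p1.trans ?_
        have p2 : (t.2.1 :: (t.1 ++ L) ++ t.2.2).Perm (t.2.1 :: (L ++ t.1) ++ t.2.2) :=
          (List.perm_append_comm.cons _).append_right _
        refine p2.trans ?_
        have p3 : t.2.1 :: (L ++ t.1) ++ t.2.2 = t.2.1 :: ((L ++ t.1) ++ t.2.2) := rfl
        rw [p3, ← List.append_assoc L t.1]
        exact List.perm_middle.symm
      refine ih _ _ _ π (by simp only [List.length_cons]; omega) ?_ ?_ ?_ ?_ ?_ hπ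
      · refine List.nodup_cons.2 ⟨?_, h2⟩
        intro hc
        have hc1 := List.mem_map_of_mem (f := Prod.fst) (h3 _ hc)
        have hc2 : t.2.1 ∈ xs := by rw [← hxs]; simp
        exact (List.nodup_append.1 h4).2.2 _ hc1 _ hc2 rfl
      · intro a ha
        rw [litsOf_hn']
        rcases List.mem_cons.1 ha with rfl | ha
        · exact List.mem_cons_self
        · exact List.mem_cons_of_mem _ (List.mem_append_right _ (h3 a ha))
      · rw [hk]
        exact hperm.nodup_iff.2 h4
      · rw [hk]
        intro x hx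
        exact h5 x (hperm.mem_iff.1 hx)
      · rw [hk]
        intro x hx
        exact hperm.mem_iff.2 (h6 x hx)
    have j1 : Just (FPT G S) π ((sp [] xs).flatMap (fun t => treeL e b k
        ((u, B), Fm.and (lit t.2.1 b) (hn (!b) H t.1), t.2.1 :: as, t.2.2))) :=
      Just.flatMap (mono_FPT G S) _ _ _ (fun t ht => (hbr t ht π hπ).1)
    have hkx : (litsOf (hn (!b) H xs)).map Prod.fst = xs.reverse ++ (litsOf H).map Prod.fst := by
      rw [litsOf_hn, List.map_append, List.map_map]
      congr 1
      exact List.map_id _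
    have hperm : (xs.reverse ++ (litsOf H).map Prod.fst).Perm
        ((litsOf H).map Prod.fst ++ xs) :=
      ((List.reverse_perm xs).append_right _).trans List.perm_append_comm
    obtain ⟨j2, m2⟩ := evL_just hG hB (H := hn (!b) H xs) (by
      rw [hkx]; exact hperm.nodup_iff.2 h4) (by
      intro x hx
      rw [hkx]; exact hperm.mem_iff.2 (h6 x hx)) (π ++ (sp [] xs).flatMap (fun t => treeL e b k
        ((u, B), Fm.and (lit t.2.1 b) (hn (!b) H t.1), t.2.1 :: as, t.2.2)))
    obtain ⟨j3, m3⟩ := treeBack_just hG (b := b) (H := H) (B := B) xs []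
      (π ++ (sp [] xs).flatMap (fun t => treeL e b k
        ((u, B), Fm.and (lit t.2.1 b) (hn (!b) H t.1), t.2.1 :: as, t.2.2)) ++
        evL (hn (!b) H xs) B) (by
      intro t ht
      refine List.mem_append_left _ (List.mem_append_right _ ?_)
      exact List.mem_flatMap.2 ⟨t, ht, (hbr t ht π hπ).2⟩) (by
      rw [List.nil_append]
      exact List.mem_append_right _ m2)
    refine ⟨Just.append j1 (Just.append (toFPT j2) (toFPT j3)), ?_⟩
    show imp H B ∈ _ ++ (evL (hn (!b) H xs) B ++ _)
    cases xs with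
    | nil => exact List.mem_append_right _ (List.mem_append_left _ m2)
    | cons x xs =>
      refine List.mem_append_right _ (List.mem_append_right _ ?_)
      rw [sp, List.reverse_cons, List.map_append]
      refine List.mem_append_right _ ?_
      rw [List.map_singleton, List.mem_singleton]
      rfl

section

variable {α : Type} [Enc α]

@[fun_prop]
theorem Poly.hn {c : α → Bool} {H : α → Fm} {pre : α → List Nm} (hc : Poly c) (hH : Poly H)
    (hp : Poly pre) : Poly (fun a => hn (c a) (H a) (pre a)) := by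
  unfold PS.hn
  fun_prop

@[fun_prop]
theorem Poly.evL {H B : α → Fm} (hH : Poly H) (hB : Poly B) :
    Poly (fun a => evL (H a) (B a)) := by
  unfold PS.evL
  fun_prop

end

theorem poly_treeL {e : (Nm × Fm) × Fm × List Nm → List Fm} (he : Poly e) (b : Bool) (k : ℕ) :
    Poly (treeL e b k) := by
  induction k with
  | zero =>
    have : Poly (fun z : (Nm × Fm) × Fm × List Nm × List Nm => e (z.1, z.2.1, z.2.2.1)) := by
      fun_prop
    exact this
  | succ k ih =>
    have h1 : Poly (fun z : (Nm × Fm) × Fm × List Nm × List Nm =>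
        (sp [] z.2.2.2).flatMap (fun t => treeL e b k
          (z.1, Fm.and (lit t.2.1 b) (PS.hn (!b) z.2.1 t.1), t.2.1 :: z.2.2.1, t.2.2))) := by
      refine PT.Poly.flatMap (f := fun (z : (Nm × Fm) × Fm × List Nm × List Nm)
        (t : List Nm × Nm × List Nm) => treeL e b k
          (z.1, Fm.and (lit t.2.1 b) (PS.hn (!b) z.2.1 t.1), t.2.1 :: z.2.2.1, t.2.2)) ?_
        (by fun_prop)
      exact Poly.comp ih (by fun_prop)
    have h2 : Poly (fun z : (Nm × Fm) × Fm × List Nm × List Nm =>
        (PS.evL (PS.hn (!b) z.2.1 z.2.2.2) z.1.2 ++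
      (sp [] z.2.2.2).reverse.map (fun t => imp (PS.hn (!b) z.2.1 t.1) z.1.2))) := by
      fun_prop
    exact Poly.append h1 h2

/-- Elimination of a premise that is a literal with a new variable, from the same for
hypotheses that contain sufficiently many variables with the value `b`. -/
theorem elim_of_leaf {S : List (List (Nm × Fm))} {b : Bool}
    (h : ∃ (w : ℕ) (e : (Nm × Fm) × Fm × List Nm → List Fm), Poly e ∧
    ∀ (G : List Rule), Rich G → ∀ (u : Nm) (B H : Fm) (as : List Nm) (π : List Fm),
      u ∉ B.vars → as.length = w → as.Nodup → (∀ a ∈ as, a ∈ B.vars ∧ (a, b) ∈ litsOf H) →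
      (∀ p ∈ litsOf H, p.1 ∈ B.vars ∧ lk (litsOf H) p.1 = some p.2) →
      imp (lit u b) B ∈ π →
      Just (FPT G S) π (e ((u, B), H, as)) ∧ imp H B ∈ e ((u, B), H, as)) :
    ∃ e : Nm × Fm → List Fm, Poly e ∧
    ∀ (G : List Rule), Rich G → ∀ (u : Nm) (B : Fm) (π : List Fm), (∀ v, B.Eval v) →
      u ∉ B.vars → imp (lit u b) B ∈ π →
      Just (FPT G S) π (e (u, B)) ∧ B ∈ e (u, B) := by
  obtain ⟨w, e, he, hj⟩ := h
  refine ⟨fun z => treeL e b w (z, ct (brD z.2) true, [], dd (nms z.2)) ++ [z.2], ?_, ?_⟩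
  · exact Poly.append (Poly.comp (poly_treeL he b w) (by fun_prop)) (by fun_prop)
  · intro G hG u B π hB hu hπ
    have hl : litsOf (ct (brD B) true) = [] := rfl
    obtain ⟨j, m⟩ := tree_just hG (S := S) (w := w) (u := u) hB
      (fun H as π h1 h2 h3 h4 h5 => hj G hG u B H as π hu h1 h2 h3 h4 h5) w
      (ct (brD B) true) [] (dd (nms B)) π (by simp) List.nodup_nil (by simp)
      (by rw [hl]; exact nodup_dd _) (by
        rw [hl]
        intro x hx
        exact mem_nms.1 (mem_dd.1 hx)) (by
        rw [hl]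
        intro x hx
        exact mem_dd.2 (mem_nms.2 hx)) hπ
    refine ⟨Just.append j ⟨Or.inr (Or.inl ?_), trivial⟩, by simp⟩
    exact hG.strip (H := var (brD B)) (List.mem_append_right _ m)

end Pool.Agent.H.MP_0447ec_lc.PS
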