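import Pool.Agent.H.MP_0447ec_lc.DY.ZFwd
import Pool.Agent.H.MP_0447ec_lc.DY.OneSim

/-!
# From the slices to the rules given by tables
-/

namespace Pool.Agent.H.MP_0447ec_lc.PS

open Fm Pool.Agent.H.MP_0447ec_lc.PT

/-! ### The data -/

/-- The formula that is proved. -/
def zbA (σs : List (List Fm)) : Fm := lastF (σs.getD 0 [])
/-- The number of names for each register. -/
def zbK (c : ℕ) (σs : List (List Fm)) : ℕ := c * Nat.log 2 (sz σs)
/-- A bound for the number of words. -/
def zbCap (c : ℕ) (σs : List (List Fm)) : ℕ := sz σs ^ c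
/-- The proofs of the slices. -/
def zbS (σs : List (List Fm)) : List (List Fm) :=
  (List.range (varList (zbA σs)).length).map (fun j => σs.getD (j + 1) [])
/-- The proofs of the slices of the formula with negated variables. -/
def zbT (σs : List (List Fm)) : List (List Fm) :=
  (List.range (varList (zbA σs)).length).map
    (fun j => σs.getD ((varList (zbA σs)).length + (j + 1)) [])

theorem pzbA : Poly zbA := by
  have h1 : Poly (fun σs : List (List Fm) => σs.getD 0 []) :=
    Poly.getD (by fun_prop) (PT.Poly.const _) (PT.Poly.const _)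
  unfold zbA; fun_prop
theorem pzbK (c : ℕ) : Poly (zbK c) := by
  have h1 : Poly (fun σs : List (List Fm) => Nat.log 2 (sz σs)) :=
    Poly.log2 (Poly.szOf (by fun_prop))
  unfold zbK; fun_prop
theorem pzbCap (c : ℕ) : Poly (zbCap c) := by
  have h1 : Poly (fun σs : List (List Fm) => sz σs) := Poly.szOf (by fun_prop)
  unfold zbCap
  exact Poly.powC h1 _
theorem pzbS : Poly zbS := by
  have h1 := pzbA
  have h2 : Poly (fun p : List (List Fm) × ℕ => p.1.getD (p.2 + 1) []) :=
    Poly.getD (by fun_prop) (by fun_prop) (PT.Poly.const _)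
  unfold zbS
  exact PT.Poly.map (f := fun (σs : List (List Fm)) (j : ℕ) => σs.getD (j + 1) []) h2
    (by fun_prop)
theorem pzbT : Poly zbT := by
  have h1 := pzbA
  have h3 : Poly (fun p : List (List Fm) × ℕ => zbA p.1) :=
    Poly.comp (f := zbA) (g := fun p : List (List Fm) × ℕ => p.1) h1 (by fun_prop)
  have h2 : Poly (fun p : List (List Fm) × ℕ =>
      p.1.getD ((varList (zbA p.1)).length + (p.2 + 1)) []) :=
    Poly.getD (by fun_prop) (by fun_prop) (PT.Poly.const _)
  unfold zbT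
  exact PT.Poly.map (f := fun (σs : List (List Fm)) (j : ℕ) =>
    σs.getD ((varList (zbA σs)).length + (j + 1)) []) h2 (by fun_prop)

theorem zbS_length (σs : List (List Fm)) : (zbS σs).length = (varList (zbA σs)).length := by
  simp [zbS]

theorem zbT_length (σs : List (List Fm)) : (zbT σs).length = (varList (zbA σs)).length := by
  simp [zbT]

theorem zb_cap (c : ℕ) (σs : List (List Fm)) : 2 ^ zbK c σs ≤ zbCap c σs := by
  unfold zbK zbCap
  rw [Nat.mul_comm, pow_mul]
  exact Nat.pow_le_pow_left (Nat.pow_log_le_self 2 (by have := sz_pos σs; omega)) c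

section

variable {F : List Rule} {S : List (List (Nm × Fm))} {c : ℕ} {A : Fm} {σs : List (List Fm)}
  (h : SliceProof F S c A σs)

include h in
theorem zb_last : zbA σs = A := lastF_eq h.1.2

include h in
theorem zb_one (hS : ∀ t ∈ S, ¬ Raises t) (j : ℕ) (hj : j < (zbS σs).length) :
    SubstProof F (slice A (j + 1)) (zbS σs)[j] ∧ numVars (zbS σs)[j] ≤ zbK c σs * (j + 1) := by
  have hj' : j < (varList A).length := by
    rw [zbS_length, zb_last h] at hj
    exact hj
  have e : (zbS σs)[j] = σs.getD (j + 1) [] := by simp [zbS]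
  obtain ⟨a1, a2⟩ := (h.2 (j + 1) (by omega) (by omega)).1 hS
  rw [e]
  refine ⟨a1, a2.trans (le_of_eq ?_)⟩
  rw [codeProofs_length]
  unfold zbK
  ring

include h in
theorem zb_two (hS : ∀ t ∈ S, ¬ Lowers t) (j : ℕ) (hj : j < (zbT σs).length) :
    SubstProof F (slice (negVars A) (j + 1)) (zbT σs)[j] ∧
      numVars (zbT σs)[j] ≤ zbK c σs * (j + 1) := by
  have hj' : j < (varList A).length := by
    rw [zbT_length, zb_last h] at hj
    exact hj
  have e : (zbT σs)[j] = σs.getD ((varList A).length + (j + 1)) [] := by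
    simp [zbT, zb_last h]
  obtain ⟨a1, a2⟩ := (h.2 (j + 1) (by omega) (by omega)).2 hS
  rw [e]
  refine ⟨a1, a2.trans (le_of_eq ?_)⟩
  rw [codeProofs_length]
  unfold zbK
  ring

theorem subst_sound {F : List Rule} (hF : IsFrege F) {A : Fm} {π : List Fm}
    (h : SubstProof F A π) : ∀ v, A.Eval v :=
  sound_GS hF h.1 A (List.mem_of_getLast? h.2)

end

/-! ### The four cases -/

theorem zb_both {F : List Rule} (hF : IsFrege F) {S : List (List (Nm × Fm))}
    (h1 : ∃ t ∈ S, Raises t) (h2 : ∃ t ∈ S, Lowers t) (c : ℕ) :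
    ∃ g : List (List Fm) → List Fm, Poly g ∧
      ∀ (A : Fm) (σs : List (List Fm)), SliceProof F S c A σs → TableProof F S A (g σs) := by
  obtain ⟨f, hf, hf'⟩ := psim_iff.1 (simulates_of_moves hF h1 h2)
  obtain ⟨g, hg, hg'⟩ := subst_to_narrow hF
  have e1 : Poly (fun σs : List (List Fm) => σs.getD 0 []) :=
    Poly.getD (by fun_prop) (PT.Poly.const _) (PT.Poly.const _)
  exact ⟨fun σs => f (g (σs.getD 0 [])), hf.comp (hg.comp e1),
    fun A σs h => hf' _ _ (hg' A _ h.1).ext⟩

theorem zb_none {F : List Rule} (hF : IsFrege F) {S : List (List (Nm × Fm))}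
    (h1 : ∀ t ∈ S, ¬ Raises t) (h2 : ∀ t ∈ S, ¬ Lowers t) (c : ℕ) :
    ∃ g : List (List Fm) → List Fm, Poly g ∧
      ∀ (A : Fm) (σs : List (List Fm)), SliceProof F S c A σs → TableProof F S A (g σs) := by
  obtain ⟨e, he, he'⟩ := sliceB hF
  have q1 := pzbA
  have q2 := pzbK c
  have q3 := pzbCap c
  have q4 := pzbS
  have q5 := pzbT
  refine ⟨fun σs => e ((zbK c σs, zbCap c σs), zbA σs, zbS σs, zbT σs), ?_, ?_⟩
  · exact Poly.comp he (Poly.pair (Poly.pair q2 q3) (Poly.pair q1 (Poly.pair q4 q5)))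
  · intro A σs h
    have hl := zb_last h
    have h3 := he' A (zbK c σs) (zbCap c σs) (zbS σs) (zbT σs) (zb_cap c σs)
      (by rw [zbS_length, hl]) (by rw [zbT_length, hl]) (zb_one h h1) (zb_two h h2)
    simp only [hl]
    exact ⟨h3.1.imp_step (fun _ _ h => h.imp id Or.inl), h3.2⟩

theorem zb_lower {F : List Rule} (hF : IsFrege F) {S : List (List (Nm × Fm))}
    (h1 : ∀ t ∈ S, ¬ Raises t) (h2 : ∃ t ∈ S, Lowers t) (c : ℕ) :
    ∃ g : List (List Fm) → List Fm, Poly g ∧
      ∀ (A : Fm) (σs : List (List Fm)), SliceProof F S c A σs → TableProof F S A (g σs) := by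
  obtain ⟨t, ht, hlt⟩ := h2
  obtain ⟨f, z, hf, hz, hfz⟩ := half_main hF
  obtain ⟨e, he, he'⟩ := elim_list ht ((lowers_iff t).1 hlt)
  obtain ⟨w, hw, hw'⟩ := exists_finT2 hF S
  have q1 := pzbA
  have q2 := pzbK c
  have q3 := pzbCap c
  have q4 := pzbS
  refine ⟨fun σs => fin1 w (zbA σs) (f ((zbK c σs, zbCap c σs), zbA σs, zbS σs) ++
    e (hfD (zbA σs), z ((zbK c σs, zbCap c σs), zbA σs), zbA σs)), ?_, ?_⟩
  · have r1 : Poly (fun σs => f ((zbK c σs, zbCap c σs), zbA σs, zbS σs)) :=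
      Poly.comp hf (Poly.pair (Poly.pair q2 q3) (Poly.pair q1 q4))
    have r2 : Poly (fun σs => z ((zbK c σs, zbCap c σs), zbA σs)) :=
      Poly.comp hz (Poly.pair (Poly.pair q2 q3) q1)
    have r3 : Poly (fun σs => hfD (zbA σs)) := Poly.comp FnO.phfD q1
    have r4 : Poly (fun σs => e (hfD (zbA σs), z ((zbK c σs, zbCap c σs), zbA σs), zbA σs)) :=
      Poly.comp he (Poly.pair r3 (Poly.pair r2 q1))
    exact poly_fin1 hw q1 (Poly.append r1 r4)
  · intro A σs h
    have hl := zb_last h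
    obtain ⟨z1, z2, j1, m1⟩ := hfz A (zbK c σs) (zbCap c σs) (zbS σs) (zb_cap c σs)
      (by rw [zbS_length, hl]) (zb_one h h1)
    obtain ⟨j2, m2⟩ := he' (GG (GG F)) (GG_rich _) (hfD A) _ A _ (subst_sound hF h.1) z1 z2 m1
    simp only [hl]
    exact hw' A _ (Just.append (fpToFPT j1) j2) (List.mem_append_right _ m2)

theorem zb_raise {F : List Rule} (hF : IsFrege F) {S : List (List (Nm × Fm))}
    (h1 : ∃ t ∈ S, Raises t) (h2 : ∀ t ∈ S, ¬ Lowers t) (c : ℕ) :
    ∃ g : List (List Fm) → List Fm, Poly g ∧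
      ∀ (A : Fm) (σs : List (List Fm)), SliceProof F S c A σs → TableProof F S A (g σs) := by
  obtain ⟨t, ht, hrt⟩ := h1
  obtain ⟨f, z, hf, hz, hfz⟩ := half_main_neg hF
  obtain ⟨e, he, he'⟩ := elim_list ht ((raises_iff t).1 hrt)
  obtain ⟨w, hw, hw'⟩ := exists_finT2 hF S
  have q1 := pzbA
  have q2 := pzbK c
  have q3 := pzbCap c
  have q4 := pzbT
  refine ⟨fun σs => fin1 w (zbA σs) (f ((zbK c σs, zbCap c σs), zbA σs, zbT σs) ++
    e (hfD (zbA σs), z ((zbK c σs, zbCap c σs), zbA σs), zbA σs)), ?_, ?_⟩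
  · have r1 : Poly (fun σs => f ((zbK c σs, zbCap c σs), zbA σs, zbT σs)) :=
      Poly.comp hf (Poly.pair (Poly.pair q2 q3) (Poly.pair q1 q4))
    have r2 : Poly (fun σs => z ((zbK c σs, zbCap c σs), zbA σs)) :=
      Poly.comp hz (Poly.pair (Poly.pair q2 q3) q1)
    have r3 : Poly (fun σs => hfD (zbA σs)) := Poly.comp FnO.phfD q1
    have r4 : Poly (fun σs => e (hfD (zbA σs), z ((zbK c σs, zbCap c σs), zbA σs), zbA σs)) :=
      Poly.comp he (Poly.pair r3 (Poly.pair r2 q1))
    exact poly_fin1 hw q1 (Poly.append r1 r4)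
  · intro A σs h
    have hl := zb_last h
    obtain ⟨z1, z2, j1, m1⟩ := hfz A (zbK c σs) (zbCap c σs) (zbT σs) (zb_cap c σs)
      (by rw [zbT_length, hl]) (zb_two h h2)
    obtain ⟨j2, m2⟩ := he' (GG (GG F)) (GG_rich _) (hfD A) _ A _ (subst_sound hF h.1) z1 z2 m1
    simp only [hl]
    exact hw' A _ (Just.append (fpToFPT j1) j2) (List.mem_append_right _ m2)

theorem table_of_slice {F : List Rule} (hF : IsFrege F) (S : List (List (List Bool × Fm)))
    (c : ℕ) : ∃ g : List (List Fm) → List Fm, Poly g ∧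
      ∀ (A : Fm) (σs : List (List Fm)), SliceProof F S c A σs → TableProof F S A (g σs) := by
  by_cases h1 : ∃ t ∈ S, Raises t
  · by_cases h2 : ∃ t ∈ S, Lowers t
    · exact zb_both hF h1 h2 c
    · exact zb_raise hF h1 (fun t ht hc => h2 ⟨t, ht, hc⟩) c
  · by_cases h2 : ∃ t ∈ S, Lowers t
    · exact zb_lower hF (fun t ht hc => h1 ⟨t, ht, hc⟩) h2 c
    · exact zb_none hF (fun t ht hc => h1 ⟨t, ht, hc⟩) (fun t ht hc => h2 ⟨t, ht, hc⟩) c

/-- The rules given by `S` are p-equivalent to the slices. -/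
theorem slices_table {F : List Rule} (hF : IsFrege F) (S : List (List (List Bool × Fm))) :
    (∃ (c : ℕ) (f : List Fm → List (List Fm)),
      Nonempty (Turing.TM2ComputableInPolyTime codeProof codeProofs f) ∧
      ∀ (A : Fm) (π : List Fm), TableProof F S A π → SliceProof F S c A (f π)) ∧
    ∀ c : ℕ, ∃ g : List (List Fm) → List Fm,
      Nonempty (Turing.TM2ComputableInPolyTime codeProofs codeProof g) ∧
      ∀ (A : Fm) (σs : List (List Fm)), SliceProof F S c A σs → TableProof F S A (g σs) := by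
  constructor
  · obtain ⟨c, f, hf, h⟩ := slice_of_table hF S
    exact ⟨c, f, (tm2_iff_poly codeProof_eq codeProofs_eq f).2 hf, h⟩
  · intro c
    obtain ⟨g, hg, h⟩ := table_of_slice hF S c
    exact ⟨g, (tm2_iff_poly codeProofs_eq codeProof_eq g).2 hg, h⟩

end Pool.Agent.H.MP_0447ec_lc.PS
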