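import Pool.Agent.H.MP_0447ec_lc.DY.Defs
import Pool.Agent.H.MP_0447ec_lc.LV.SliceDefs

/-!
# The proof systems given by the slices
-/

namespace Pool.Agent.H.MP_0447ec_lc.PS

open Fm

/-- Binary code of a list of proofs: the codes of its members, each preceded by `true`, then
`false`. -/
def codeProofs (σs : List (List Fm)) : List Bool :=
  σs.flatMap (fun π => true :: codeProof π) ++ [false]

/-- `σ` is a proof of `B` in `F` with the substitution rule in which at most `b` different
variables occur. -/
def FewVars (F : List Rule) (B : Fm) (b : ℕ) (σ : List Fm) : Prop :=
  SubstProof F B σ ∧ numVars σ ≤ b

/-- The proof system given by the slices. A proof of `A` is a list of substitution Frege proofs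
that begins with a proof of `A`. For `j = 1, ..., n`, where `n` is the number of variables of `A`,
the next `n` proofs are proofs of the slices of `A` with at most `c * j * log₂ N` different
variables, where `N` is the length of the code of the list, unless `S` contains a substitution that
raises the number of true variables of some assignment, and the next `n` proofs are such proofs of
the slices of `A` with negated variables, unless `S` contains a substitution that lowers this
number for some assignment. -/
def SliceProof (F : List Rule) (S : List (List (List Bool × Fm))) (c : ℕ) (A : Fm)
    (σs : List (List Fm)) : Prop :=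
  SubstProof F A (σs.getD 0 []) ∧ ∀ j : ℕ, 0 < j → j ≤ (varList A).length →
    ((∀ t ∈ S, ¬ Raises t) →
      FewVars F (slice A j) (c * j * Nat.log 2 (codeProofs σs).length) (σs.getD j [])) ∧
    ((∀ t ∈ S, ¬ Lowers t) →
      FewVars F (slice (negVars A) j) (c * j * Nat.log 2 (codeProofs σs).length)
        (σs.getD ((varList A).length + j) []))

end Pool.Agent.H.MP_0447ec_lc.PS
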