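import Pool.Agent.H.MP_0447ec_lc.DY.ZBwd

/-!
# Extended Frege proofs and the proofs of the slices
-/

namespace Pool.Agent.H.MP_0447ec_lc.PS

open Fm Pool.Agent.H.MP_0447ec_lc.PT

theorem tableProof_nil {F : List Rule} {A : Fm} {π : List Fm} :
    TableProof F [] A π ↔ PermProof F A π := by
  constructor
  · intro h
    refine ⟨h.1.imp_step (fun _ _ h => h.imp id (fun h => h.elim id ?_)), h.2⟩
    rintro ⟨C, -, t, ht, -⟩
    exact absurd ht (by simp)
  · intro h
    exact ⟨h.1.imp_step (fun _ _ h => h.imp id Or.inl), h.2⟩

/-- The permutation rule p-simulates extended Frege if and only if extended Frege proofs can be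
transformed into proofs of the slices. -/
theorem slices_ext {F : List Rule} (hF : IsFrege F) :
    PSimulates (PermProof F) (ExtProof F) ↔
      ∃ (c : ℕ) (f : List Fm → List (List Fm)),
        Nonempty (Turing.TM2ComputableInPolyTime codeProof codeProofs f) ∧
        ∀ (A : Fm) (π : List Fm), ExtProof F A π → SliceProof F [] c A (f π) := by
  rw [psim_iff]
  constructor
  · rintro ⟨f, hf, h⟩
    obtain ⟨c, g, hg, h'⟩ := slice_of_table hF []
    refine ⟨c, fun π => g (f π), (tm2_iff_poly codeProof_eq codeProofs_eq _).2 (hg.comp hf),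
      fun A π hπ => h' A _ (tableProof_nil.2 (h A π hπ))⟩
  · rintro ⟨c, f, hf, h⟩
    obtain ⟨g, hg, h'⟩ := table_of_slice hF [] c
    exact ⟨fun π => g (f π), hg.comp ((tm2_iff_poly codeProof_eq codeProofs_eq _).1 hf),
      fun A π hπ => tableProof_nil.1 (h' A _ (h A π hπ))⟩

/-- The rules given by `S` are p-equivalent to the slices, and the permutation rule p-simulates
extended Frege if and only if extended Frege proofs can be transformed into proofs of the
slices. -/
theorem slices_main {F : List Rule} (hF : IsFrege F) (S : List (List (List Bool × Fm))) :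
    ((∃ (c : ℕ) (f : List Fm → List (List Fm)),
        Nonempty (Turing.TM2ComputableInPolyTime codeProof codeProofs f) ∧
        ∀ (A : Fm) (π : List Fm), TableProof F S A π → SliceProof F S c A (f π)) ∧
      ∀ c : ℕ, ∃ g : List (List Fm) → List Fm,
        Nonempty (Turing.TM2ComputableInPolyTime codeProofs codeProof g) ∧
        ∀ (A : Fm) (σs : List (List Fm)), SliceProof F S c A σs → TableProof F S A (g σs)) ∧
    (PSimulates (PermProof F) (ExtProof F) ↔
      ∃ (c : ℕ) (f : List Fm → List (List Fm)),
        Nonempty (Turing.TM2ComputableInPolyTime codeProof codeProofs f) ∧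
        ∀ (A : Fm) (π : List Fm), ExtProof F A π → SliceProof F [] c A (f π)) :=
  ⟨slices_table hF S, slices_ext hF⟩

end Pool.Agent.H.MP_0447ec_lc.PS
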