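import Pool.Agent.H.MP_0447ec_lc.DY.ZSl
import Pool.Agent.H.MP_0447ec_lc.DY.ZMain

/-!
# The two definitions of the proof systems given by the slices agree
-/

namespace Pool.Agent.H.MP_0447ec_lc.PS.LM

open Fm

theorem occ_eq (A : Fm) : occ A = nms A := by
  induction A with
  | var w => rfl
  | neg A ih => exact ih
  | and A B ih1 ih2 => simp only [occ, nms, ih1, ih2]
  | or A B ih1 ih2 => simp only [occ, nms, ih1, ih2]
  | imp A B ih1 ih2 => simp only [occ, nms, ih1, ih2]

theorem varList_eq (A : Fm) : varList A = PS.varList A := by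
  unfold varList PS.varList dd
  rw [occ_eq]

theorem slice_eq' (A : Fm) (j : ℕ) : slice A j = PS.slice A j := by
  unfold slice PS.slice
  rw [varList_eq]
  refine congrArg (fun s => A.subst s) (funext fun x => ?_)
  unfold someContains anyr dj contains eqr cj
  rw [List.map_map]
  rfl

theorem sliceProof_iff {F : List Rule} {S : List (List (List Bool × Fm))} {c : ℕ} {A : Fm}
    {σs : List (List Fm)} : SliceProof F S c A σs ↔ PS.SliceProof F S c A σs := by
  unfold SliceProof PS.SliceProof
  rw [varList_eq]
  simp only [slice_eq']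
  exact Iff.rfl

theorem slices_main {F : List Rule} (hF : IsFrege F) (S : List (List (List Bool × Fm))) :
    ((∃ (c : ℕ) (f : List Fm → List (List Fm)),
        Nonempty (Turing.TM2ComputableInPolyTime codeProof codeProofs f) ∧
        ∀ (A : Fm) (π : List Fm), TableProof F S A π → SliceProof F S c A (f π)) ∧
      ∀ c : ℕ, ∃ g : List (List Fm) → List Fm,
        Nonempty (Turing.TM2ComputableInPolyTime codeProofs codeProof g) ∧
        ∀ (A : Fm) (σs : List (List Fm)), SliceProof F S c A σs → TableProof F S A (g σs)) ∧
    (PSimulates (PermProof F) (ExtProof F) ↔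
      ∃ (c : ℕ) (f : List Fm → List (List Fm)),
        Nonempty (Turing.TM2ComputableInPolyTime codeProof codeProofs f) ∧
        ∀ (A : Fm) (π : List Fm), ExtProof F A π → SliceProof F [] c A (f π)) := by
  simp only [sliceProof_iff]
  exact PS.slices_main hF S

end Pool.Agent.H.MP_0447ec_lc.PS.LM
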