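import Pool.Agent.H.MP_0447ec_lc.DY.ZDefs
import Pool.Agent.H.MP_0447ec_lc.DY.Dual2
import Pool.Agent.H.MP_0447ec_lc.DY.SliceS
import Pool.Agent.H.MP_0447ec_lc.DY.Up
import Pool.Agent.H.MP_0447ec_lc.LV.EnginePoly

/-!
# From the rules given by tables to the slices
-/

namespace Pool.Agent.H.MP_0447ec_lc.PS

open Fm Pool.Agent.H.MP_0447ec_lc.PT

theorem codeProofs_eq (σs : List (List Fm)) : codeProofs σs = (enc σs).bits :=
  code_list codeProof_eq σs

theorem codeProofs_length (σs : List (List Fm)) : (codeProofs σs).length = sz σs := by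
  rw [codeProofs_eq, D.bits_length]; rfl

theorem zf_log {a b : ℕ} (ha : 0 < a) (hab : a < b) (C : ℕ) (j : ℕ) :
    C * j * (Nat.log 2 a + 1) ≤ 2 * C * j * Nat.log 2 b := by
  have h1 : Nat.log 2 a ≤ Nat.log 2 b := Nat.log_mono_right hab.le
  have h2 : 1 ≤ Nat.log 2 b := Nat.log_pos (by norm_num) (by omega)
  calc C * j * (Nat.log 2 a + 1) ≤ C * j * (2 * Nat.log 2 b) := Nat.mul_le_mul_left _ (by omega)
    _ = 2 * C * j * Nat.log 2 b := by ring

/-- The list of proofs of the slices. -/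
def zfOut (g1 g2 : List Fm × ℕ → List Fm) (g : List Fm → List Fm) (π : List Fm) :
    List (List Fm) :=
  π :: ((List.range (varList (lastF π)).length).map (fun j => g1 (π, j + 1)) ++
    ((List.range (varList (lastF π)).length).map (fun j => g2 (g π, j + 1)) ++ [g π]))

theorem poly_zfOut {g1 g2 : List Fm × ℕ → List Fm} {g : List Fm → List Fm} (h1 : Poly g1)
    (h2 : Poly g2) (h : Poly g) : Poly (zfOut g1 g2 g) := by
  unfold zfOut
  fun_prop

theorem zfOut_one (g1 g2 : List Fm × ℕ → List Fm) (g : List Fm → List Fm) (π : List Fm) {j : ℕ}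
    (hj : 0 < j) (hn : j ≤ (varList (lastF π)).length) :
    (zfOut g1 g2 g π).getD j [] = g1 (π, j) := by
  obtain ⟨i, rfl⟩ := Nat.exists_eq_succ_of_ne_zero hj.ne'
  unfold zfOut
  rw [List.getD_cons_succ, List.getD_append _ _ _ _ (by simp; omega)]
  simp only [List.getD_eq_getElem?_getD, List.getElem?_map]
  rw [List.getElem?_range (by omega)]
  rfl

theorem zfOut_two (g1 g2 : List Fm × ℕ → List Fm) (g : List Fm → List Fm) (π : List Fm) {j : ℕ}
    (hj : 0 < j) (hn : j ≤ (varList (lastF π)).length) :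
    (zfOut g1 g2 g π).getD ((varList (lastF π)).length + j) [] = g2 (g π, j) := by
  obtain ⟨i, rfl⟩ := Nat.exists_eq_succ_of_ne_zero hj.ne'
  unfold zfOut
  rw [Nat.add_succ, List.getD_cons_succ, List.getD_append_right _ _ _ _ (by simp)]
  rw [List.length_map, List.length_range, Nat.add_sub_cancel_left,
    List.getD_append _ _ _ _ (by simp; omega)]
  simp only [List.getD_eq_getElem?_getD, List.getElem?_map]
  rw [List.getElem?_range (by omega)]
  rfl

theorem zfOut_mem1 (g1 g2 : List Fm × ℕ → List Fm) (g : List Fm → List Fm) (π : List Fm) :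
    sz π < sz (zfOut g1 g2 g π) := sz_mem_lt (by simp [zfOut])

theorem zfOut_mem2 (g1 g2 : List Fm × ℕ → List Fm) (g : List Fm → List Fm) (π : List Fm) :
    sz (g π) < sz (zfOut g1 g2 g π) := sz_mem_lt (by simp [zfOut])

theorem zf_slice1 {F : List Rule} (hF : IsFrege F) (S : List (List (Nm × Fm))) :
    ∃ (C : ℕ) (g : List Fm × ℕ → List Fm), PT.Poly g ∧ ((∀ t ∈ S, ¬ Raises t) →
    ∀ (A : Fm) (π : List Fm) (j : ℕ), 0 < j → TableProof F S A π →
      SubstProof F (slice A j) (g (π, j)) ∧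
      numVars (g (π, j)) ≤ C * j * (Nat.log 2 (PT.sz π) + 1)) := by
  by_cases h : ∀ t ∈ S, ¬ Raises t
  · obtain ⟨C, g, hg, hg'⟩ := sliceS hF h
    exact ⟨C, g, hg, fun _ => hg'⟩
  · exact ⟨0, fun _ => [], PT.Poly.const [], fun h' => absurd h' h⟩

theorem zf_slice2 {F : List Rule} (hF : IsFrege F) (S : List (List (Nm × Fm))) :
    ∃ (C : ℕ) (g : List Fm × ℕ → List Fm), PT.Poly g ∧ ((∀ t ∈ S, ¬ Lowers t) →
    ∀ (A : Fm) (π : List Fm) (j : ℕ), 0 < j → TableProof F (S.map dualT) A π →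
      SubstProof F (slice A j) (g (π, j)) ∧
      numVars (g (π, j)) ≤ C * j * (Nat.log 2 (PT.sz π) + 1)) := by
  by_cases h : ∀ t ∈ S, ¬ Lowers t
  · obtain ⟨C, g, hg, hg'⟩ := sliceS hF (S := S.map dualT) (by
      intro t ht
      obtain ⟨u, hu, rfl⟩ := List.mem_map.1 ht
      exact lowers_dualT (h u hu))
    exact ⟨C, g, hg, fun _ => hg'⟩
  · exact ⟨0, fun _ => [], PT.Poly.const [], fun h' => absurd h' h⟩

theorem slice_of_table {F : List Rule} (hF : IsFrege F) (S : List (List (List Bool × Fm))) :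
    ∃ (c : ℕ) (f : List Fm → List (List Fm)), Poly f ∧
      ∀ (A : Fm) (π : List Fm), TableProof F S A π → SliceProof F S c A (f π) := by
  obtain ⟨C1, g1, p1, h1⟩ := zf_slice1 hF S
  obtain ⟨C2, g2, p2, h2⟩ := zf_slice2 hF S
  obtain ⟨g, pg, hg⟩ := table_dual hF S
  refine ⟨2 * (C1 + C2), zfOut g1 g2 g, poly_zfOut p1 p2 pg, ?_⟩
  intro A π hπ
  have hl : lastF π = A := lastF_eq hπ.2
  refine ⟨hπ.toSubst, ?_⟩
  intro j hj hjn
  have e1 := zfOut_one g1 g2 g π hj (by rw [hl]; exact hjn)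
  have e2 := zfOut_two g1 g2 g π hj (by rw [hl]; exact hjn)
  rw [hl] at e2
  rw [codeProofs_length]
  constructor
  · intro hS
    obtain ⟨a1, a2⟩ := h1 hS A π j hj hπ
    rw [e1]
    refine ⟨a1, a2.trans ((zf_log (sz_pos _) (zfOut_mem1 g1 g2 g π) C1 j).trans ?_)⟩
    gcongr
    omega
  · intro hS
    obtain ⟨a1, a2⟩ := h2 hS (negVars A) (g π) j hj (hg A π hπ)
    rw [e2]
    refine ⟨a1, a2.trans ((zf_log (sz_pos _) (zfOut_mem2 g1 g2 g π) C2 j).trans ?_)⟩
    gcongr
    omega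

end Pool.Agent.H.MP_0447ec_lc.PS
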