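import Pool.Agent.H.MP_0447ec_lc.DY.Defs

/-!
# The proof systems given by the slices of a formula
-/

namespace Pool.Agent.H.MP_0447ec_lc.PS.LM

open Fm

/-- The variables of a formula, from left to right, with repetitions. -/
def occ : Fm → List (List Bool)
  | .var w => [w]
  | .neg A => occ A
  | .and A B => occ A ++ occ B
  | .or A B => occ A ++ occ B
  | .imp A B => occ A ++ occ B

/-- The list of the variables of a formula, without repetitions. -/
def varList (A : Fm) : List (List Bool) :=
  (occ A).foldr (fun x l => if x ∈ l then l else x :: l) []

/-- The formula that says that the variable `x` has the value `b`. -/
def lit (x : List Bool) (b : Bool) : Fm := if b then var x else neg (var x)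

/-- A formula that always has the value `b`. -/
def const (b : Bool) : Fm :=
  if b then imp (var []) (var []) else neg (imp (var []) (var []))

/-- The names of the `c` bits of the register with number `J`. -/
def register (c J : ℕ) : List (List Bool) :=
  (List.range c).map (fun k => List.replicate (J + 1) true ++ false :: List.replicate k true)

/-- The `c` lowest binary digits of the number `i`. -/
def digits (c i : ℕ) : List Bool := (List.range c).map (fun k => i.testBit k)

/-- The formula that says that the register with number `J` contains the number `i`. -/
def contains (c J i : ℕ) : Fm :=
  (((register c J).zip (digits c i)).map (fun p => lit p.1 p.2)).foldr and (const true)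

/-- The formula that says that one of the registers with the numbers `0, ..., j - 1` contains the
number `i`. -/
def someContains (c j i : ℕ) : Fm :=
  ((List.range j).map (fun J => contains c J i)).foldr or (const false)

/-- The slice of `A` with number `j` says that `A` is true if at most `j` of its `n` variables are
true: there are `j` registers of `log₂ n + 1` bits, and the variable with number `i = 1, ..., n`
is replaced by the formula that says that one of the registers contains the number `i`. -/
def slice (A : Fm) (j : ℕ) : Fm :=
  A.subst (fun x => someContains (Nat.log 2 (varList A).length + 1) j
    ((varList A).idxOf x + 1))

/-- The formula `A` with negated variables. -/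
def negVars (A : Fm) : Fm := A.subst (fun w => neg (var w))

/-- Binary code of a list of proofs: the codes of its members, each preceded by `true`, then
`false`. -/
def codeProofs (σs : List (List Fm)) : List Bool :=
  σs.flatMap (fun π => true :: codeProof π) ++ [false]

/-- `σ` is a proof of `B` in `F` with the substitution rule in which at most `b` different
variables occur. -/
def FewVars (F : List Rule) (B : Fm) (b : ℕ) (σ : List Fm) : Prop :=
  SubstProof F B σ ∧ numVars σ ≤ b

/-- The proof system given by the slices. A proof of `A` is a list of substitution Frege proofs
that begins with a proof of `A`. For `j = 1, ..., n`, where `n` is the number of variables of `A`,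
the next `n` proofs are proofs of the slices of `A` with at most `c * j * log₂ N` different
variables, where `N` is the length of the code of the list, unless `S` contains a substitution that
raises the number of true variables of some assignment, and the next `n` proofs are such proofs of
the slices of `A` with negated variables, unless `S` contains a substitution that lowers this
number for some assignment. -/
def SliceProof (F : List Rule) (S : List (List (List Bool × Fm))) (c : ℕ) (A : Fm)
    (σs : List (List Fm)) : Prop :=
  SubstProof F A (σs.getD 0 []) ∧ ∀ j : ℕ, 0 < j → j ≤ (varList A).length →
    ((∀ t ∈ S, ¬ Raises t) →
      FewVars F (slice A j) (c * j * Nat.log 2 (codeProofs σs).length) (σs.getD j [])) ∧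
    ((∀ t ∈ S, ¬ Lowers t) →
      FewVars F (slice (negVars A) j) (c * j * Nat.log 2 (codeProofs σs).length)
        (σs.getD ((varList A).length + j) []))

end Pool.Agent.H.MP_0447ec_lc.PS.LM
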